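import Pool.Agent.SXP.Tree

/-! Project SXQ (parametrised windmill theorem), definitions.  `Ctx d R β κ`: `G` acts by
isometries on the tree `(V, d)`, `R` is a conjugation invariant subset of `G`, every element of `R`
moves every vertex by at least `β + κ`, two different elements of `R` have axes which overlap in
at most one edge; and either `(β, κ) = (2, 4)` or `(β, κ) = (1, 3)` and there are no triangles. -/

namespace SXQ

open SXP

variable {V G : Type*} [Group G] [MulAction G V]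

/-- No three axes of different elements of `R` pass pairwise through the three edges of a tripod. -/
def NoTri (d : V → V → ℕ) (R : Set G) : Prop :=
  ∀ x ∈ R, ∀ y ∈ R, ∀ z ∈ R, x ≠ y → y ≠ z → x ≠ z → ∀ v a b c : V,
    d v a = 1 → d v b = 1 → d v c = 1 → a ≠ b → b ≠ c → a ≠ c →
    v ∈ Ax d x → v ∈ Ax d y → v ∈ Ax d z →
    a ∈ Ax d x → b ∈ Ax d x → b ∈ Ax d y → c ∈ Ax d y → c ∈ Ax d z → a ∈ Ax d z → False

structure Ctx (d : V → V → ℕ) (R : Set G) (β κ : ℕ) : Prop where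
  tm : TM d
  iso : ∀ (g : G) (x y : V), d (g • x) (g • y) = d x y
  conj : ∀ g : G, ∀ x ∈ R, g * x * g⁻¹ ∈ R
  six : ∀ x ∈ R, ∀ v : V, β + κ ≤ d v (x • v)
  ov : ∀ x ∈ R, ∀ y ∈ R, x ≠ y → ∀ a b, a ∈ Ax d x → a ∈ Ax d y → b ∈ Ax d x → b ∈ Ax d y →
    d a b ≤ 1
  alt : (β = 2 ∧ κ = 4) ∨ (β = 1 ∧ κ = 3 ∧ NoTri d R)

theorem Ctx.hκ {d : V → V → ℕ} {R : Set G} {β κ : ℕ} (hC : Ctx d R β κ) : 3 ≤ κ := by
  rcases hC.alt with h | h <;> omega

theorem Ctx.hβ {d : V → V → ℕ} {R : Set G} {β κ : ℕ} (hC : Ctx d R β κ) : β ≤ 2 := by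
  rcases hC.alt with h | h <;> omega

/-- The group generated by the elements of `R` whose axis is contained in `W`. -/
def GW (d : V → V → ℕ) (R : Set G) (W : Set V) : Subgroup G :=
  Subgroup.closure {x | x ∈ R ∧ Ax d x ⊆ W}

/-- `W` is a windmill. -/
structure WM (d : V → V → ℕ) (R : Set G) (β : ℕ) (W : Set V) : Prop where
  ne : W.Nonempty
  conv : Conv d W
  p1 : ∀ g ∈ GW d R W, ∀ w ∈ W, g • w ∈ W
  p2 : ∀ g ∈ GW d R W, g ≠ 1 → ∀ v : V, g • v ≠ v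
  p3 : ∀ x ∈ R, Ax d x ⊆ W ∨
    ∀ a b, a ∈ Ax d x → a ∈ W → b ∈ Ax d x → b ∈ W → d a b ≤ β

/-- The elements of `R` whose axis meets `W` without being contained in `W`. -/
def TT (d : V → V → ℕ) (R : Set G) (W : Set V) : Set G :=
  {x | x ∈ R ∧ (∃ a, a ∈ Ax d x ∧ a ∈ W) ∧ ¬ Ax d x ⊆ W}

/-- The group generated by the elements of `R` whose axis meets `W`. -/
def G1 (d : V → V → ℕ) (R : Set G) (W : Set V) : Subgroup G :=
  Subgroup.closure ({x | x ∈ R ∧ Ax d x ⊆ W} ∪ TT d R W)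

/-- The ping-pong domain of `x`. -/
def DD (d : V → V → ℕ) (W : Set V) (x : G) : Set V :=
  {y | ∃ a, a ∈ Ax d x ∧ (∀ w ∈ W, 2 ≤ d a w) ∧ ∀ w ∈ W, Btw d y a w}

/-- The next windmill: all translates of `W` and of the axes meeting `W`. -/
def W1 (d : V → V → ℕ) (R : Set G) (W : Set V) : Set V :=
  {v | ∃ g ∈ G1 d R W, (∃ w ∈ W, v = g • w) ∨ ∃ x ∈ TT d R W, v ∈ Ax d (g * x * g⁻¹)}

/-- A chart of the axis of `x ∈ TT`. -/
structure TCh (d : V → V → ℕ) (W : Set V) (β κ : ℕ) (x : G) (c : ℤ → V) (τ : ℕ) (s t : ℤ) :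
    Prop where
  line : IsLine d c
  tr : ∀ n : ℤ, x • c n = c (n + τ)
  rng : ∀ v, v ∈ Ax d x ↔ ∃ n, v = c n
  six : β + κ ≤ τ
  st : s ≤ t
  ts : t ≤ s + β
  mem : ∀ i, c i ∈ W ↔ s ≤ i ∧ i ≤ t

end SXQ
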