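import Pool.Agent.SXQ.WChart


namespace SXQ

open SXP

variable {V G : Type*} [Group G] [MulAction G V] {d : V → V → ℕ} {R : Set G} {W : Set V} {β κ : ℕ}

theorem nbhd_conv (h : TM d) {W : Set V} (hW : Conv d W) : Conv d {v | ∃ w ∈ W, d v w ≤ 1} := by
  rintro v ⟨w, hw, hvw⟩ v' ⟨w', hw', hvw'⟩ y hy
  rcases btw_tri h hy w with h1 | h1
  · refine ⟨w, hw, ?_⟩
    unfold SXP.Btw at h1
    omega
  · rcases btw_tri h h1 w' with h2 | h2
    · refine ⟨y, hW w hw w' hw' y h2, ?_⟩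
      rw [(h.zero y y).2 rfl]
      omega
    · refine ⟨w', hw', ?_⟩
      unfold SXP.Btw at h2
      have h3 := h.symm w' y
      have h4 := h.symm w' v'
      omega

private lemma line_two (h : TM d) {W : Set V} (hW : Conv d W) {c : ℤ → V} (hc : IsLine d c) {i : ℤ}
    (h1 : c i ∈ {v | ∃ w ∈ W, d v w ≤ 1}) (h2 : c (i + 1) ∈ {v | ∃ w ∈ W, d v w ≤ 1})
    (h3 : c i ∉ W) (h4 : c (i + 1) ∉ W) : False := by
  obtain ⟨p, hp, hp1⟩ := h1
  obtain ⟨q, hq, hq1⟩ := h2
  have hab : d (c i) (c (i + 1)) = 1 := by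
    have := hc i (i + 1)
    rw [show i - (i + 1) = -1 by ring] at this
    simpa using this
  have hp2 : d (c i) p ≠ 0 := by
    intro h0
    rw [(h.zero _ _).1 h0] at h3
    exact h3 hp
  have hq2 : d (c (i + 1)) q ≠ 0 := by
    intro h0
    rw [(h.zero _ _).1 h0] at h4
    exact h4 hq
  exact nbr h hW hab h3 h4 hp (by omega) hq (by omega)

theorem type2 (hC : Ctx d R β κ) (hW : WM d R β W) (hne : W ≠ Set.univ) (hT : TT d R W = ∅) :
    ∃ W', W ⊂ W' ∧ WM d R β W' := by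
  haveI : Nonempty V := ⟨hW.ne.some⟩
  have h := hC.tm
  have hsub : W ⊆ {v | ∃ w ∈ W, d v w ≤ 1} := by
    intro w hw
    refine ⟨w, hw, ?_⟩
    rw [(h.zero w w).2 rfl]
    omega
  have hmeet : ∀ x ∈ R, (∃ a, a ∈ Ax d x ∧ a ∈ W) → Ax d x ⊆ W := by
    intro x hx hm
    by_contra hn
    have : x ∈ TT d R W := ⟨hx, hm, hn⟩
    rw [hT] at this
    exact this
  have hset : {x | x ∈ R ∧ Ax d x ⊆ {v | ∃ w ∈ W, d v w ≤ 1}} = {x | x ∈ R ∧ Ax d x ⊆ W} := by
    ext x
    constructor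
    · rintro ⟨hx, hsx⟩
      refine ⟨hx, hmeet x hx ?_⟩
      obtain ⟨c, τ, hc, htr, hrng, hτ⟩ := ax_line hC hx
      by_cases h0 : c 0 ∈ W
      · exact ⟨c 0, (hrng _).2 ⟨0, rfl⟩, h0⟩
      · by_cases h1 : c (0 + 1) ∈ W
        · exact ⟨c (0 + 1), (hrng _).2 ⟨0 + 1, rfl⟩, h1⟩
        · exact (line_two h hW.conv hc (hsx ((hrng _).2 ⟨0, rfl⟩))
            (hsx ((hrng _).2 ⟨0 + 1, rfl⟩)) h0 h1).elim
    · rintro ⟨hx, hsx⟩
      exact ⟨hx, hsx.trans hsub⟩
  have hGW : GW d R {v | ∃ w ∈ W, d v w ≤ 1} = GW d R W := by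
    unfold GW
    rw [hset]
  refine ⟨{v | ∃ w ∈ W, d v w ≤ 1}, ?_, ?_⟩
  · rw [Set.ssubset_iff_of_subset hsub]
    obtain ⟨u, hu⟩ := (Set.ne_univ_iff_exists_notMem W).1 hne
    obtain ⟨p, hp, hgate⟩ := gate h hW.conv hW.ne u
    have hup : d u p ≠ 0 := by
      intro h0
      rw [(h.zero _ _).1 h0] at hu
      exact hu hp
    have hpu := h.symm p u
    obtain ⟨y, hy1, hy2⟩ := pt h p u 1 (by omega)
    refine ⟨y, ⟨p, hp, ?_⟩, ?_⟩
    · have := h.symm y p
      omega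
    · intro hyW
      have h1 := hgate y hyW
      unfold SXP.Btw at hy2
      have h2 := h.symm y u
      omega
  · refine ⟨hW.ne.mono hsub, nbhd_conv h hW.conv, ?_, ?_, ?_⟩
    · intro g hg w hw
      rw [hGW] at hg
      obtain ⟨w0, hw0, hd⟩ := hw
      exact ⟨g • w0, hW.p1 g hg w0 hw0, by rw [hC.iso]; exact hd⟩
    · intro g hg
      rw [hGW] at hg
      exact hW.p2 g hg
    · intro x hx
      by_cases hm : ∃ a, a ∈ Ax d x ∧ a ∈ W
      · exact Or.inl ((hmeet x hx hm).trans hsub)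
      · right
        intro a b ha haW hb hbW
        obtain ⟨c, τ, hc, htr, hrng, hτ⟩ := ax_line hC hx
        have hout : ∀ n, c n ∉ W := fun n hn => hm ⟨c n, (hrng _).2 ⟨n, rfl⟩, hn⟩
        obtain ⟨i, rfl⟩ := (hrng a).1 ha
        obtain ⟨j, rfl⟩ := (hrng b).1 hb
        have key : ∀ i j : ℤ, c i ∈ {v | ∃ w ∈ W, d v w ≤ 1} →
            c j ∈ {v | ∃ w ∈ W, d v w ≤ 1} → ¬ i < j := by
          intro i j hi hj hij
          have hbtw : Btw d (c i) (c (i + 1)) (c j) := by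
            unfold SXP.Btw
            have h1 := hc i (i + 1)
            have h2 := hc (i + 1) j
            have h3 := hc i j
            rw [show i - (i + 1) = -1 by ring, abs_neg, abs_one] at h1
            rw [abs_of_nonpos (by omega)] at h2 h3
            omega
          exact line_two h hW.conv hc hi (nbhd_conv h hW.conv _ hi _ hj _ hbtw) (hout _) (hout _)
        have h1 := key i j haW hbW
        have h2 := key j i hbW haW
        have h3 : i = j := by omega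
        rw [h3, (h.zero _ _).2 rfl]
        omega

end SXQ
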