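import Pool.Agent.SXQ.WChart


namespace SXQ

open SXP

variable {V G : Type*} [Group G] [MulAction G V] {d : V → V → ℕ} {R : Set G} {β κ : ℕ}

private theorem wz_mono {W W' : Set V} (h : W ⊆ W') : GW d R W ≤ GW d R W' :=
  Subgroup.closure_mono fun _ hx => ⟨hx.1, hx.2.trans h⟩

private theorem wz_big {C : Set (Set V)} (hch : IsChain (· ⊆ ·) C) {W W' : Set V} (hW : W ∈ C)
    (hW' : W' ∈ C) : ∃ W'' ∈ C, W ⊆ W'' ∧ W' ⊆ W'' := by
  rcases hch.total hW hW' with h | h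
  · exact ⟨W', hW', h, subset_rfl⟩
  · exact ⟨W, hW, subset_rfl, h⟩

private theorem wz_two {C : Set (Set V)} (hch : IsChain (· ⊆ ·) C) {a b : V} (ha : a ∈ ⋃₀ C)
    (hb : b ∈ ⋃₀ C) : ∃ W ∈ C, a ∈ W ∧ b ∈ W := by
  obtain ⟨W, hW, haW⟩ := ha
  obtain ⟨W', hW', hbW⟩ := hb
  obtain ⟨W'', hW'', h1, h2⟩ := wz_big hch hW hW'
  exact ⟨W'', hW'', h1 haW, h2 hbW⟩

private theorem wz_ax (hC : Ctx d R β κ) [Nonempty V] {C : Set (Set V)} (hch : IsChain (· ⊆ ·) C)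
    (hall : ∀ W ∈ C, WM d R β W) {x : G} (hx : x ∈ R) (hU : Ax d x ⊆ ⋃₀ C) :
    ∃ W ∈ C, Ax d x ⊆ W := by
  obtain ⟨c, τ, hc, _, hrng, _⟩ := ax_line hC hx
  have h0 : c 0 ∈ Ax d x := (hrng _).mpr ⟨0, rfl⟩
  have h3 : c 3 ∈ Ax d x := (hrng _).mpr ⟨3, rfl⟩
  obtain ⟨W, hW, hW0, hW3⟩ := wz_two hch (hU h0) (hU h3)
  refine ⟨W, hW, ?_⟩
  rcases (hall W hW).p3 x hx with h | h
  · exact h
  · exfalso
    have h1 := h _ _ h0 hW0 h3 hW3
    have h2 := hc 0 3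
    norm_num at h2
    have := hC.hβ
    omega

private theorem wz_gw (hC : Ctx d R β κ) [Nonempty V] {C : Set (Set V)} (hch : IsChain (· ⊆ ·) C)
    (hne : C.Nonempty) (hall : ∀ W ∈ C, WM d R β W) {g : G} (hg : g ∈ GW d R (⋃₀ C)) :
    ∃ W ∈ C, g ∈ GW d R W := by
  unfold GW at hg
  induction hg using Subgroup.closure_induction with
  | mem x hx =>
    obtain ⟨W, hW, h⟩ := wz_ax hC hch hall hx.1 hx.2
    exact ⟨W, hW, Subgroup.subset_closure ⟨hx.1, h⟩⟩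
  | one =>
    obtain ⟨W, hW⟩ := hne
    exact ⟨W, hW, Subgroup.one_mem _⟩
  | mul x y _ _ hx hy =>
    obtain ⟨W, hW, h⟩ := hx
    obtain ⟨W', hW', h'⟩ := hy
    obtain ⟨W'', hW'', h1, h2⟩ := wz_big hch hW hW'
    exact ⟨W'', hW'', Subgroup.mul_mem _ (wz_mono h1 h) (wz_mono h2 h')⟩
  | inv x _ hx =>
    obtain ⟨W, hW, h⟩ := hx
    exact ⟨W, hW, Subgroup.inv_mem _ h⟩

theorem chain_wm (hC : Ctx d R β κ) [Nonempty V] (C : Set (Set V)) (hch : IsChain (· ⊆ ·) C)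
    (hne : C.Nonempty) (hall : ∀ W ∈ C, WM d R β W) : WM d R β (⋃₀ C) := by
  refine ⟨?_, ?_, ?_, ?_, ?_⟩
  · obtain ⟨W, hW⟩ := hne
    obtain ⟨w, hw⟩ := (hall W hW).ne
    exact ⟨w, W, hW, hw⟩
  · intro x hx z hz y hy
    obtain ⟨W, hW, h1, h2⟩ := wz_two hch hx hz
    exact ⟨W, hW, (hall W hW).conv x h1 z h2 y hy⟩
  · intro g hg w hw
    obtain ⟨W, hW, h⟩ := wz_gw hC hch hne hall hg
    obtain ⟨W', hW', h'⟩ := hw
    obtain ⟨W'', hW'', h1, h2⟩ := wz_big hch hW hW'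
    exact ⟨W'', hW'', (hall W'' hW'').p1 g (wz_mono h1 h) w (h2 h')⟩
  · intro g hg hg1 v
    obtain ⟨W, hW, h⟩ := wz_gw hC hch hne hall hg
    exact (hall W hW).p2 g h hg1 v
  · intro x hx
    by_cases h : Ax d x ⊆ ⋃₀ C
    · exact Or.inl h
    · refine Or.inr fun a b ha haU hb hbU => ?_
      obtain ⟨W, hW, h1, h2⟩ := wz_two hch haU hbU
      rcases (hall W hW).p3 x hx with h' | h'
      · exact absurd (h'.trans (Set.subset_sUnion_of_mem hW)) h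
      · exact h' a b ha h1 hb h2

theorem single_wm (hC : Ctx d R β κ) (v : V) : WM d R β {v} := by
  have : Nonempty V := ⟨v⟩
  have hdv : d v v = 0 := (hC.tm.zero v v).mpr rfl
  have hg : ∀ g ∈ GW d R {v}, g = 1 := by
    intro g hg
    have h0 : {x | x ∈ R ∧ Ax d x ⊆ ({v} : Set V)} = ∅ := by
      ext x
      simp only [Set.mem_ofPred_eq, Set.mem_empty_iff_false, iff_false]
      rintro ⟨hx, hax⟩
      obtain ⟨c, τ, hc, _, hrng, _⟩ := ax_line hC hx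
      have h0 : c 0 = v := hax ((hrng _).mpr ⟨0, rfl⟩)
      have h1 : c 1 = v := hax ((hrng _).mpr ⟨1, rfl⟩)
      have h2 := hc 0 1
      rw [h0, h1, hdv] at h2
      norm_num at h2
    unfold GW at hg
    rw [h0, Subgroup.closure_empty, Subgroup.mem_bot] at hg
    exact hg
  refine ⟨⟨v, rfl⟩, ?_, ?_, ?_, ?_⟩
  · intro x hx z hz y hy
    rw [Set.mem_singleton_iff] at hx hz
    subst hx
    subst hz
    unfold SXP.Btw at hy
    rw [hdv] at hy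
    have h1 : d z y = 0 := by omega
    exact ((hC.tm.zero _ _).mp h1).symm
  · intro g hg' w hw
    rw [hg g hg', one_smul]
    exact hw
  · intro g hg' hg1
    exact absurd (hg g hg') hg1
  · intro x _
    refine Or.inr fun a b _ ha _ hb => ?_
    rw [Set.mem_singleton_iff] at ha hb
    rw [ha, hb, hdv]
    exact Nat.zero_le _

theorem zorn_wm (hC : Ctx d R β κ) [Nonempty V]
    (hstep : ∀ W, WM d R β W → W ≠ Set.univ → ∃ W', W ⊂ W' ∧ WM d R β W') :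
    WM d R β (Set.univ : Set V) := by
  obtain ⟨v⟩ := ‹Nonempty V›
  have : Nonempty V := ⟨v⟩
  obtain ⟨M, _, hM⟩ := zorn_subset_nonempty {W : Set V | WM d R β W}
    (fun C hCS hch hne => ⟨⋃₀ C, chain_wm hC C hch hne (fun W hW => hCS hW),
      fun s hs => Set.subset_sUnion_of_mem hs⟩) {v} (single_wm hC v)
  by_cases h : M = Set.univ
  · rw [← h]
    exact hM.prop
  · obtain ⟨W', hlt, hW'⟩ := hstep M hM.prop h
    exact absurd (hM.le_of_ge hW' hlt.subset) (fun hle => hlt.not_subset hle)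

end SXQ
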