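import Pool.Agent.SXP.XFree
import Pool.Agent.SXQ.Windmill

/-! Project SXQ: translation of the windmill theorem to wall spaces. -/

set_option linter.style.haveILetI false

namespace SXQ

open SXP

variable {X W G : Type*} [Group G] [MulAction G X] [MulAction G W] {sep : W → X → X → Prop}

/-- There is no triangle: no three walls crossed pairwise by three different elements of `R`. -/
def NoTriW (sep : W → X → X → Prop) (R : Set G) : Prop :=
  ∀ x ∈ R, ∀ y ∈ R, ∀ z ∈ R, x ≠ y → y ≠ z → x ≠ z → ∀ w₁ w₂ w₃ : W, w₁ ≠ w₂ → w₂ ≠ w₃ →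
    w₁ ≠ w₃ → Cross sep x w₁ → Cross sep x w₂ → Cross sep y w₂ → Cross sep y w₃ →
    Cross sep z w₃ → Cross sep z w₁ → False

private theorem adj_wall (hS : WS sep) {p q : X} (h : rd hS (reg hS p) (reg hS q) = 1) :
    ∃ w, sep w p q ∧ ∀ w', sep w' p q → w' = w := by
  rw [rd_reg] at h
  unfold ds at h
  rw [Set.ncard_eq_one] at h
  obtain ⟨w, hw⟩ := h
  refine ⟨w, ?_, fun w' hw' => ?_⟩
  · have : w ∈ {w | sep w p q} := by rw [hw]; rfl
    exact this
  · have : w' ∈ {w | sep w p q} := hw'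
    rw [hw] at this
    exact this

private theorem adj_ne (hS : WS sep) {p q r : X} {w w' : W} (h1 : sep w p q)
    (h1' : ∀ u, sep u p q → u = w) (h2 : sep w' p r) (h2' : ∀ u, sep u p r → u = w')
    (hne : reg hS q ≠ reg hS r) : w ≠ w' := by
  rintro rfl
  apply hne
  rw [reg_eq]
  intro u hu
  have h3 := hS.xor u q p r
  have h4 := hS.sym u p q
  by_cases hw : u = w
  · subst hw
    tauto
  · have a1 : ¬ sep u p q := fun h => hw (h1' u h)
    have a2 : ¬ sep u p r := fun h => hw (h2' u h)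
    tauto

theorem ws_free' (hS : WS sep)
    (heq : ∀ (g : G) w x y, sep (g • w) (g • x) (g • y) ↔ sep w x y) (R : Set G)
    (hconj : ∀ g : G, ∀ x ∈ R, g * x * g⁻¹ ∈ R)
    (halt : (∀ x ∈ R, ∀ p : X, 6 ≤ ds sep p (x • p)) ∨
      ((∀ x ∈ R, ∀ p : X, 4 ≤ ds sep p (x • p)) ∧ NoTriW sep R))
    (hov : ∀ x ∈ R, ∀ y ∈ R, x ≠ y → ∀ w w', w ≠ w' → Cross sep x w → Cross sep x w' →
      Cross sep y w → Cross sep y w' → False)
    {g : G} (hg : g ∈ Subgroup.closure R) (hg1 : g ≠ 1) (p : X) : ∃ w, sep w p (g • p) := by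
  rcases halt with h6 | ⟨h4, hnt⟩
  · exact ws_free hS heq R hconj h6 hov hg hg1 p
  letI := regAct hS heq
  have hsm : ∀ (g : G) (x : X), g • reg hS x = reg hS (g • x) := fun _ _ => rfl
  have hiso : ∀ (g : G) (u v : Reg hS), rd hS (g • u) (g • v) = rd hS u v := by
    intro g u v
    obtain ⟨x, rfl⟩ := reg_surj hS u
    obtain ⟨y, rfl⟩ := reg_surj hS v
    rw [hsm, hsm, rd_reg, rd_reg]
    exact ds_smul hS heq g x y
  haveI : Nonempty (Reg hS) := ⟨reg hS p⟩
  have hsix' : ∀ x ∈ R, ∀ v : Reg hS, 4 ≤ rd hS v (x • v) := by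
    intro x hx v
    obtain ⟨y, rfl⟩ := reg_surj hS v
    rw [hsm, rd_reg]
    exact h4 x hx y
  have hcr : ∀ x ∈ R, ∀ p q : X, reg hS p ∈ Ax (rd hS) x → reg hS q ∈ Ax (rd hS) x →
      ∀ w, sep w p q → Cross sep x w := by
    intro x hx p q hp hq w hw
    exact cross_of_ax hS heq (fun v => le_trans (by norm_num) (h4 x hx v)) hp hq hw
  have hC : Ctx (rd hS) R 1 3 :=
    { tm := reg_tm hS
      iso := hiso
      conj := hconj
      six := hsix'
      ov := by
        intro x hx y hy hxy a b ha1 ha2 hb1 hb2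
        by_contra hcon
        push Not at hcon
        obtain ⟨p, rfl⟩ := reg_surj hS a
        obtain ⟨q, rfl⟩ := reg_surj hS b
        rw [rd_reg] at hcon
        unfold ds at hcon
        rw [Set.one_lt_ncard (hS.fin p q)] at hcon
        obtain ⟨w, hw, w', hw', hne⟩ := hcon
        exact hov x hx y hy hxy w w' hne (hcr x hx p q ha1 hb1 w hw)
          (hcr x hx p q ha1 hb1 w' hw') (hcr y hy p q ha2 hb2 w hw) (hcr y hy p q ha2 hb2 w' hw')
      alt := by
        refine Or.inr ⟨rfl, rfl, ?_⟩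
        intro x hx y hy z hz hxy hyz hxz v a b c hva hvb hvc hab hbc hac hvx hvy hvz hax hbx hby
          hcy hcz haz
        obtain ⟨pv, rfl⟩ := reg_surj hS v
        obtain ⟨pa, rfl⟩ := reg_surj hS a
        obtain ⟨pb, rfl⟩ := reg_surj hS b
        obtain ⟨pc, rfl⟩ := reg_surj hS c
        obtain ⟨wa, ha1, ha2⟩ := adj_wall hS hva
        obtain ⟨wb, hb1, hb2⟩ := adj_wall hS hvb
        obtain ⟨wc, hc1, hc2⟩ := adj_wall hS hvc
        exact hnt x hx y hy z hz hxy hyz hxz wa wb wc (adj_ne hS ha1 ha2 hb1 hb2 hab)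
          (adj_ne hS hb1 hb2 hc1 hc2 hbc) (adj_ne hS ha1 ha2 hc1 hc2 hac)
          (hcr x hx pv pa hvx hax wa ha1) (hcr x hx pv pb hvx hbx wb hb1)
          (hcr y hy pv pb hvy hby wb hb1) (hcr y hy pv pc hvy hcy wc hc1)
          (hcr z hz pv pc hvz hcz wc hc1) (hcr z hz pv pa hvz haz wa ha1) }
  have h1 := windmill hC hg hg1 (reg hS p)
  by_contra hcon
  push Not at hcon
  apply h1
  rw [hsm]
  exact ((reg_eq hS).2 hcon).symm

end SXQ
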