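import Pool.Agent.SXQ.SLq

/-!
# SXQ-AltQ: representations of alternating groups of small degree are trivial
-/

set_option autoImplicit false

namespace Pool.Agent.SXQ

section core

variable {p : ℕ} [Fact p.Prime] {A : Type*} [Group A] {u : A}

private theorem pow_eigA {V : Type*} [AddCommGroup V] [Module ℂ V] (T : Module.End ℂ V) {v : V} {ζ : ℂ}
    (h : T v = ζ • v) (n : ℕ) : (T ^ n) v = ζ ^ n • v := by
  induction n with
  | zero => simp
  | succ n ih => rw [pow_succ', Module.End.mul_apply, ih, map_smul, h, smul_smul, pow_succ]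

private theorem eig_oneA (hu : u ^ p = 1)
    (hc : ∀ a : ZMod p, a ≠ 0 → ∃ s : A, s * u * s⁻¹ = u ^ (a ^ 2).val) {d : ℕ}
    (hd : d < (p - 1) / 2)
    (φ : A →* Module.End ℂ (Fin d → ℂ)) {v : Fin d → ℂ}
    (hv : v ≠ 0) {ζ : ℂ} (h : φ u v = ζ • v) : ζ = 1 := by
  have hpp : p.Prime := Fact.out
  have hTp : φ u ^ p = 1 := by
    rw [← map_pow, hu, map_one]
  have hζ : ζ ^ p = 1 := by
    have h1 := pow_eigA _ h p
    rw [hTp, Module.End.one_apply] at h1
    have h2 : (ζ ^ p - 1) • v = 0 := by rw [sub_smul, ← h1, one_smul, sub_self]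
    rcases smul_eq_zero.mp h2 with h3 | h3
    · exact sub_eq_zero.mp h3
    · exact absurd h3 hv
  by_contra hne
  have hord : orderOf ζ = p := orderOf_eq_prime hζ hne
  have hinj : ∀ x y : ZMod p, ζ ^ x.val = ζ ^ y.val → x = y := by
    intro x y hxy
    have := pow_injOn_Iio_orderOf (x := ζ) (by simpa [hord] using ZMod.val_lt x)
      (by simpa [hord] using ZMod.val_lt y) hxy
    exact ZMod.val_injective p this
  have hunit : ∀ i : Fin ((p - 1) / 2), ((i.1 + 1 : ℕ) : ZMod p) ≠ 0 := by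
    intro i hi
    rw [ZMod.natCast_eq_zero_iff] at hi
    have h1 := Nat.le_of_dvd (Nat.succ_pos _) hi
    have h2 := i.2
    omega
  have hμ : Function.Injective (fun i : Fin ((p - 1) / 2) =>
      ζ ^ (((i.1 + 1 : ℕ) : ZMod p) ^ 2).val) := by
    intro i j hij
    have h1 := hinj _ _ hij
    have h2 : (((i.1 + 1 : ℕ) : ZMod p) - ((j.1 + 1 : ℕ) : ZMod p)) *
        (((i.1 + 1 : ℕ) : ZMod p) + ((j.1 + 1 : ℕ) : ZMod p)) = 0 := by linear_combination h1
    have hi := i.2
    have hj := j.2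
    rcases mul_eq_zero.mp h2 with h3 | h3
    · have h4 : ((i.1 + 1 : ℕ) : ZMod p) = ((j.1 + 1 : ℕ) : ZMod p) := sub_eq_zero.mp h3
      rw [ZMod.natCast_eq_natCast_iff'] at h4
      rw [Nat.mod_eq_of_lt (by omega), Nat.mod_eq_of_lt (by omega)] at h4
      exact Fin.ext (by omega)
    · exfalso
      rw [← Nat.cast_add, ZMod.natCast_eq_zero_iff] at h3
      have := Nat.le_of_dvd (by omega) h3
      omega
  choose s hs using fun i : Fin ((p - 1) / 2) => hc _ (hunit i)
  have hw : ∀ i : Fin ((p - 1) / 2), (φ u).HasEigenvector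
      (ζ ^ (((i.1 + 1 : ℕ) : ZMod p) ^ 2).val) (φ (s i)⁻¹ v) := by
    intro i
    refine ⟨?_, ?_⟩
    · rw [Module.End.mem_eigenspace_iff]
      have e1 : u * (s i)⁻¹ = (s i)⁻¹ * u ^ (((i.1 + 1 : ℕ) : ZMod p) ^ 2).val := by
        rw [← hs i]
        group
      rw [← Module.End.mul_apply, ← map_mul, e1, map_mul, Module.End.mul_apply]
      rw [map_pow, pow_eigA _ h, map_smul]
    · intro h0
      apply hv
      have : φ (s i) (φ (s i)⁻¹ v) = v := by
        rw [← Module.End.mul_apply, ← map_mul, mul_inv_cancel, map_one, Module.End.one_apply]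
      rw [← this, h0, map_zero]
  have hli := Module.End.eigenvectors_linearIndependent' (φ u) _ hμ _ hw
  have := hli.fintype_card_le_finrank
  rw [Fintype.card_fin, Module.finrank_fin_fun] at this
  omega

private theorem phi_oneA (hu : u ^ p = 1)
    (hc : ∀ a : ZMod p, a ≠ 0 → ∃ s : A, s * u * s⁻¹ = u ^ (a ^ 2).val) {d : ℕ}
    (hd : d < (p - 1) / 2)
    (φ : A →* Module.End ℂ (Fin d → ℂ)) : φ u = 1 := by
  have hpp : p.Prime := Fact.out
  set T := φ u with hT
  have hTp : T ^ p = 1 := by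
    rw [hT, ← map_pow, hu, map_one]
  let Q : Module.End ℂ (Fin d → ℂ) := ∑ i ∈ Finset.range p, T ^ i
  have hcomm : Commute T Q := Commute.sum_right _ _ _ (fun i _ => (Commute.refl T).pow_right i)
  have hQ : (T - 1) * Q = 0 := by
    have := mul_geom_sum T p
    rw [hTp, sub_self] at this
    exact this
  have hker : LinearMap.ker Q = ⊥ := by
    by_contra hK
    have hinv : ∀ x ∈ LinearMap.ker Q, T x ∈ LinearMap.ker Q := by
      intro x hx
      rw [LinearMap.mem_ker] at hx ⊢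
      rw [← Module.End.mul_apply, ← hcomm.eq, Module.End.mul_apply, hx, map_zero]
    have : Nontrivial (LinearMap.ker Q) := Submodule.nontrivial_iff_ne_bot.mpr hK
    obtain ⟨μ, hμ⟩ := Module.End.exists_eigenvalue (T.restrict hinv)
    obtain ⟨w, hw⟩ := hμ.exists_hasEigenvector
    have hw0 : (w : Fin d → ℂ) ≠ 0 := fun h0 => hw.2 (Subtype.ext h0)
    have hTw : T (w : Fin d → ℂ) = μ • (w : Fin d → ℂ) := by
      have := congrArg Subtype.val hw.apply_eq_smul
      simpa using this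
    have h1 : μ = 1 := eig_oneA hu hc hd φ hw0 hTw
    have h2 : Q (w : Fin d → ℂ) = (p : ℂ) • (w : Fin d → ℂ) := by
      change (∑ i ∈ Finset.range p, T ^ i) (w : Fin d → ℂ) = _
      rw [LinearMap.sum_apply, Finset.sum_congr rfl (fun i _ => pow_eigA T hTw i), h1]
      rw [← Finset.sum_smul]
      simp
    have h3 : Q (w : Fin d → ℂ) = 0 := w.2
    rw [h2] at h3
    rcases smul_eq_zero.mp h3 with h4 | h4
    · exact hpp.ne_zero (by exact_mod_cast h4)
    · exact hw0 h4
  have hsurj : Function.Surjective Q :=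
    LinearMap.surjective_of_injective (LinearMap.ker_eq_bot.mp hker)
  have : T - 1 = 0 := by
    ext1 i
    refine LinearMap.ext (fun c => ?_)
    obtain ⟨y, hy⟩ := hsurj (LinearMap.single ℂ (fun _ => ℂ) i c)
    rw [LinearMap.comp_apply, ← hy, ← Module.End.mul_apply, hQ]
    rfl
  exact sub_eq_zero.mp this

end core

theorem prime_rep {A : Type*} [Group A] {p : ℕ} [Fact p.Prime] {u : A} (hu : u ^ p = 1)
    (hc : ∀ a : ZMod p, a ≠ 0 → ∃ s : A, s * u * s⁻¹ = u ^ (a ^ 2).val) {d : ℕ}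
    (hd : d < (p - 1) / 2) (ρ : A →* Matrix.GeneralLinearGroup (Fin d) ℝ) : ρ u = 1 := by
  have hinj : ∀ A B : Matrix (Fin d) (Fin d) ℝ,
      A.map (algebraMap ℝ ℂ) = B.map (algebraMap ℝ ℂ) → A = B := by
    intro A B h
    ext i j
    have := congrFun (congrFun h i) j
    simpa using this
  let F : Matrix (Fin d) (Fin d) ℝ →* Module.End ℂ (Fin d → ℂ) :=
    (Matrix.toLinAlgEquiv' (R := ℂ) (n := Fin d) :
      Matrix (Fin d) (Fin d) ℂ →* Module.End ℂ (Fin d → ℂ)).comp
      ((algebraMap ℝ ℂ).mapMatrix :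
        Matrix (Fin d) (Fin d) ℝ →+* Matrix (Fin d) (Fin d) ℂ).toMonoidHom
  have hF : ∀ A, F A = 1 → A = 1 := by
    intro A hA
    have h1 : Matrix.toLinAlgEquiv' (R := ℂ) (n := Fin d) (A.map (algebraMap ℝ ℂ)) =
        Matrix.toLinAlgEquiv' (R := ℂ) (n := Fin d) 1 := by
      rw [map_one]; exact hA
    have h2 := Matrix.toLinAlgEquiv'.injective h1
    apply hinj
    rw [h2]
    ext i j
    by_cases hij : i = j <;> simp [Matrix.one_apply, hij]
  let φ : A →* Module.End ℂ (Fin d → ℂ) := F.comp ((Units.coeHom _).comp ρ)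
  have := phi_oneA hu hc hd φ
  exact Units.ext (hF _ this)

theorem qr_alt {m p : ℕ} (hm : 5 ≤ m) (hp : p.Prime) (hp2 : p ≠ 2) (hpm : p ≤ m) :
    QR (alternatingGroup (Fin m)) ((p - 1) / 2) := by
  intro d hd ρ g
  have : Fact p.Prime := ⟨hp⟩
  obtain ⟨e⟩ : Nonempty (ZMod p ↪ Fin m) :=
    Function.Embedding.nonempty_of_card_le (by rw [ZMod.card, Fintype.card_fin]; exact hpm)
  let j : Equiv.Perm (ZMod p) →* Equiv.Perm (Fin m) := Equiv.Perm.viaEmbeddingHom e
  have hj : Function.Injective j := Equiv.Perm.viaEmbeddingHom_injective e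
  have hpow : ∀ k : ℕ, (Equiv.addRight (1 : ZMod p)) ^ k = Equiv.addRight (k : ZMod p) := by
    intro k
    induction k with
    | zero => ext x; simp
    | succ k ih =>
      rw [pow_succ, ih]
      ext x
      simp only [Equiv.Perm.coe_mul, Function.comp_apply, Equiv.coe_addRight, Nat.cast_succ]
      rw [add_assoc, add_comm 1 (k : ZMod p)]
  have hodd : Odd p := hp.odd_of_ne_two hp2
  have hjp : j (Equiv.addRight (1 : ZMod p)) ^ p = 1 := by
    rw [← map_pow, hpow, ZMod.natCast_self]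
    have : (Equiv.addRight (0 : ZMod p)) = 1 := by ext x; simp
    rw [this, map_one]
  have hsgn : Equiv.Perm.sign (j (Equiv.addRight (1 : ZMod p))) = 1 := by
    rcases Int.units_eq_one_or (Equiv.Perm.sign (j (Equiv.addRight (1 : ZMod p)))) with h | h
    · exact h
    · exfalso
      have h1 : Equiv.Perm.sign (j (Equiv.addRight (1 : ZMod p)) ^ p) = 1 := by
        rw [hjp, map_one]
      rw [map_pow, h, hodd.neg_one_pow] at h1
      exact absurd h1 (by decide)
  let u : alternatingGroup (Fin m) :=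
    ⟨j (Equiv.addRight (1 : ZMod p)), Equiv.Perm.mem_alternatingGroup.mpr hsgn⟩
  have hu : u ^ p = 1 := Subtype.ext hjp
  have hc : ∀ a : ZMod p, a ≠ 0 → ∃ s : alternatingGroup (Fin m),
      s * u * s⁻¹ = u ^ (a ^ 2).val := by
    intro a ha
    let r : Equiv.Perm (ZMod p) := Equiv.mulLeft₀ a ha
    have hs : Equiv.Perm.sign (j r ^ 2) = 1 := by
      rw [map_pow, Int.units_sq]
    refine ⟨⟨j r ^ 2, Equiv.Perm.mem_alternatingGroup.mpr hs⟩, ?_⟩
    apply Subtype.ext
    change j r ^ 2 * j (Equiv.addRight (1 : ZMod p)) * (j r ^ 2)⁻¹ =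
      j (Equiv.addRight (1 : ZMod p)) ^ (a ^ 2).val
    rw [← map_pow, ← map_pow, ← map_mul, ← map_inv, ← map_mul, hpow, ZMod.natCast_zmod_val]
    congr 1
    rw [mul_inv_eq_iff_eq_mul]
    ext x
    simp only [Equiv.Perm.coe_mul, Function.comp_apply, Equiv.coe_addRight, pow_two]
    change a * (a * (x + 1)) = a * (a * x) + a * a
    ring
  have hρ : ρ u = 1 := prime_rep hu hc hd ρ
  have hu1 : u ≠ 1 := by
    intro h
    have h1 : j (Equiv.addRight (1 : ZMod p)) = 1 := congrArg Subtype.val h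
    rw [← map_one j] at h1
    have h2 := hj h1
    have h3 := congrArg (fun f : Equiv.Perm (ZMod p) => f 0) h2
    simp at h3
  have : IsSimpleGroup (alternatingGroup (Fin m)) :=
    alternatingGroup.isSimpleGroup (by rw [Nat.card_eq_fintype_card, Fintype.card_fin]; exact hm)
  rcases IsSimpleGroup.eq_bot_or_eq_top_of_normal ρ.ker inferInstance with h | h
  · exfalso
    apply hu1
    have : u ∈ ρ.ker := hρ
    rw [h] at this
    exact this
  · have : g ∈ ρ.ker := by rw [h]; trivial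
    exact this

theorem alt_bound {m : ℕ} (hm : 5 ≤ m) : ∃ D : ℕ, 1 ≤ D ∧ QR (alternatingGroup (Fin m)) D ∧
    (4 / D : ℝ) ^ (1 / 3 : ℝ) ≤ 3 * (m : ℝ) ^ (-(1 / 3) : ℝ) := by
  obtain ⟨p, hp, h1, h2⟩ := Nat.exists_prime_lt_and_le_two_mul (m / 2) (by omega)
  have hp2 : p ≠ 2 := by omega
  have hodd : p % 2 = 1 := Nat.odd_iff.mp (hp.odd_of_ne_two hp2)
  refine ⟨(p - 1) / 2, by omega, qr_alt hm hp hp2 (by omega), ?_⟩
  have hD : m ≤ 4 * ((p - 1) / 2) + 1 := by omega
  have hD1 : 1 ≤ (p - 1) / 2 := by omega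
  generalize (p - 1) / 2 = D at hD hD1
  have hDR : (m : ℝ) ≤ 4 * D + 1 := by exact_mod_cast hD
  have hmR : (5 : ℝ) ≤ m := by exact_mod_cast hm
  have hD1R : (1 : ℝ) ≤ D := by exact_mod_cast hD1
  have h3 : (4 / D : ℝ) ≤ 27 / m := by
    rw [div_le_div_iff₀ (by linarith) (by linarith)]
    linarith
  calc (4 / D : ℝ) ^ (1 / 3 : ℝ) ≤ (27 / m : ℝ) ^ (1 / 3 : ℝ) :=
        Real.rpow_le_rpow (by positivity) h3 (by norm_num)
    _ = 3 * (m : ℝ) ^ (-(1 / 3) : ℝ) := by
      rw [Real.div_rpow (by norm_num) (by linarith), Real.rpow_neg (by linarith), div_eq_mul_inv]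
      congr 1
      have : (27 : ℝ) = 3 ^ (3 : ℝ) := by norm_num
      rw [this, ← Real.rpow_mul (by norm_num)]
      norm_num

end Pool.Agent.SXQ
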