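import Pool.Agent.SXQ.Defs

/-!
# SXQ-Sh: the shadow of a (6,3)-free 3-graph

`nb H v` is the set of the neighbours of `v` in the shadow graph (`u ≠ v` and some edge contains both).
-/

set_option autoImplicit false

namespace Pool.Agent.SXQ

open Finset Pool.Agent.RSV Pool.Agent.SXS

variable {V : Type*} [Fintype V] [DecidableEq V]

private theorem mem_nb' (H : Finset (Finset V)) (x y : V) :
    y ∈ nb H x ↔ y ≠ x ∧ ∃ e ∈ H, y ∈ e ∧ x ∈ e := by
  simp [nb]

theorem mem_nb_comm (H : Finset (Finset V)) (x y : V) : y ∈ nb H x ↔ x ∈ nb H y := by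
  rw [mem_nb', mem_nb']
  constructor
  · rintro ⟨h, e, he, h1, h2⟩
    exact ⟨h.symm, e, he, h2, h1⟩
  · rintro ⟨h, e, he, h1, h2⟩
    exact ⟨h.symm, e, he, h2, h1⟩

omit [Fintype V] in
private theorem eq_tri {e : Finset V} (h : e.card = 3) {x y z : V} (hxy : x ≠ y) (hyz : y ≠ z) (hxz : x ≠ z)
    (h1 : x ∈ e) (h2 : y ∈ e) (h3 : z ∈ e) : ({x, y, z} : Finset V) = e := by
  apply eq_of_subset_of_card_le
  · intro w hw
    simp only [mem_insert, mem_singleton] at hw
    rcases hw with rfl | rfl | rfl <;> assumption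
  · rw [h, card_eq_three.2 ⟨x, y, z, hxy, hxz, hyz, rfl⟩]

omit [Fintype V] in
private theorem diff_card {e : Finset V} (h : e.card = 3) {x y : V} (hxy : x ≠ y) (h1 : x ∈ e) (h2 : y ∈ e) :
    (e \ {x, y}).card ≤ 1 := by
  have h3 : ({x, y} : Finset V) ⊆ e := by
    intro w hw
    simp only [mem_insert, mem_singleton] at hw
    rcases hw with rfl | rfl <;> assumption
  rw [card_sdiff_of_subset h3, h, card_pair hxy]

/-- every triangle of the shadow is an edge: if the three pairs are covered by `e ∋ x, y`, `f ∋ y, z`, `g ∋ x, z`,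
and `e, f, g` are different then `e ∪ f ∪ g` has at most 6 elements (each edge has one more vertex, or the sets
coincide with `{x, y, z}`); if two are equal then this edge is `{x, y, z}`. -/
theorem tri_mem {H : Finset (Finset V)} (h3 : Three H) (hN : NoTri H) {x y z : V} (h1 : y ∈ nb H x)
    (h2 : z ∈ nb H y) (h4 : z ∈ nb H x) : ({x, y, z} : Finset V) ∈ H := by
  rw [mem_nb'] at h1 h2 h4
  obtain ⟨hyx, e, he, hye, hxe⟩ := h1
  obtain ⟨hzy, f, hf, hzf, hyf⟩ := h2
  obtain ⟨hzx, g, hg, hzg, hxg⟩ := h4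
  by_cases hef : e = f
  · subst hef
    rw [eq_tri (h3 e he) hyx.symm hzy.symm hzx.symm hxe hye hzf]
    exact he
  by_cases hfg : f = g
  · subst hfg
    rw [eq_tri (h3 f hf) hyx.symm hzy.symm hzx.symm hxg hyf hzf]
    exact hf
  by_cases heg : e = g
  · subst heg
    rw [eq_tri (h3 e he) hyx.symm hzy.symm hzx.symm hxe hye hzg]
    exact he
  exfalso
  have h5 := hN e he f hf g hg hef hfg heg
  have h6 : e ∪ f ∪ g ⊆ ({x, y, z} : Finset V) ∪ (e \ {x, y}) ∪ (f \ {y, z}) ∪ (g \ {x, z}) := by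
    intro w hw
    simp only [mem_union, mem_sdiff, mem_insert, mem_singleton] at hw ⊢
    tauto
  have h7 := card_le_card h6
  have u1 := card_union_le (({x, y, z} : Finset V) ∪ (e \ {x, y}) ∪ (f \ {y, z})) (g \ {x, z})
  have u2 := card_union_le (({x, y, z} : Finset V) ∪ (e \ {x, y})) (f \ {y, z})
  have u3 := card_union_le ({x, y, z} : Finset V) (e \ {x, y})
  have u4 : ({x, y, z} : Finset V).card ≤ 3 := card_le_three
  have u5 := diff_card (h3 e he) hyx.symm hxe hye
  have u6 := diff_card (h3 f hf) hzy.symm hyf hzf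
  have u7 := diff_card (h3 g hg) hzx.symm hxg hzg
  omega

omit [Fintype V] in
private theorem pair_le' {H : Finset (Finset V)} (h3 : Three H) (hN : NoTri H) {x y : V} (hxy : x ≠ y) :
    (H.filter fun e => x ∈ e ∧ y ∈ e).card ≤ 2 := by
  by_contra hcon
  rw [not_le, two_lt_card] at hcon
  obtain ⟨e, he, f, hf, g, hg, hef, heg, hfg⟩ := hcon
  rw [mem_filter] at he hf hg
  have h5 := hN e he.1 f hf.1 g hg.1 hef hfg heg
  have h6 : e ∪ f ∪ g ⊆ ({x, y} : Finset V) ∪ (e \ {x, y}) ∪ (f \ {x, y}) ∪ (g \ {x, y}) := by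
    intro w hw
    simp only [mem_union, mem_sdiff, mem_insert, mem_singleton] at hw ⊢
    tauto
  have h7 := card_le_card h6
  have u1 := card_union_le (({x, y} : Finset V) ∪ (e \ {x, y}) ∪ (f \ {x, y})) (g \ {x, y})
  have u2 := card_union_le (({x, y} : Finset V) ∪ (e \ {x, y})) (f \ {x, y})
  have u3 := card_union_le ({x, y} : Finset V) (e \ {x, y})
  have u4 : ({x, y} : Finset V).card ≤ 2 := card_le_two
  have u5 := diff_card (h3 e he.1) hxy he.2.1 he.2.2
  have u6 := diff_card (h3 f hf.1) hxy hf.2.1 hf.2.2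
  have u7 := diff_card (h3 g hg.1) hxy hg.2.1 hg.2.2
  omega

/-- at most two edges contain a given pair (three different edges which contain `x ≠ y` have together at most
5 elements); the edges are `{x, y, z}` with `z` as below. -/
theorem cod_le {H : Finset (Finset V)} (h3 : Three H) (hN : NoTri H) {x y : V} (h1 : y ∈ nb H x) :
    (univ.filter fun z => z ∈ nb H y ∧ z ∈ nb H x).card ≤ 2 := by
  have hyx : y ≠ x := ((mem_nb' H x y).1 h1).1
  refine le_trans (card_le_card_of_injOn (fun z => ({x, y, z} : Finset V)) ?_ ?_)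
    (pair_le' h3 hN hyx.symm)
  · intro z hz
    rw [mem_coe, mem_filter] at hz
    rw [mem_coe, mem_filter]
    exact ⟨tri_mem h3 hN h1 hz.2.1 hz.2.2, by simp, by simp⟩
  · intro z hz w hw hzw
    rw [mem_coe, mem_filter] at hz hw
    have a1 := ((mem_nb' H y z).1 hz.2.1).1
    have a2 := ((mem_nb' H x z).1 hz.2.2).1
    have h5 : z ∈ ({x, y, w} : Finset V) := by
      have h6 : z ∈ ({x, y, z} : Finset V) := by simp
      have hzw' : ({x, y, z} : Finset V) = {x, y, w} := hzw
      rwa [hzw'] at h6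
    simp only [mem_insert, mem_singleton] at h5
    rcases h5 with h5 | h5 | h5
    · exact absurd h5 a2
    · exact absurd h5 a1
    · exact h5

/-- the shadow is invariant under automorphisms -/
theorem nb_inv {A : Type*} [Group A] {H : Finset (Finset V)} {φ : A →* Equiv.Perm V}
    (hA : Auts H φ) (g : A) (x y : V) : φ g y ∈ nb H (φ g x) ↔ y ∈ nb H x := by
  have key : ∀ (k : A) (u v : V), v ∈ nb H u → φ k v ∈ nb H (φ k u) := by
    intro k u v h
    rw [mem_nb'] at h ⊢
    obtain ⟨h1, e, he, h2, h3⟩ := h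
    exact ⟨fun h => h1 ((φ k).injective h), e.image (φ k), hA k e he, mem_image_of_mem _ h2,
      mem_image_of_mem _ h3⟩
  constructor
  · intro h
    have h1 := key g⁻¹ _ _ h
    rw [← Equiv.Perm.mul_apply, ← Equiv.Perm.mul_apply, ← map_mul, inv_mul_cancel, map_one,
      Equiv.Perm.one_apply, Equiv.Perm.one_apply] at h1
    exact h1
  · exact key g x y

/-- at most two edges contain a given pair -/
theorem pair_le {H : Finset (Finset V)} (h3 : Three H) (hN : NoTri H) {x y : V} (hxy : x ≠ y) :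
    (H.filter fun e => x ∈ e ∧ y ∈ e).card ≤ 2 := pair_le' h3 hN hxy

end Pool.Agent.SXQ
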