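import Pool.Agent.SXQ.Orb
import Pool.Agent.SXQ.Sh

/-!
# SXQ-Avg: there are few shadow pairs between orbits of small density

The pairs are grouped by the product of the orbits which contains them.
-/

set_option autoImplicit false

namespace Pool.Agent.SXQ

open Finset Pool.Agent.RSV Pool.Agent.SXS

theorem den_comm {V A : Type*} [Fintype V] [DecidableEq V] [Group A] (H : Finset (Finset V))
    (φ : A →* Equiv.Perm V) (x y : V) : den H φ x y = den H φ y x := by
  have h : (pr H φ x y).card = (pr H φ y x).card := by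
    refine Finset.card_bij' (fun w _ => (w.2, w.1)) (fun w _ => (w.2, w.1)) ?_ ?_ ?_ ?_
    · intro w hw
      rw [pr, mem_filter, mem_product] at hw ⊢
      exact ⟨⟨hw.1.2, hw.1.1⟩, (mem_nb_comm H _ _).1 hw.2⟩
    · intro w hw
      rw [pr, mem_filter, mem_product] at hw ⊢
      exact ⟨⟨hw.1.2, hw.1.1⟩, (mem_nb_comm H _ _).1 hw.2⟩
    · intro w _
      rfl
    · intro w _
      rfl
  unfold den
  rw [h, mul_comm ((orb φ x).card : ℝ)]

open Classical in
theorem avg {V A : Type*} [Fintype V] [DecidableEq V] [Group A] (H : Finset (Finset V))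
    (φ : A →* Equiv.Perm V) {η : ℝ} (hη : 0 ≤ η) :
    ((univ.filter fun w : V × V => w.2 ∈ nb H w.1 ∧ den H φ w.1 w.2 < η).card : ℝ) ≤
      η * (Fintype.card V : ℝ) ^ 2 := by
  set B := univ.filter fun w : V × V => w.2 ∈ nb H w.1 ∧ den H φ w.1 w.2 < η with hB
  set κ : V × V → Finset V × Finset V := fun w => (orb φ w.1, orb φ w.2) with hκ
  have h1 : B.card = ∑ b ∈ (univ : Finset (V × V)).image κ, (B.filter fun w => κ w = b).card :=
    card_eq_sum_card_fiberwise (fun w _ => mem_image_of_mem _ (mem_univ w))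
  have h2 : (univ : Finset (V × V)).card =
      ∑ b ∈ (univ : Finset (V × V)).image κ, (univ.filter fun w => κ w = b).card :=
    card_eq_sum_card_fiberwise (fun w _ => mem_image_of_mem _ (mem_univ w))
  have key : ∀ b, ((B.filter fun w => κ w = b).card : ℝ) ≤
      η * ((univ.filter fun w => κ w = b).card : ℝ) := by
    intro b
    rcases (B.filter fun w => κ w = b).eq_empty_or_nonempty with h0 | ⟨w, hw⟩
    · rw [h0, card_empty, Nat.cast_zero]
      positivity
    · rw [mem_filter, hB, mem_filter] at hw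
      obtain ⟨⟨-, -, hden⟩, rfl⟩ := hw
      have e1 : (B.filter fun v => κ v = κ w) ⊆ pr H φ w.1 w.2 := by
        intro v hv
        rw [mem_filter, hB, mem_filter, hκ, Prod.mk.injEq] at hv
        obtain ⟨⟨-, hn, -⟩, ho1, ho2⟩ := hv
        rw [pr, mem_filter, mem_product, ← ho1, ← ho2]
        exact ⟨⟨self_mem_orb φ _, self_mem_orb φ _⟩, hn⟩
      have e2 : (univ.filter fun v => κ v = κ w) = orb φ w.1 ×ˢ orb φ w.2 := by
        ext v
        rw [mem_filter, mem_product, hκ, Prod.mk.injEq]
        constructor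
        · rintro ⟨-, ho1, ho2⟩
          rw [← ho1, ← ho2]
          exact ⟨self_mem_orb φ _, self_mem_orb φ _⟩
        · rintro ⟨ho1, ho2⟩
          exact ⟨mem_univ _, orb_eq φ ho1, orb_eq φ ho2⟩
      have hc1 : (0 : ℝ) < ((orb φ w.1).card : ℝ) := by
        exact_mod_cast card_pos.2 ⟨_, self_mem_orb φ _⟩
      have hc2 : (0 : ℝ) < ((orb φ w.2).card : ℝ) := by
        exact_mod_cast card_pos.2 ⟨_, self_mem_orb φ _⟩
      have e3 : ((pr H φ w.1 w.2).card : ℝ) =
          den H φ w.1 w.2 * (((orb φ w.1).card : ℝ) * ((orb φ w.2).card : ℝ)) := by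
        unfold den
        rw [div_mul_cancel₀ _ (mul_pos hc1 hc2).ne']
      rw [e2, card_product]
      calc ((B.filter fun v => κ v = κ w).card : ℝ) ≤ ((pr H φ w.1 w.2).card : ℝ) := by
            exact_mod_cast card_le_card e1
        _ = den H φ w.1 w.2 * (((orb φ w.1).card : ℝ) * ((orb φ w.2).card : ℝ)) := e3
        _ ≤ η * (((orb φ w.1).card : ℝ) * ((orb φ w.2).card : ℝ)) :=
            mul_le_mul_of_nonneg_right hden.le (mul_pos hc1 hc2).le
        _ = _ := by push_cast; ring
  have h3 : (Fintype.card V : ℝ) ^ 2 = ((univ : Finset (V × V)).card : ℝ) := by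
    rw [card_univ, Fintype.card_prod]
    push_cast
    ring
  rw [h3, h1, h2]
  push_cast
  rw [mul_sum]
  exact sum_le_sum fun b _ => key b

end Pool.Agent.SXQ
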