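import Pool.Agent.SXQ.BldG
import Pool.Agent.SXS.Tr

/-! SXQ-BldH: from matchings to a 3-graph on `n` vertices with a free action. -/

set_option autoImplicit false

namespace Pool.Agent.SXQ

open Finset Pool.Agent.RSV Pool.Agent.SXS

/-- left multiplication of the first coordinate -/
private def bhAct (A : Type*) [Group A] (B : Type*) : A →* Equiv.Perm ((A × B) × Fin 3) :=
  MonoidHom.mk' (fun a =>
    { toFun := fun v => ((a * v.1.1, v.1.2), v.2)
      invFun := fun v => ((a⁻¹ * v.1.1, v.1.2), v.2)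
      left_inv := fun v => by
        refine Prod.ext (Prod.ext ?_ rfl) rfl
        show a⁻¹ * (a * v.1.1) = v.1.1
        exact inv_mul_cancel_left _ _
      right_inv := fun v => by
        refine Prod.ext (Prod.ext ?_ rfl) rfl
        show a * (a⁻¹ * v.1.1) = v.1.1
        exact mul_inv_cancel_left _ _ })
    (fun a b => by
      refine Equiv.ext fun v => Prod.ext (Prod.ext ?_ rfl) rfl
      show a * b * v.1.1 = a * (b * v.1.1)
      exact mul_assoc _ _ _)

private theorem bhAct_apply {A : Type*} [Group A] {B : Type*} (a : A) (v : (A × B) × Fin 3) :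
    bhAct A B a v = ((a * v.1.1, v.1.2), v.2) := rfl

private theorem bhMat {A : Type*} [Group A] [DecidableEq A] {M : ℕ}
    {S : Finset (A × A)} (hS : MatM S) {T : Finset (ZMod M × ZMod M)} (hT : Mat T) :
    ∃ U : Finset ((A × Multiplicative (ZMod M)) × (A × Multiplicative (ZMod M))),
      MatM U ∧ U.card = S.card * T.card := by
  classical
  obtain ⟨F, hF⟩ : ∃ F : (A × A) × (ZMod M × ZMod M) →
      (A × Multiplicative (ZMod M)) × (A × Multiplicative (ZMod M)),
      F = fun w => ((w.1.1, Multiplicative.ofAdd w.2.1), (w.1.2, Multiplicative.ofAdd w.2.2)) :=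
    ⟨_, rfl⟩
  have hinj : Function.Injective F := by
    intro w w' h
    rw [hF] at h
    have h1 := (Prod.mk.inj h).1
    have h2 := (Prod.mk.inj h).2
    have h3 := (Prod.mk.inj h1).1
    have h4 : w.2.1 = w'.2.1 := Multiplicative.ofAdd.injective (Prod.mk.inj h1).2
    have h5 := (Prod.mk.inj h2).1
    have h6 : w.2.2 = w'.2.2 := Multiplicative.ofAdd.injective (Prod.mk.inj h2).2
    exact Prod.ext (Prod.ext h3 h5) (Prod.ext h4 h6)
  refine ⟨(S ×ˢ T).image F, ?_, ?_⟩
  · intro a ha b hb c hc h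
    obtain ⟨a', ha', rfl⟩ := mem_image.1 ha
    obtain ⟨b', hb', rfl⟩ := mem_image.1 hb
    obtain ⟨c', hc', rfl⟩ := mem_image.1 hc
    rw [mem_product] at ha' hb' hc'
    rw [hF] at h
    have h1 : a'.1.1 * b'.1.2 = c'.1.1 * c'.1.2 := congrArg Prod.fst h
    have h2 : a'.2.1 + b'.2.2 = c'.2.1 + c'.2.2 :=
      Multiplicative.ofAdd.injective (congrArg Prod.snd h)
    obtain ⟨h3, h4⟩ := hS _ ha'.1 _ hb'.1 _ hc'.1 h1
    obtain ⟨h5, h6⟩ := hT _ ha'.2 _ hb'.2 _ hc'.2 h2
    exact ⟨congrArg F (Prod.ext h3 h5), congrArg F (Prod.ext h4 h6)⟩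
  · rw [card_image_of_injective _ hinj, card_product]

theorem buildM {A : Type*} [Group A] [Fintype A] [DecidableEq A] {M n : ℕ} [NeZero M]
    (hd : Fintype.card A ∣ n) (hn : 3 * (M * Fintype.card A) ≤ n) {S : Finset (A × A)}
    (hS : MatM S) {T : Finset (ZMod M × ZMod M)} (hT : Mat T) :
    ∃ (H : Finset (Finset (Fin n))) (φ : A →* Equiv.Perm (Fin n)),
      Three H ∧ SixThree H ∧ Auts H φ ∧ Free φ ∧
        H.card = M * Fintype.card A * (S.card * T.card) := by
  obtain ⟨U, hU, hUc⟩ := bhMat hS hT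
  have hc : Fintype.card ((A × Multiplicative (ZMod M)) × Fin 3) = 3 * (M * Fintype.card A) := by
    rw [Fintype.card_prod, Fintype.card_prod, Fintype.card_multiplicative, ZMod.card,
      Fintype.card_fin, mul_comm, mul_comm (Fintype.card A)]
  have hA : Auts (hypM U) (bhAct A (Multiplicative (ZMod M))) := by
    intro a e he
    have h1 : (fun v : (A × Multiplicative (ZMod M)) × Fin 3 => ((a, 1) * v.1, v.2)) =
        bhAct A (Multiplicative (ZMod M)) a := by
      refine funext fun v => ?_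
      rw [bhAct_apply]
      refine Prod.ext (Prod.ext rfl ?_) rfl
      exact one_mul _
    rw [← h1]
    exact hypM_inv U (a, 1) he
  have hF : Free (bhAct A (Multiplicative (ZMod M))) := by
    intro a ha v hv
    rw [bhAct_apply] at hv
    have h1 : a * v.1.1 = v.1.1 := congrArg (fun w => w.1.1) hv
    rw [mul_eq_right] at h1
    exact ha h1
  obtain ⟨H', ψ, h3, hN, hAut, hFree, hcard⟩ := transfer (A := A) (hypM_three U)
    (hypM_noTri hU) hA hF (n := n) (by rw [hc]; exact hn) (by
      rw [hc]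
      refine Nat.dvd_sub hd ?_
      exact ⟨3 * M, by ring⟩)
  refine ⟨H', ψ, h3, sixThree_of_noTri hN, hAut, hFree, ?_⟩
  rw [hcard, hypM_card, Fintype.card_prod, Fintype.card_multiplicative, ZMod.card, hUc,
    mul_comm (Fintype.card A)]

end Pool.Agent.SXQ
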