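import Pool.Agent.SXQ.Defs

/-!
# SXQ-Bor: the Borel subgroup of `SL₂(𝔽_p)`

Proof. `B 0 = ⊥`, `B 1` = the matrices `g` with `g 1 0 = 0` and `g 0 0 = 1` (then `g 1 1 = 1`), `B k` for `k ≥ 2` = the
matrices with `g 1 0 = 0` (upper triangular). `B 1` is cyclic: `t = !![1, 1; 0, 1]`, `g * t ^ k = 1` with
`k = - (g 0 1).val`. `B 1` is normal in `B 2`, and `g ↦ g 0 0` is a homomorphism of `B 2` to the cyclic group
`(ZMod p)ˣ` (`IsCyclic (ZMod p)ˣ`, generator `w`) with kernel `B 1`; take `t = !![w, 0; 0, w⁻¹]`.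
Index: for `g = !![a, b; c, d]` with `c ≠ 0` we have `g = !![1, a / c; 0, 1] * !![0, -1; 1, 0] * h` with `h` upper
triangular. So the group is the image of `Option (ZMod p) × B 2` under `(none, h) ↦ h`,
`(some s, h) ↦ !![1, s; 0, 1] * !![0, -1; 1, 0] * h`, hence `|SL₂| ≤ (p + 1) |B 2|`
(`Nat.card_le_card_of_surjective` or `Finite.card_le_of_surjective`).
-/

set_option autoImplicit false

namespace Pool.Agent.SXQ

open Matrix in
/-- the upper triangular matrices -/
private def bor_T (p : ℕ) [Fact p.Prime] :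
    Subgroup (Matrix.SpecialLinearGroup (Fin 2) (ZMod p)) where
  carrier := {g | g 1 0 = 0}
  one_mem' := by
    show (1 : Matrix.SpecialLinearGroup (Fin 2) (ZMod p)) 1 0 = 0
    simp
  mul_mem' := by
    intro a b ha hb
    have ha' : a 1 0 = 0 := ha
    have hb' : b 1 0 = 0 := hb
    show (a * b) 1 0 = 0
    rw [Matrix.SpecialLinearGroup.coe_mul, Matrix.mul_apply, Fin.sum_univ_two, ha', hb']
    simp
  inv_mem' := by
    intro a ha
    have ha' : a 1 0 = 0 := ha
    show (a⁻¹) 1 0 = 0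
    rw [Matrix.SpecialLinearGroup.SL2_inv_expl]
    simp [ha']

private theorem bor_mem_T (p : ℕ) [Fact p.Prime]
    (g : Matrix.SpecialLinearGroup (Fin 2) (ZMod p)) : g ∈ bor_T p ↔ g 1 0 = 0 := Iff.rfl

private theorem bor_det (p : ℕ) [Fact p.Prime]
    (g : Matrix.SpecialLinearGroup (Fin 2) (ZMod p)) (hg : g ∈ bor_T p) : g 0 0 * g 1 1 = 1 := by
  have h1 := g.det_coe
  rw [Matrix.det_fin_two] at h1
  have h2 : (g : Matrix (Fin 2) (Fin 2) (ZMod p)) 1 0 = 0 := hg
  rw [h2, mul_zero, sub_zero] at h1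
  exact h1

private theorem bor_mul (p : ℕ) [Fact p.Prime]
    (g h : Matrix.SpecialLinearGroup (Fin 2) (ZMod p)) (hh : h ∈ bor_T p) :
    (g * h) 0 0 = g 0 0 * h 0 0 := by
  have h2 : (h : Matrix (Fin 2) (Fin 2) (ZMod p)) 1 0 = 0 := hh
  rw [Matrix.SpecialLinearGroup.coe_mul, Matrix.mul_apply, Fin.sum_univ_two, h2]
  simp

private theorem bor_inv (p : ℕ) [Fact p.Prime]
    (g : Matrix.SpecialLinearGroup (Fin 2) (ZMod p)) : (g⁻¹) 0 0 = g 1 1 := by
  rw [Matrix.SpecialLinearGroup.SL2_inv_expl]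
  simp

/-- the unipotent upper triangular matrices -/
private def bor_U (p : ℕ) [Fact p.Prime] :
    Subgroup (Matrix.SpecialLinearGroup (Fin 2) (ZMod p)) where
  carrier := {g | g ∈ bor_T p ∧ g 0 0 = 1}
  one_mem' := by
    refine ⟨(bor_T p).one_mem, ?_⟩
    simp
  mul_mem' := by
    intro a b ha hb
    refine ⟨(bor_T p).mul_mem ha.1 hb.1, ?_⟩
    rw [bor_mul p a b hb.1, ha.2, hb.2, mul_one]
  inv_mem' := by
    intro a ha
    refine ⟨(bor_T p).inv_mem ha.1, ?_⟩
    rw [bor_inv]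
    have := bor_det p a ha.1
    rwa [ha.2, one_mul] at this

/-- the unipotent matrices as a homomorphism -/
private def bor_u (p : ℕ) [Fact p.Prime] :
    Multiplicative (ZMod p) →* Matrix.SpecialLinearGroup (Fin 2) (ZMod p) where
  toFun s := ⟨!![1, s.toAdd; 0, 1], by simp [Matrix.det_fin_two]⟩
  map_one' := by
    apply Subtype.ext
    ext i j
    fin_cases i <;> fin_cases j <;> simp
  map_mul' := by
    intro s t
    apply Subtype.ext
    ext i j
    fin_cases i <;> fin_cases j <;> simp [Matrix.mul_apply, Fin.sum_univ_two, add_comm]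

/-- the diagonal matrices as a homomorphism -/
private def bor_d (p : ℕ) [Fact p.Prime] :
    (ZMod p)ˣ →* Matrix.SpecialLinearGroup (Fin 2) (ZMod p) where
  toFun s := ⟨!![(s : ZMod p), 0; 0, ((s⁻¹ : (ZMod p)ˣ) : ZMod p)], by
    rw [Matrix.det_fin_two_of, Units.mul_inv, mul_zero, sub_zero]⟩
  map_one' := by
    apply Subtype.ext
    ext i j
    fin_cases i <;> fin_cases j <;> simp
  map_mul' := by
    intro s t
    apply Subtype.ext
    show (!![((s * t : (ZMod p)ˣ) : ZMod p), 0; 0, (((s * t)⁻¹ : (ZMod p)ˣ) : ZMod p)] :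
        Matrix (Fin 2) (Fin 2) (ZMod p)) =
      !![(s : ZMod p), 0; 0, ((s⁻¹ : (ZMod p)ˣ) : ZMod p)] *
        !![(t : ZMod p), 0; 0, ((t⁻¹ : (ZMod p)ˣ) : ZMod p)]
    rw [Matrix.mul_fin_two, mul_inv, Units.val_mul, Units.val_mul]
    simp only [mul_zero, zero_mul, add_zero, zero_add]

private theorem bor_u00 (p : ℕ) [Fact p.Prime] (s : Multiplicative (ZMod p)) :
    bor_u p s 0 0 = 1 := rfl
private theorem bor_u01 (p : ℕ) [Fact p.Prime] (s : Multiplicative (ZMod p)) :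
    bor_u p s 0 1 = s.toAdd := rfl
private theorem bor_u10 (p : ℕ) [Fact p.Prime] (s : Multiplicative (ZMod p)) :
    bor_u p s 1 0 = 0 := rfl
private theorem bor_u11 (p : ℕ) [Fact p.Prime] (s : Multiplicative (ZMod p)) :
    bor_u p s 1 1 = 1 := rfl
private theorem bor_d00 (p : ℕ) [Fact p.Prime] (s : (ZMod p)ˣ) :
    bor_d p s 0 0 = s := rfl
private theorem bor_d10 (p : ℕ) [Fact p.Prime] (s : (ZMod p)ˣ) :
    bor_d p s 1 0 = 0 := rfl

/-- the chain -/
private def bor_B (p : ℕ) [Fact p.Prime] :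
    ℕ → Subgroup (Matrix.SpecialLinearGroup (Fin 2) (ZMod p))
  | 0 => ⊥
  | 1 => bor_U p
  | _ => bor_T p

/-- the other Bruhat cell -/
private def bor_w (p : ℕ) [Fact p.Prime] : Matrix.SpecialLinearGroup (Fin 2) (ZMod p) :=
  ⟨!![0, -1; 1, 0], by simp [Matrix.det_fin_two]⟩

private theorem bor_cell (p : ℕ) [Fact p.Prime]
    (g : Matrix.SpecialLinearGroup (Fin 2) (ZMod p)) (hg : g 1 0 ≠ 0) :
    (bor_w p)⁻¹ * ((bor_u p (Multiplicative.ofAdd (g 0 0 / g 1 0)))⁻¹ * g) ∈ bor_T p := by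
  rw [bor_mem_T, Matrix.SpecialLinearGroup.coe_mul, Matrix.mul_apply, Fin.sum_univ_two,
    Matrix.SpecialLinearGroup.SL2_inv_expl (bor_w p), Matrix.SpecialLinearGroup.coe_mul,
    Matrix.SpecialLinearGroup.SL2_inv_expl (bor_u p _)]
  have e1 : bor_w p 0 0 = 0 := rfl
  have e2 : bor_w p 1 0 = 1 := rfl
  have hg' : (g : Matrix (Fin 2) (Fin 2) (ZMod p)) 1 0 ≠ 0 := hg
  simp only [Matrix.mul_apply, Fin.sum_univ_two, e1, e2, bor_u00, bor_u01, bor_u10, bor_u11]
  simp
  field_simp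
  ring

theorem borel (p : ℕ) [Fact p.Prime] :
    ∃ B : ℕ → Subgroup (Matrix.SpecialLinearGroup (Fin 2) (ZMod p)), Chain B 2 ∧
      Nat.card (Matrix.SpecialLinearGroup (Fin 2) (ZMod p)) ≤ (p + 1) * Nat.card (B 2) := by
  refine ⟨bor_B p, ⟨rfl, ?_⟩, ?_⟩
  · intro i hi
    have hi' : i = 0 ∨ i = 1 := by omega
    rcases hi' with rfl | rfl
    · refine ⟨bot_le, ?_, bor_u p (Multiplicative.ofAdd 1), ?_, ?_⟩
      · intro b _ x hx
        have hx' : x = 1 := Subgroup.mem_bot.1 hx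
        rw [hx', mul_one, mul_inv_cancel]
        exact Subgroup.one_mem _
      · exact ⟨rfl, rfl⟩
      · intro x hx
        have hx' : x ∈ bor_T p ∧ x 0 0 = 1 := hx
        refine ⟨-((x 0 1 : ZMod p).val : ℤ), ?_⟩
        show x * _ ∈ (⊥ : Subgroup _)
        rw [Subgroup.mem_bot, zpow_neg, mul_inv_eq_one, ← map_zpow, ← ofAdd_zsmul]
        have h1 : (((x 0 1 : ZMod p).val : ℤ) • (1 : ZMod p)) = x 0 1 := by
          rw [zsmul_eq_mul, mul_one, Int.cast_natCast, ZMod.natCast_zmod_val]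
        rw [h1]
        have h3 := bor_det p x hx'.1
        rw [hx'.2, one_mul] at h3
        apply Subtype.ext
        ext i j
        fin_cases i <;> fin_cases j
        · exact hx'.2
        · rfl
        · exact hx'.1
        · exact h3
    · refine ⟨fun x hx => hx.1, ?_, ?_⟩
      · intro b hb x hx
        have hb' : b ∈ bor_T p := hb
        have hx' : x ∈ bor_T p ∧ x 0 0 = 1 := hx
        show b * x * b⁻¹ ∈ bor_T p ∧ (b * x * b⁻¹) 0 0 = 1
        refine ⟨(bor_T p).mul_mem ((bor_T p).mul_mem hb' hx'.1) ((bor_T p).inv_mem hb'), ?_⟩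
        rw [bor_mul p _ _ ((bor_T p).inv_mem hb'), bor_mul p _ _ hx'.1, hx'.2, mul_one, bor_inv,
          bor_det p b hb']
      · obtain ⟨w, hw⟩ := IsCyclic.exists_generator (α := (ZMod p)ˣ)
        refine ⟨bor_d p w, (rfl : bor_d p w 1 0 = 0), ?_⟩
        intro x hx
        have hx' : x ∈ bor_T p := hx
        have h1 := bor_det p x hx'
        obtain ⟨m, hm⟩ := Subgroup.mem_zpowers_iff.1
          (hw (Units.mk (x 0 0) (x 1 1) h1 (by rw [mul_comm]; exact h1)))
        refine ⟨-m, ?_⟩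
        have h2 : bor_d p w ^ (-m) = bor_d p ((w ^ m)⁻¹) := by rw [← map_zpow, zpow_neg]
        rw [h2, hm]
        have h3 : bor_d p (Units.mk (x 0 0) (x 1 1) h1 (by rw [mul_comm]; exact h1))⁻¹ ∈
            bor_T p := (rfl : bor_d p _ 1 0 = 0)
        refine ⟨(bor_T p).mul_mem hx' h3, ?_⟩
        rw [bor_mul p _ _ h3, bor_d00]
        exact h1
  · have hsurj : Function.Surjective (fun q : Option (ZMod p) × bor_T p =>
        (match q.1 with
          | none => (q.2 : Matrix.SpecialLinearGroup (Fin 2) (ZMod p))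
          | some s => bor_u p (Multiplicative.ofAdd s) * (bor_w p *
              (q.2 : Matrix.SpecialLinearGroup (Fin 2) (ZMod p))))) := by
      intro g
      by_cases hg : g 1 0 = 0
      · exact ⟨(none, ⟨g, hg⟩), rfl⟩
      · refine ⟨(some (g 0 0 / g 1 0), ⟨_, bor_cell p g hg⟩), ?_⟩
        show bor_u p _ * (bor_w p * ((bor_w p)⁻¹ * ((bor_u p _)⁻¹ * g))) = g
        rw [mul_inv_cancel_left, mul_inv_cancel_left]
    have h1 := Nat.card_le_card_of_surjective _ hsurj
    rw [Nat.card_prod] at h1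
    have h2 : Nat.card (Option (ZMod p)) = p + 1 := by
      rw [Nat.card_eq_fintype_card, Fintype.card_option, ZMod.card]
    rw [h2] at h1
    exact h1

end Pool.Agent.SXQ
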