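import Pool.Agent.SXQ.Op

/-! SXQ-Cen: the triple sum of centred invariant matrices. -/

set_option autoImplicit false

namespace Pool.Agent.SXQ

theorem centred {A X Y Z : Type*} [Group A] [Fintype X] [Fintype Y] [Fintype Z] {D : ℕ}
    (hQ : QR A D) (ψX : A →* Equiv.Perm X) (ψY : A →* Equiv.Perm Y) (hY : Tran ψY)
    (P : X → Y → ℝ) (Q : Y → Z → ℝ) (R : X → Z → ℝ)
    (iP : ∀ (g : A) x y, P (ψX g x) (ψY g y) = P x y) (sP : ∀ x, ∑ y, P x y = 0) :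
    (D : ℝ) * (∑ x, ∑ y, ∑ z, P x y * Q y z * R x z) ^ 2 ≤
      (∑ x, ∑ y, P x y ^ 2) * (∑ y, ∑ z, Q y z ^ 2) * (∑ x, ∑ z, R x z ^ 2) := by
  have h1 : ∀ z, (D : ℝ) * ∑ x, (∑ y, P x y * Q y z) ^ 2 ≤
      (∑ x, ∑ y, P x y ^ 2) * ∑ y, Q y z ^ 2 := by
    intro z
    refine op_bound hQ ψX ψY P iP (fun f hf x => ?_) (fun y => Q y z)
    have h2 : ∀ y y', f y = f y' := by
      intro y y'
      obtain ⟨g, hg⟩ := hY y' y
      rw [← hg]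
      exact hf g y'
    rcases isEmpty_or_nonempty Y with hE | ⟨⟨y0⟩⟩
    · exact Finset.sum_of_isEmpty _
    · rw [Finset.sum_congr rfl fun y _ => by rw [h2 y y0], ← Finset.sum_mul, sP, zero_mul]
  have h3 : (D : ℝ) * ∑ x, ∑ z, (∑ y, P x y * Q y z) ^ 2 ≤
      (∑ x, ∑ y, P x y ^ 2) * ∑ y, ∑ z, Q y z ^ 2 := by
    rw [Finset.sum_comm, Finset.mul_sum, Finset.sum_comm (s := Finset.univ) (f := fun y z => Q y z ^ 2),
      Finset.mul_sum]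
    exact Finset.sum_le_sum fun z _ => h1 z
  have h4 : (∑ x, ∑ y, ∑ z, P x y * Q y z * R x z) =
      ∑ w : X × Z, (∑ y, P w.1 y * Q y w.2) * R w.1 w.2 := by
    rw [Fintype.sum_prod_type]
    refine Finset.sum_congr rfl fun x _ => ?_
    rw [Finset.sum_comm]
    exact Finset.sum_congr rfl fun z _ => (Finset.sum_mul _ _ _).symm
  have h5 := Finset.sum_mul_sq_le_sq_mul_sq Finset.univ
    (fun w : X × Z => ∑ y, P w.1 y * Q y w.2) (fun w => R w.1 w.2)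
  rw [← h4, Fintype.sum_prod_type (f := fun w : X × Z => (∑ y, P w.1 y * Q y w.2) ^ 2),
    Fintype.sum_prod_type (f := fun w : X × Z => R w.1 w.2 ^ 2)] at h5
  have h6 : 0 ≤ ∑ x, ∑ z, R x z ^ 2 :=
    Finset.sum_nonneg fun x _ => Finset.sum_nonneg fun z _ => sq_nonneg _
  calc (D : ℝ) * (∑ x, ∑ y, ∑ z, P x y * Q y z * R x z) ^ 2
      ≤ D * ((∑ x, ∑ z, (∑ y, P x y * Q y z) ^ 2) * ∑ x, ∑ z, R x z ^ 2) :=
        mul_le_mul_of_nonneg_left h5 (Nat.cast_nonneg D)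
    _ = (D * (∑ x, ∑ z, (∑ y, P x y * Q y z) ^ 2)) * ∑ x, ∑ z, R x z ^ 2 := by ring
    _ ≤ _ := mul_le_mul_of_nonneg_right h3 h6

end Pool.Agent.SXQ
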