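import Pool.Agent.SXQ.MatG
import Pool.Agent.SXS.MatB

/-!
# SXQ-ChG: large matchings in a group with a cyclic chain

Proof. `exists_apf` (`SXS/MatB.lean`) gives `C` and for every `q` a progression-free set of size
`≥ q exp (-C √(log q))` in `ZMod q`, and `mat_of_apf` a matching of this size.
`step`: let `N ≤ B` be finite subgroups (of a finite group), `N` normalised by `B`, `t ∈ B` and every `x ∈ B` satisfies
`x * t ^ k ∈ N` for some `k`. Let `q` be the least positive integer with `t ^ q ∈ N` (exists, `t` has finite order).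
Then `t ^ k ∈ N` implies `q ∣ k` (division with remainder), and `Nat.card B = q * Nat.card N` (the elements of `B`
are the `n * t ^ j` with `n ∈ N`, `0 ≤ j < q`, uniquely).
`chain_mat` by induction on `r`: for `r = 0` take `S = {(1, 1)}`, `B 0 = ⊥`. Step: `matM_ext` with `N = B r`,
`B (r + 1)`, and the matching in `ZMod q`. With `a = log |B r|`, `b = log q`:
`|U| ≥ |B r| exp (-C √(r a)) q exp (-C √b)` and `√(r a) + √b ≤ √((r + 1) (a + b))` (Cauchy-Schwarz: the square of the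
left side is `r a + b + 2 √(r a b) ≤ r a + b + a + r b`), `a + b = log |B (r + 1)|`.
-/

set_option autoImplicit false

namespace Pool.Agent.SXQ

open Finset Real Pool.Agent.SXS

theorem step {A : Type*} [Group A] [Finite A] {N B : Subgroup A} (hNB : N ≤ B)
    (hn : ∀ b ∈ B, ∀ x ∈ N, b * x * b⁻¹ ∈ N) {t : A} (ht : t ∈ B)
    (hB : ∀ x ∈ B, ∃ k : ℤ, x * t ^ k ∈ N) :
    ∃ q : ℕ, 1 ≤ q ∧ (∀ k : ℤ, t ^ k ∈ N → (q : ℤ) ∣ k) ∧ Nat.card B = q * Nat.card N := by
  haveI hnorm : (N.subgroupOf B).Normal := by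
    refine ⟨fun n hn' g => ?_⟩
    rw [Subgroup.mem_subgroupOf] at hn' ⊢
    have := hn g.1 g.2 n.1 hn'
    simpa using this
  have hgen : ∀ x : B ⧸ N.subgroupOf B,
      x ∈ Subgroup.zpowers ((⟨t, ht⟩ : B) : B ⧸ N.subgroupOf B) := by
    intro x
    obtain ⟨b, rfl⟩ := QuotientGroup.mk_surjective x
    obtain ⟨k, hk⟩ := hB b.1 b.2
    rw [Subgroup.mem_zpowers_iff]
    refine ⟨-k, ?_⟩
    have h1 : ((b * (⟨t, ht⟩ : B) ^ k : B) : B ⧸ N.subgroupOf B) = 1 := by
      rw [QuotientGroup.eq_one_iff, Subgroup.mem_subgroupOf]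
      simpa using hk
    rw [QuotientGroup.mk_mul, QuotientGroup.mk_zpow] at h1
    rw [zpow_neg, inv_eq_of_mul_eq_one_left h1]
  have hord : orderOf ((⟨t, ht⟩ : B) : B ⧸ N.subgroupOf B) = Nat.card (B ⧸ N.subgroupOf B) :=
    orderOf_eq_card_of_forall_mem_zpowers hgen
  refine ⟨Nat.card (B ⧸ N.subgroupOf B), Nat.card_pos, fun k hk => ?_, ?_⟩
  · rw [← hord, orderOf_dvd_iff_zpow_eq_one, ← QuotientGroup.mk_zpow, QuotientGroup.eq_one_iff,
      Subgroup.mem_subgroupOf]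
    simpa using hk
  · rw [Subgroup.card_eq_card_quotient_mul_card_subgroup (N.subgroupOf B),
      Nat.card_congr (Subgroup.subgroupOfEquivOfLe hNB).toEquiv]

private theorem cs_aux {r a b : ℝ} (hr : 0 ≤ r) (ha : 0 ≤ a) (hb : 0 ≤ b) :
    √(r * a) + √b ≤ √((r + 1) * (a + b)) := by
  refine Real.le_sqrt_of_sq_le ?_
  have h1 : √(r * a) = √r * √a := Real.sqrt_mul hr a
  have h2 : √r ^ 2 = r := Real.sq_sqrt hr
  have h3 : √a ^ 2 = a := Real.sq_sqrt ha
  have h4 : √b ^ 2 = b := Real.sq_sqrt hb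
  have h5 : (√r * √a + √b) ^ 2 = √r ^ 2 * √a ^ 2 + √b ^ 2 + 2 * (√r * √a * √b) := by ring
  have h6 := sq_nonneg (√a - √r * √b)
  have h7 : (√a - √r * √b) ^ 2 = √a ^ 2 + √r ^ 2 * √b ^ 2 - 2 * (√r * √a * √b) := by ring
  rw [h7, h2, h3, h4] at h6
  rw [h1, h5, h2, h3, h4]
  nlinarith

theorem chain_mat : ∃ C > (0 : ℝ), ∀ (A : Type) [Group A] [Finite A] [DecidableEq A]
    (B : ℕ → Subgroup A) (r : ℕ), Chain B r →
      ∃ S : Finset (A × A), MatM S ∧ (∀ a ∈ S, a.1 ∈ B r ∧ a.2 ∈ B r) ∧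
        (Nat.card (B r) : ℝ) * exp (-C * √(r * log (Nat.card (B r)))) ≤ S.card := by
  obtain ⟨C, hC, hapf⟩ := exists_apf
  refine ⟨C, hC, ?_⟩
  intro A _ _ _ B r
  induction r with
  | zero =>
    intro hch
    refine ⟨{(1, 1)}, ?_, ?_, ?_⟩
    · intro a ha b hb c hc _
      rw [Finset.mem_singleton] at ha hb hc
      rw [ha, hb, hc]
      exact ⟨rfl, rfl⟩
    · intro a ha
      rw [Finset.mem_singleton] at ha
      rw [ha]
      exact ⟨(B 0).one_mem, (B 0).one_mem⟩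
    · rw [hch.1]
      simp
  | succ r ih =>
    intro hch
    obtain ⟨S, hS, hSN, hcard⟩ := ih ⟨hch.1, fun i hi => hch.2 i (Nat.lt_succ_of_lt hi)⟩
    obtain ⟨hle, hn, t, ht, hB⟩ := hch.2 r (Nat.lt_succ_self r)
    obtain ⟨q, hq1, hq, hBc⟩ := step hle hn ht hB
    haveI : NeZero q := ⟨by omega⟩
    obtain ⟨P, hP, hPc⟩ := hapf q
    obtain ⟨T, hT, hTc⟩ := mat_of_apf hP
    obtain ⟨U, hU, hUB, hUc⟩ := matM_ext hle hn ht hq hS hSN hT
    refine ⟨U, hU, hUB, ?_⟩
    rw [hUc, hBc]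
    have hN1 : (1 : ℝ) ≤ (Nat.card (B r) : ℝ) := by
      have : 0 < Nat.card (B r) := Nat.card_pos
      exact_mod_cast this
    have hq1' : (1 : ℝ) ≤ (q : ℝ) := by exact_mod_cast hq1
    obtain ⟨n, hn'⟩ : ∃ n : ℝ, n = (Nat.card (B r) : ℝ) := ⟨_, rfl⟩
    rw [← hn'] at hN1 hcard
    have ha : 0 ≤ log n := log_nonneg hN1
    have hb : 0 ≤ log (q : ℝ) := log_nonneg hq1'
    have hlog : log (((q * Nat.card (B r) : ℕ) : ℝ)) = log n + log (q : ℝ) := by
      push_cast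
      rw [← hn', Real.log_mul (by linarith) (by linarith), add_comm]
    have hcs := cs_aux (r := (r : ℝ)) (Nat.cast_nonneg r) ha hb
    have h1 : exp (-C * √(((r + 1 : ℕ) : ℝ) * log (((q * Nat.card (B r) : ℕ) : ℝ)))) ≤
        exp (-C * √((r : ℝ) * log n)) * exp (-C * √(log (q : ℝ))) := by
      rw [← Real.exp_add, hlog]
      refine exp_le_exp.2 ?_
      push_cast
      nlinarith
    have h2 : (((q * Nat.card (B r) : ℕ) : ℝ)) = n * (q : ℝ) := by
      push_cast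
      rw [← hn', mul_comm]
    rw [← hTc] at hPc
    have hnq : 0 ≤ n * (q : ℝ) := by positivity
    calc (((q * Nat.card (B r) : ℕ) : ℝ)) *
          exp (-C * √(((r + 1 : ℕ) : ℝ) * log (((q * Nat.card (B r) : ℕ) : ℝ))))
        ≤ (n * (q : ℝ)) * (exp (-C * √((r : ℝ) * log n)) * exp (-C * √(log (q : ℝ)))) := by
          rw [h2]
          rw [h2] at h1
          exact mul_le_mul_of_nonneg_left h1 hnq
      _ = (n * exp (-C * √((r : ℝ) * log n))) * ((q : ℝ) * exp (-C * √(log (q : ℝ)))) := by ring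
      _ ≤ (S.card : ℝ) * (T.card : ℝ) :=
          mul_le_mul hcard hPc (by positivity) (by positivity)
      _ = ((S.card * T.card : ℕ) : ℝ) := by push_cast; ring

end Pool.Agent.SXQ
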