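import Pool.Agent.SXQ.Inv

/-!
# SXQ-Orb: orbits, the restricted action, nontrivial orbits are large
-/

set_option autoImplicit false

namespace Pool.Agent.SXQ

open Finset Pool.Agent.RSV Pool.Agent.SXS

variable {V A : Type*} [Fintype V] [Group A]

private theorem obI {X : Type*} (e : Equiv.Perm X) (x : X) : e⁻¹ (e x) = x :=
  e.symm_apply_apply x

theorem mem_orb (φ : A →* Equiv.Perm V) (v w : V) : w ∈ orb φ v ↔ ∃ g : A, φ g v = w := by
  classical
  unfold orb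
  rw [mem_filter]
  exact ⟨fun h => h.2, fun h => ⟨mem_univ _, h⟩⟩

theorem self_mem_orb (φ : A →* Equiv.Perm V) (v : V) : v ∈ orb φ v := by
  refine (mem_orb φ v v).2 ⟨1, ?_⟩
  rw [map_one]
  rfl

theorem orb_eq (φ : A →* Equiv.Perm V) {v w : V} (h : w ∈ orb φ v) : orb φ w = orb φ v := by
  obtain ⟨g, hg⟩ := (mem_orb φ v w).1 h
  ext x
  rw [mem_orb, mem_orb]
  constructor
  · rintro ⟨k, hk⟩
    refine ⟨k * g, ?_⟩
    rw [map_mul, Equiv.Perm.mul_apply, hg, hk]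
  · rintro ⟨k, hk⟩
    refine ⟨k * g⁻¹, ?_⟩
    rw [map_mul, Equiv.Perm.mul_apply, ← hg, map_inv, obI, hk]

theorem orb_inv (φ : A →* Equiv.Perm V) (v : V) (g : A) (w : V) : φ g w ∈ orb φ v ↔ w ∈ orb φ v := by
  rw [mem_orb, mem_orb]
  constructor
  · rintro ⟨k, hk⟩
    refine ⟨g⁻¹ * k, ?_⟩
    rw [map_mul, Equiv.Perm.mul_apply, hk, map_inv, obI]
  · rintro ⟨k, hk⟩
    refine ⟨g * k, ?_⟩
    rw [map_mul, Equiv.Perm.mul_apply, hk]

/-- the action on the orbit of `v` -/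
noncomputable def res (φ : A →* Equiv.Perm V) (v : V) : A →* Equiv.Perm {w // w ∈ orb φ v} :=
  MonoidHom.mk' (fun g => (φ g).subtypePerm fun w => orb_inv φ v g w) (by
    intro a b
    apply Equiv.ext
    intro x
    apply Subtype.ext
    show φ (a * b) x = φ a (φ b x)
    rw [map_mul, Equiv.Perm.mul_apply])

theorem res_apply (φ : A →* Equiv.Perm V) (v : V) (g : A) (w : {w // w ∈ orb φ v}) :
    ((res φ v g w : {w // w ∈ orb φ v}) : V) = φ g w := by
  rfl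

theorem res_tran (φ : A →* Equiv.Perm V) (v : V) : Tran (res φ v) := by
  intro x y
  obtain ⟨g, hg⟩ := (mem_orb φ v x).1 x.2
  obtain ⟨k, hk⟩ := (mem_orb φ v y).1 y.2
  refine ⟨k * g⁻¹, ?_⟩
  apply Subtype.ext
  rw [res_apply, map_mul, Equiv.Perm.mul_apply, ← hg, map_inv, obI, hk]

theorem orb_big {D : ℕ} (hQ : QR A D) (φ : A →* Equiv.Perm V) {v : V}
    (hv : ∃ g : A, φ g v ≠ v) : D < (orb φ v).card := by
  classical
  obtain ⟨g, hg⟩ := hv
  by_contra hD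
  have hD' : (orb φ v).card ≤ D := not_lt.mp hD
  obtain ⟨L, hL⟩ : ∃ L : ({w // w ∈ orb φ v} → ℝ) →ₗ[ℝ] ℝ, ∀ f, L f = ∑ x, f x :=
    ⟨{ toFun := fun f => ∑ x, f x
       map_add' := fun f h => by
        show ∑ x, (f x + h x) = _
        rw [sum_add_distrib]
       map_smul' := fun c f => by
        show ∑ x, c * f x = _
        rw [← mul_sum]
        rfl }, fun f => rfl⟩
  have hv0 : v ∈ orb φ v := self_mem_orb φ v
  have hw0 : φ g v ∈ orb φ v := (mem_orb φ v (φ g v)).2 ⟨g, rfl⟩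
  have hlt : LinearMap.ker L < ⊤ := by
    rw [lt_top_iff_ne_top]
    intro htop
    have h1 : (Pi.single ⟨v, hv0⟩ 1 : {w // w ∈ orb φ v} → ℝ) ∈ LinearMap.ker L := by
      rw [htop]
      exact Submodule.mem_top
    rw [LinearMap.mem_ker, hL, Fintype.sum_pi_single'] at h1
    exact one_ne_zero h1
  have hd : Module.finrank ℝ (LinearMap.ker L) < D := by
    refine lt_of_lt_of_le (Submodule.finrank_lt hlt.ne) ?_
    rw [Module.finrank_fintype_fun_eq_card, Fintype.card_coe]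
    exact hD'
  have hinv := inv_small hQ (res φ v) (LinearMap.ker L) (fun h f hf => by
    rw [LinearMap.mem_ker, hL] at hf ⊢
    rw [← hf]
    exact Equiv.sum_comp (res φ v h) f) hd
  have hne : (⟨φ g v, hw0⟩ : {w // w ∈ orb φ v}) ≠ ⟨v, hv0⟩ := fun h => hg (congrArg Subtype.val h)
  obtain ⟨f, hf⟩ : ∃ f : {w // w ∈ orb φ v} → ℝ,
      f = (Pi.single ⟨v, hv0⟩ 1 : {w // w ∈ orb φ v} → ℝ) -
        (Pi.single ⟨φ g v, hw0⟩ 1 : {w // w ∈ orb φ v} → ℝ) := ⟨_, rfl⟩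
  have hfW : f ∈ LinearMap.ker L := by
    rw [hf, LinearMap.mem_ker, map_sub, hL, hL, Fintype.sum_pi_single', Fintype.sum_pi_single',
      sub_self]
  have h2 := hinv f hfW g ⟨v, hv0⟩
  have h3 : res φ v g ⟨v, hv0⟩ = ⟨φ g v, hw0⟩ := Subtype.ext rfl
  rw [h3, hf, Pi.sub_apply, Pi.sub_apply, Pi.single_eq_same, Pi.single_eq_same,
    Pi.single_eq_of_ne hne, Pi.single_eq_of_ne hne.symm] at h2
  norm_num at h2

end Pool.Agent.SXQ
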