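import Pool.Agent.SXQ.Tri
import Pool.Agent.SXQ.Orb
import Pool.Agent.SXQ.Sh

/-!
# SXQ-Core: three orbits of which one is nontrivial
-/

set_option autoImplicit false

namespace Pool.Agent.SXQ

open Finset Pool.Agent.RSV Pool.Agent.SXS

private noncomputable def cor_P {V A : Type*} [Fintype V] [DecidableEq V] [Group A]
    (H : Finset (Finset V)) (φ : A →* Equiv.Perm V) (x y : V) (u : {w // w ∈ orb φ x})
    (v : {w // w ∈ orb φ y}) : ℝ := if (v : V) ∈ nb H (u : V) then 1 else 0

private theorem cor_bool {V A : Type*} [Fintype V] [DecidableEq V] [Group A]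
    (H : Finset (Finset V)) (φ : A →* Equiv.Perm V) (x y : V) (u : {w // w ∈ orb φ x})
    (v : {w // w ∈ orb φ y}) : cor_P H φ x y u v = 0 ∨ cor_P H φ x y u v = 1 := by
  unfold cor_P
  split_ifs
  · exact Or.inr rfl
  · exact Or.inl rfl

private theorem cor_inv {V A : Type*} [Fintype V] [DecidableEq V] [Group A]
    {H : Finset (Finset V)} {φ : A →* Equiv.Perm V} (hA : Auts H φ) (x y : V) (g : A)
    (u : {w // w ∈ orb φ x}) (v : {w // w ∈ orb φ y}) :
    cor_P H φ x y (res φ x g u) (res φ y g v) = cor_P H φ x y u v := by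
  unfold cor_P
  rw [res_apply, res_apply]
  have h := nb_inv hA g (u : V) (v : V)
  by_cases h1 : (v : V) ∈ nb H (u : V)
  · rw [if_pos h1, if_pos (h.2 h1)]
  · rw [if_neg h1, if_neg (fun h2 => h1 (h.1 h2))]

private theorem cor_card {V A : Type*} [Fintype V] [DecidableEq V] [Group A]
    (H : Finset (Finset V)) (φ : A →* Equiv.Perm V) (x y : V) :
    ∑ u, ∑ v, cor_P H φ x y u v = ((pr H φ x y).card : ℝ) := by
  have h1 : ((pr H φ x y).card : ℝ)
      = ∑ u ∈ orb φ x, ∑ v ∈ orb φ y, (if v ∈ nb H u then (1 : ℝ) else 0) := by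
    unfold pr
    rw [card_filter, sum_product]
    push_cast
    rfl
  rw [h1, ← Finset.sum_coe_sort (orb φ x)]
  refine Finset.sum_congr rfl fun u _ => ?_
  rw [← Finset.sum_coe_sort (orb φ y)]
  rfl

private theorem cor_pos {V A : Type*} [Fintype V] [Group A] (φ : A →* Equiv.Perm V) (x : V) :
    (0 : ℝ) < (orb φ x).card := by
  exact_mod_cast Finset.card_pos.2 ⟨x, self_mem_orb φ x⟩

private theorem cor_den {V A : Type*} [Fintype V] [DecidableEq V] [Group A]
    (H : Finset (Finset V)) (φ : A →* Equiv.Perm V) (x y : V) :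
    ∑ u, ∑ v, cor_P H φ x y u v
      = den H φ x y * ((Fintype.card {w // w ∈ orb φ x} : ℝ) * Fintype.card {w // w ∈ orb φ y}) := by
  rw [cor_card]
  have h1 : Fintype.card {w // w ∈ orb φ x} = (orb φ x).card := Fintype.card_coe _
  have h2 : Fintype.card {w // w ∈ orb φ y} = (orb φ y).card := Fintype.card_coe _
  rw [h1, h2]
  unfold den
  rw [div_mul_cancel₀]
  exact (mul_pos (cor_pos φ x) (cor_pos φ y)).ne'

private theorem cor_le {V A : Type*} [Fintype V] [DecidableEq V] [Group A]
    (H : Finset (Finset V)) (φ : A →* Equiv.Perm V) (x y : V) : den H φ x y ≤ 1 := by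
  unfold den
  rw [div_le_one (mul_pos (cor_pos φ x) (cor_pos φ y))]
  have h1 : (pr H φ x y).card ≤ (orb φ x).card * (orb φ y).card := by
    rw [← card_product]
    exact card_filter_le _ _
  exact_mod_cast h1

private theorem cor_gt {V A : Type*} [Fintype V] [DecidableEq V] [Group A]
    {H : Finset (Finset V)} (φ : A →* Equiv.Perm V) {x y : V} (h : y ∈ nb H x) :
    0 < den H φ x y := by
  unfold den
  refine div_pos ?_ (mul_pos (cor_pos φ x) (cor_pos φ y))
  have h1 : 0 < (pr H φ x y).card := by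
    refine Finset.card_pos.2 ⟨(x, y), ?_⟩
    unfold pr
    rw [mem_filter, mem_product]
    exact ⟨⟨self_mem_orb φ x, self_mem_orb φ y⟩, h⟩
  exact_mod_cast h1

private theorem cor_tri {V A : Type*} [Fintype V] [DecidableEq V] [Group A]
    {H : Finset (Finset V)} (h3 : Three H) (hN : NoTri H) (φ : A →* Equiv.Perm V) (x y z : V) :
    ∑ u, ∑ v, ∑ w, cor_P H φ x y u v * cor_P H φ y z v w * cor_P H φ x z u w
      ≤ 2 * ∑ u, ∑ v, cor_P H φ x y u v := by
  rw [mul_sum]
  refine sum_le_sum fun u _ => ?_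
  rw [mul_sum]
  refine sum_le_sum fun v _ => ?_
  by_cases h : (v : V) ∈ nb H (u : V)
  · have h1 : cor_P H φ x y u v = 1 := if_pos h
    simp only [h1, one_mul, mul_one]
    have h2 : ∑ w, cor_P H φ y z v w * cor_P H φ x z u w
        = ∑ w ∈ orb φ z, (if w ∈ nb H (v : V) ∧ w ∈ nb H (u : V) then (1 : ℝ) else 0) := by
      rw [← Finset.sum_coe_sort (orb φ z)]
      refine Finset.sum_congr rfl fun w _ => ?_
      unfold cor_P
      by_cases h4 : (w : V) ∈ nb H (v : V) <;> by_cases h5 : (w : V) ∈ nb H (u : V) <;>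
        simp [h4, h5]
    rw [h2, ← sum_filter, sum_const, nsmul_eq_mul, mul_one]
    have h6 : ((orb φ z).filter fun w => w ∈ nb H (v : V) ∧ w ∈ nb H (u : V)).card ≤ 2 :=
      (card_le_card (filter_subset_filter _ (subset_univ _))).trans (cod_le h3 hN h)
    exact_mod_cast h6
  · have h1 : cor_P H φ x y u v = 0 := if_neg h
    simp only [h1, zero_mul, sum_const_zero, mul_zero]
    exact le_refl _

theorem core {V A : Type*} [Fintype V] [DecidableEq V] [Group A] {H : Finset (Finset V)}
    (h3 : Three H) (hN : NoTri H) {φ : A →* Equiv.Perm V} (hA : Auts H φ) {D : ℕ} (hD : 1 ≤ D)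
    (hQ : QR A D) {x y z : V} (hxy : y ∈ nb H x) (hyz : z ∈ nb H y) (hxz : z ∈ nb H x)
    (hz : ∃ g : A, φ g z ≠ z) : den H φ x y * den H φ y z * den H φ x z < 4 / D := by
  have : Nonempty {w // w ∈ orb φ x} := ⟨⟨x, self_mem_orb φ x⟩⟩
  have : Nonempty {w // w ∈ orb φ y} := ⟨⟨y, self_mem_orb φ y⟩⟩
  have : Nonempty {w // w ∈ orb φ z} := ⟨⟨z, self_mem_orb φ z⟩⟩
  have key := tri_count hD hQ (res φ x) (res φ y) (res φ z) (res_tran φ x) (res_tran φ y)
    (res_tran φ z) (cor_P H φ x y) (cor_P H φ y z) (cor_P H φ x z) (cor_bool H φ x y)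
    (cor_bool H φ y z) (cor_bool H φ x z) (cor_inv hA x y) (cor_inv hA y z) (cor_inv hA x z)
    (den H φ x y) (den H φ y z) (den H φ x z) (cor_den H φ x y) (cor_den H φ y z)
    (cor_den H φ x z)
  have h1 := key.trans (cor_tri h3 hN φ x y z)
  rw [cor_den] at h1
  have cx : Fintype.card {w // w ∈ orb φ x} = (orb φ x).card := Fintype.card_coe _
  have cy : Fintype.card {w // w ∈ orb φ y} = (orb φ y).card := Fintype.card_coe _
  have cz : Fintype.card {w // w ∈ orb φ z} = (orb φ z).card := Fintype.card_coe _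
  rw [cx, cy, cz] at h1
  have ha := cor_pos φ x
  have hb := cor_pos φ y
  have hcD : (D : ℝ) < (orb φ z).card := by exact_mod_cast orb_big hQ φ hz
  have hD0 : (0 : ℝ) < D := by exact_mod_cast hD
  have p0 := cor_gt φ hxy
  have q0 := cor_gt φ hyz
  have r0 := cor_gt φ hxz
  have p1 := cor_le H φ x y
  generalize den H φ x y = p at *
  generalize den H φ y z = q at *
  generalize den H φ x z = r at *
  generalize ((orb φ x).card : ℝ) = a at *
  generalize ((orb φ y).card : ℝ) = b at *
  generalize ((orb φ z).card : ℝ) = c at *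
  generalize (D : ℝ) = d at *
  by_contra hcon
  rw [not_lt] at hcon
  have hs : 0 < p * q * r := by positivity
  have h2 : √(p * q * r / d) ≤ p * q * r / 2 := by
    rw [Real.sqrt_le_left (by positivity)]
    have h4 : p * q * r / d = p * q * r * (4 / d) / 4 := by ring
    rw [h4]
    have h5 := mul_le_mul_of_nonneg_left hcon hs.le
    calc p * q * r * (4 / d) / 4 ≤ p * q * r * (p * q * r) / 4 := by linarith
      _ = (p * q * r / 2) ^ 2 := by ring
  have h4 : a * b * c * (p * q * r / 2) ≤ 2 * (p * (a * b)) := by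
    refine le_trans ?_ h1
    apply mul_le_mul_of_nonneg_left
    · linarith
    · have : 0 < c := hD0.trans hcD
      positivity
  have h5 : c * (q * r) ≤ 4 := by
    have h6 : 0 < p * (a * b) := by positivity
    have h7 : p * (a * b) * (c * (q * r)) ≤ p * (a * b) * 4 := by
      linarith
    exact le_of_mul_le_mul_left h7 h6
  have h6 : d * (q * r) < 4 := by
    have h7 : d * (q * r) < c * (q * r) := mul_lt_mul_of_pos_right hcD (by positivity)
    linarith
  have h7 : q * r < 4 / d := by
    rw [lt_div_iff₀ hD0]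
    linarith
  have h8 : p * q * r ≤ q * r := by
    have h9 := mul_le_mul_of_nonneg_right p1 (by positivity : 0 ≤ q * r)
    linarith
  linarith

end Pool.Agent.SXQ
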