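import Pool.Agent.SXS.Defs

/-!
# Project SXQ (MP_3cac6c_co): the (6,3) problem for 3-graphs with a quasirandom group of automorphisms. Definitions.

`Three`, `SixThree`, `NoTri`, `nb`: see `RSV/Defs.lean`; `noTri_of_sixThree`, `sixThree_of_noTri`: `RSV/NT.lean`;
`Auts`, `Free`, `Mat` (additive matchings): `SXS/Defs.lean`.
DO NOT CHANGE.
-/

set_option autoImplicit false

namespace Pool.Agent.SXQ

open Finset Pool.Agent.RSV Pool.Agent.SXS

/-- every homomorphism of `A` to `GL_d(ℝ)` with `d < D` is trivial -/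
def QR (A : Type*) [Group A] (D : ℕ) : Prop :=
  ∀ d < D, ∀ (ρ : A →* Matrix.GeneralLinearGroup (Fin d) ℝ) (g : A), ρ g = 1

/-- the action is transitive -/
def Tran {X A : Type*} [Group A] (ψ : A →* Equiv.Perm X) : Prop :=
  ∀ x y : X, ∃ g : A, ψ g x = y

open Classical in
/-- the edges which contain a vertex moved by the group -/
noncomputable def moved {V A : Type*} [Group A] (H : Finset (Finset V)) (φ : A →* Equiv.Perm V) :
    Finset (Finset V) :=
  H.filter fun e => ∃ v ∈ e, ∃ g : A, φ g v ≠ v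

open Classical in
/-- the orbit of the vertex `v` -/
noncomputable def orb {V A : Type*} [Fintype V] [Group A] (φ : A →* Equiv.Perm V) (v : V) :
    Finset V :=
  univ.filter fun w => ∃ g : A, φ g v = w

/-- the shadow pairs between the orbits of `x` and `y` -/
noncomputable def pr {V A : Type*} [Fintype V] [DecidableEq V] [Group A] (H : Finset (Finset V))
    (φ : A →* Equiv.Perm V) (x y : V) : Finset (V × V) :=
  (orb φ x ×ˢ orb φ y).filter fun w => w.2 ∈ nb H w.1

/-- the density of the shadow between the orbits of `x` and `y` -/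
noncomputable def den {V A : Type*} [Fintype V] [DecidableEq V] [Group A] (H : Finset (Finset V))
    (φ : A →* Equiv.Perm V) (x y : V) : ℝ :=
  ((pr H φ x y).card : ℝ) / (((orb φ x).card : ℝ) * ((orb φ y).card : ℝ))

/-- `S` is a matching for the equation `s * t = u` (a tricolored product-free set) -/
def MatM {G : Type*} [Mul G] (S : Finset (G × G)) : Prop :=
  ∀ a ∈ S, ∀ b ∈ S, ∀ c ∈ S, a.1 * b.2 = c.1 * c.2 → a = c ∧ b = c

/-- The tripartite hypergraph of a matching `S` in the group `G`, on the vertices `G × Fin 3`. -/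
def hypM {G : Type*} [Fintype G] [DecidableEq G] [Mul G] (S : Finset (G × G)) :
    Finset (Finset (G × Fin 3)) :=
  (univ ×ˢ S).image fun w : G × (G × G) =>
    {(w.1, 0), (w.1 * w.2.1, 1), (w.1 * (w.2.1 * w.2.2), 2)}

/-- `B 0 = 1, B 1, ..., B r` is a chain of subgroups, each normal in the next one with a cyclic quotient -/
def Chain {A : Type*} [Group A] (B : ℕ → Subgroup A) (r : ℕ) : Prop :=
  B 0 = ⊥ ∧ ∀ i < r, B i ≤ B (i + 1) ∧ (∀ b ∈ B (i + 1), ∀ x ∈ B i, b * x * b⁻¹ ∈ B i) ∧
    ∃ t ∈ B (i + 1), ∀ x ∈ B (i + 1), ∃ k : ℤ, x * t ^ k ∈ B i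

end Pool.Agent.SXQ
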