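import Pool.Agent.SXQ.Jor

/-!
# SXQ-JQ: perfect groups without small quotients have no representations of small degree

Proof of `qr_perfect`. Let `d < D`, `ρ : A →* GL (Fin d) ℝ`, `G = ρ.range` (a finite group), with the inclusion
`G →* GL (Fin d) ℝ`, which is injective. By `jordan` there is an abelian normal subgroup `N` of `G` of index at most
`5 ^ (d * d) < 5 ^ (D * D)`. Let `N' = N.comap ρ.rangeRestrict`, a normal subgroup of `A` with
`N'.index = N.index` (`Subgroup.index_comap_of_surjective`). By `hN` `N' = ⊤`, so `N = ⊤` and `G` is abelian. So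
`commutator A ≤ ρ.ker` (`ρ [x, y] = [ρ x, ρ y] = 1`; e.g. `Subgroup.commutator_le`), and `commutator A = ⊤` gives
`ρ = 1`.

Proof of `num_perfect`. `QR A 1` is trivial (`d = 0`: all matrices on `Fin 0` are equal), this is `qr_one`.
Let `x = √(log N / log 5)`. If `1 ≤ x`, take `D = ⌊x⌋₊`, so `D ≤ x`, `D * D ≤ log N / log 5`, `5 ^ (D * D) ≤ N`, and
`D ≥ x / 2`, so `4 / D ≤ 8 / x` and `(4 / D) ^ (1/3) ≤ 2 * (log 5) ^ (1/6) * (log N) ^ (-1/6) ≤ 3 * (log N) ^ (-1/6)`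
(`log 5 ≤ 2`, `2 ^ (1/6) ≤ 3 / 2` because `(3/2) ^ 6 ≥ 2`). If `x < 1` take `D = 0 + 1 = 1` and `h = 0`:
`(4 / 1) ^ (1/3) ≤ 3 * (log N) ^ (-1/6)` because `log N ≤ log 5 ≤ 2`, `(log N) ^ (-1/6) ≥ 2 ^ (-1/6) ≥ 2 / 3` and
`4 ^ (1/3) ≤ 2`. The conclusion is stated as the existence of `D`.
-/

set_option autoImplicit false

namespace Pool.Agent.SXQ

open scoped commutatorElement

theorem qr_one (A : Type*) [Group A] : QR A 1 := by
  intro d hd ρ g
  have hd0 : d = 0 := by omega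
  subst hd0
  apply Units.ext
  ext i
  exact i.elim0

theorem qr_perfect {A : Type*} [Group A] [Finite A] {D : ℕ} (hp : commutator A = ⊤)
    (hN : ∀ N : Subgroup A, N.Normal → N ≠ ⊤ → 5 ^ (D * D) ≤ N.index) : QR A D := by
  intro d hd ρ g
  have hfr : Finite ρ.range := Finite.of_surjective _ ρ.rangeRestrict_surjective
  obtain ⟨N, hNn, hNc, hNi⟩ := jordan (G := ρ.range) ρ.range.subtype Subtype.val_injective
  have hsur : Function.Surjective ρ.rangeRestrict := ρ.rangeRestrict_surjective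
  have hidx : (N.comap ρ.rangeRestrict).index = N.index :=
    Subgroup.index_comap_of_surjective N hsur
  have hlt : 5 ^ (d * d) < 5 ^ (D * D) := by
    apply Nat.pow_lt_pow_right (by norm_num)
    exact Nat.mul_self_lt_mul_self hd
  have htop : N.comap ρ.rangeRestrict = ⊤ := by
    by_contra hne
    have h1 := hN _ (hNn.comap _) hne
    rw [hidx] at h1
    omega
  have hmem : ∀ x : A, ρ.rangeRestrict x ∈ N := by
    intro x
    have : x ∈ N.comap ρ.rangeRestrict := by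
      rw [htop]
      exact Subgroup.mem_top x
    exact this
  have hcomm : ∀ x y : A, ρ x * ρ y = ρ y * ρ x := by
    intro x y
    have := hNc _ (hmem x) _ (hmem y)
    exact congrArg Subtype.val this
  have hle : commutator A ≤ ρ.ker := by
    rw [commutator_eq_closure, Subgroup.closure_le]
    rintro c ⟨x, y, rfl⟩
    rw [SetLike.mem_coe, MonoidHom.mem_ker, map_commutatorElement,
      commutatorElement_eq_one_iff_mul_comm]
    exact hcomm x y
  have hg : g ∈ ρ.ker := hle (by rw [hp]; exact Subgroup.mem_top g)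
  exact hg

private theorem log5 : Real.log 5 ≤ 2 := by
  have h1 : (5 : ℝ) ≤ Real.exp 2 := by
    have h2 : Real.exp (2 : ℝ) = Real.exp 1 ^ 2 := by
      rw [← Real.exp_nat_mul]
      norm_num
    have h3 := Real.exp_one_gt_d9
    rw [h2]
    nlinarith
  rw [Real.log_le_iff_le_exp (by norm_num)]
  exact h1

/-- `x ^ (1/3) ≤ 3 y ^ (-1/6)` if `x ^ 2 * y ≤ 128` -/
private theorem num_aux {x y : ℝ} (hx : 0 < x) (hy : 0 < y) (h : x ^ 2 * y ≤ 128) :
    x ^ (1 / 3 : ℝ) ≤ 3 * y ^ (-(1 / 6) : ℝ) := by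
  have h1 : x ^ (1 / 3 : ℝ) = (x ^ 2) ^ (1 / 6 : ℝ) := by
    rw [← Real.rpow_natCast, ← Real.rpow_mul hx.le]
    norm_num
  have h2 : (x ^ 2) ^ (1 / 6 : ℝ) * y ^ (1 / 6 : ℝ) ≤ 3 := by
    rw [← Real.mul_rpow (by positivity) hy.le]
    have h3 : (3 : ℝ) = (3 ^ (6 : ℕ)) ^ (1 / 6 : ℝ) := by
      rw [← Real.rpow_natCast, ← Real.rpow_mul (by norm_num)]
      norm_num
    rw [h3]
    apply Real.rpow_le_rpow (by positivity) _ (by norm_num)
    norm_num
    linarith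
  have hy6 : 0 < y ^ (1 / 6 : ℝ) := Real.rpow_pos_of_pos hy _
  rw [h1, Real.rpow_neg hy.le, ← div_eq_mul_inv, le_div_iff₀ hy6]
  exact h2

theorem num_perfect {N : ℕ} (hN : 2 ≤ N) : ∃ D : ℕ, 1 ≤ D ∧ (D = 1 ∨ 5 ^ (D * D) ≤ N) ∧
    (4 / D : ℝ) ^ (1 / 3 : ℝ) ≤ 3 * (Real.log N) ^ (-(1 / 6) : ℝ) := by
  have hNr : (2 : ℝ) ≤ N := by exact_mod_cast hN
  have hL : 0 < Real.log N := Real.log_pos (by linarith)
  have h5 := log5
  have h50 : 0 < Real.log 5 := Real.log_pos (by norm_num)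
  by_cases h : Real.log 5 ≤ Real.log N
  · obtain ⟨x, hx⟩ : ∃ x : ℝ, x = √(Real.log N / Real.log 5) := ⟨_, rfl⟩
    have hx2 : x ^ 2 = Real.log N / Real.log 5 := by
      rw [hx]
      exact Real.sq_sqrt (by positivity)
    have hx1 : 1 ≤ x := by
      rw [hx, Real.one_le_sqrt]
      rw [le_div_iff₀ h50]
      linarith
    have hfl : (⌊x⌋₊ : ℝ) ≤ x := Nat.floor_le (by linarith)
    have hfl2 : x < (⌊x⌋₊ : ℝ) + 1 := Nat.lt_floor_add_one x
    have hD1 : 1 ≤ ⌊x⌋₊ := by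
      rw [Nat.one_le_floor_iff]
      exact hx1
    have hD1r : (1 : ℝ) ≤ (⌊x⌋₊ : ℝ) := by exact_mod_cast hD1
    refine ⟨⌊x⌋₊, hD1, Or.inr ?_, ?_⟩
    · have h6 : (5 : ℝ) ^ (⌊x⌋₊ * ⌊x⌋₊) ≤ N := by
        rw [← Real.rpow_natCast, Real.rpow_def_of_pos (by norm_num),
          ← Real.le_log_iff_exp_le (by linarith)]
        push_cast
        have h7 : (⌊x⌋₊ : ℝ) * ⌊x⌋₊ ≤ x ^ 2 := by nlinarith
        rw [hx2] at h7
        calc Real.log 5 * ((⌊x⌋₊ : ℝ) * ⌊x⌋₊) ≤ Real.log 5 * (Real.log N / Real.log 5) :=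
              mul_le_mul_of_nonneg_left h7 h50.le
          _ = Real.log N := by field_simp
      exact_mod_cast h6
    · refine num_aux (by positivity) hL ?_
      have h8 : x ≤ 2 * (⌊x⌋₊ : ℝ) := by linarith
      have h9 : Real.log N = x ^ 2 * Real.log 5 := by
        rw [hx2]
        field_simp
      rw [h9, div_pow, div_mul_eq_mul_div, div_le_iff₀ (by positivity)]
      have h10 : x ^ 2 ≤ 4 * (⌊x⌋₊ : ℝ) ^ 2 := by nlinarith
      have h11 : x ^ 2 * Real.log 5 ≤ 4 * (⌊x⌋₊ : ℝ) ^ 2 * 2 :=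
        mul_le_mul h10 h5 h50.le (by positivity)
      nlinarith
  · push Not at h
    refine ⟨1, le_rfl, Or.inl rfl, ?_⟩
    refine num_aux (by norm_num) hL ?_
    norm_num
    linarith

/-- a perfect group whose nontrivial quotients have at least `N` elements -/
theorem perfect_qr {A : Type*} [Group A] [Finite A] (hp : commutator A = ⊤) {N : ℕ} (hN : 2 ≤ N)
    (hq : ∀ K : Subgroup A, K.Normal → K ≠ ⊤ → N ≤ K.index) :
    ∃ D : ℕ, 1 ≤ D ∧ QR A D ∧ (4 / D : ℝ) ^ (1 / 3 : ℝ) ≤ 3 * (Real.log N) ^ (-(1 / 6) : ℝ) := by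
  obtain ⟨D, h1, h2, h3⟩ := num_perfect hN
  refine ⟨D, h1, ?_, h3⟩
  rcases h2 with rfl | h2
  · exact qr_one A
  · exact qr_perfect hp fun K hK hK1 => h2.trans (hq K hK hK1)

end Pool.Agent.SXQ
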