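import Pool.Agent.SXQ.BldH
import Pool.Agent.SXQ.ChG

/-!
# SXQ-Low: the lower bound for groups with a large subgroup that has a short cyclic chain
-/

set_option autoImplicit false

namespace Pool.Agent.SXQ

open Finset Real Pool.Agent.RSV Pool.Agent.SXS

private theorem lc_one {n : ℕ} (hn : 3 ≤ n) : (1 : ℝ) ≤ √(log n) := by
  have h0 : (3 : ℝ) ≤ n := by exact_mod_cast hn
  have h1 : (1 : ℝ) ≤ log n := by
    rw [Real.le_log_iff_exp_le (by linarith)]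
    have := Real.exp_one_lt_d9
    linarith
  rw [Real.one_le_sqrt]
  exact h1

private theorem lc_exp {t : ℝ} (ht : 1 ≤ t) : (25 : ℝ) ≤ exp (4 * t) := by
  have h3 : exp 4 ≤ exp (4 * t) := Real.exp_le_exp.2 (by linarith)
  have h4 : exp (4 : ℝ) = exp 1 ^ 4 := by
    rw [← Real.exp_nat_mul]
    norm_num
  have h5 : (2.7 : ℝ) < exp 1 := lt_trans (by norm_num) Real.exp_one_gt_d9
  have h6 : (2.7 : ℝ) ^ 4 ≤ exp 1 ^ 4 := pow_le_pow_left₀ (by norm_num) h5.le 4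
  have h7 : (25 : ℝ) ≤ (2.7 : ℝ) ^ 4 := by norm_num
  rw [h4] at h3
  linarith

private theorem lc_mono {M n : ℕ} (hM : 1 ≤ M) (hMn : M ≤ n) : √(log (M : ℝ)) ≤ √(log n) := by
  have h1 : (0 : ℝ) < M := by exact_mod_cast hM
  exact Real.sqrt_le_sqrt (Real.log_le_log h1 (by exact_mod_cast hMn))

theorem lower_chain : ∃ C > (0 : ℝ), ∀ (A : Type) [Group A] [Finite A] (B : ℕ → Subgroup A)
    (r n : ℕ), Chain B r → Nat.card A ∣ n → 3 * Nat.card A ≤ n →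
      ∃ (H : Finset (Finset (Fin n))) (φ : A →* Equiv.Perm (Fin n)),
        Three H ∧ SixThree H ∧ Auts H φ ∧ Free φ ∧
        (n : ℝ) ^ 2 * ((Nat.card (B r) : ℝ) / Nat.card A) * exp (-C * √((r + 1) * log n)) ≤
          H.card := by
  classical
  obtain ⟨C1, hC1, hapf⟩ := exists_apf
  obtain ⟨C2, hC2, hchain⟩ := chain_mat
  refine ⟨C1 + C2 + 4, by positivity, ?_⟩
  intro A _ _ B r n hB hdvd hle
  have hFA : Fintype A := Fintype.ofFinite A
  obtain ⟨m, hm⟩ := hdvd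
  obtain ⟨P, hP⟩ : ∃ P, P = Nat.card A := ⟨_, rfl⟩
  have hcard : Fintype.card A = P := by rw [hP, Nat.card_eq_fintype_card]
  obtain ⟨b, hb⟩ : ∃ b, b = Nat.card (B r) := ⟨_, rfl⟩
  have hb1 : 1 ≤ b := by
    rw [hb]
    exact Nat.card_pos
  have hbP : b ≤ P := by
    rw [hb, hP]
    exact Subgroup.card_le_card_group (B r)
  rw [← hP] at hm hle
  have hP1 : 1 ≤ P := le_trans hb1 hbP
  have hm3 : 3 ≤ m := by
    by_contra h
    have h1 : P * m ≤ P * 2 := Nat.mul_le_mul_left P (by omega)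
    omega
  obtain ⟨M, hM⟩ : ∃ M, M = m / 3 := ⟨_, rfl⟩
  have hM1 : 1 ≤ M := by omega
  have hM3 : 3 * M ≤ m := by omega
  have hM5 : m ≤ 5 * M := by omega
  have hMne : NeZero M := ⟨by omega⟩
  have hn3 : 3 ≤ n := by
    have h1 : 3 * 1 ≤ 3 * P := Nat.mul_le_mul_left 3 hP1
    omega
  have hMPn : 3 * (M * P) ≤ n := by
    rw [hm]
    calc 3 * (M * P) = P * (3 * M) := by ring
      _ ≤ P * m := Nat.mul_le_mul_left P hM3
  obtain ⟨B0, hB0, hB0c⟩ := hapf M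
  obtain ⟨T, hT, hTc⟩ := mat_of_apf hB0
  obtain ⟨S, hS, -, hSc⟩ := hchain A B r hB
  obtain ⟨H, φ, h1, h2, h3, h4, h5⟩ := buildM (A := A) (M := M) (n := n)
    (by rw [hcard, hm]; exact Dvd.intro m rfl) (by rw [hcard]; exact hMPn) hS hT
  refine ⟨H, φ, h1, h2, h3, h4, ?_⟩
  rw [h5, hcard, hTc, ← hP, ← hb]
  rw [← hb] at hSc
  push_cast
  have hMle : M ≤ n := by
    have : M * 1 ≤ M * P := Nat.mul_le_mul_left M hP1
    omega
  have hPle : P ≤ n := by omega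
  have hble : b ≤ n := by omega
  have hlog0 : (0 : ℝ) ≤ log n := Real.log_nonneg (by
    have : (3 : ℝ) ≤ n := by exact_mod_cast hn3
    linarith)
  have hr0 : (0 : ℝ) ≤ r := Nat.cast_nonneg r
  obtain ⟨t, ht⟩ : ∃ t : ℝ, t = √((r + 1) * log (n : ℝ)) := ⟨_, rfl⟩
  have hnt : √(log (n : ℝ)) ≤ t := by
    rw [ht]
    refine Real.sqrt_le_sqrt ?_
    nlinarith
  have ht1 : 1 ≤ t := (lc_one hn3).trans hnt
  have hM2 : √(log (M : ℝ)) ≤ t := (lc_mono hM1 hMle).trans hnt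
  have hb2 : √(r * log (b : ℝ)) ≤ t := by
    rw [ht]
    refine Real.sqrt_le_sqrt ?_
    have h6 : (0 : ℝ) < b := by exact_mod_cast hb1
    have h7 : log (b : ℝ) ≤ log n := Real.log_le_log h6 (by exact_mod_cast hble)
    have h8 : (r : ℝ) * log (b : ℝ) ≤ r * log n := mul_le_mul_of_nonneg_left h7 hr0
    linarith
  rw [← ht]
  have hM0 : (0 : ℝ) < M := by exact_mod_cast hM1
  have hP0 : (0 : ℝ) < P := by exact_mod_cast hP1
  have hb0 : (0 : ℝ) < b := by exact_mod_cast hb1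
  have e1 : (M : ℝ) * exp (-C1 * t) ≤ B0.card := by
    refine le_trans (mul_le_mul_of_nonneg_left (Real.exp_le_exp.2 ?_) hM0.le) hB0c
    nlinarith
  have e2 : (b : ℝ) * exp (-C2 * t) ≤ S.card := by
    refine le_trans (mul_le_mul_of_nonneg_left (Real.exp_le_exp.2 ?_) hb0.le) hSc
    nlinarith
  have e4 : ((b : ℝ) * exp (-C2 * t)) * ((M : ℝ) * exp (-C1 * t)) ≤
      (S.card : ℝ) * B0.card := mul_le_mul e2 e1 (by positivity) (by positivity)
  have e6 := lc_exp ht1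
  have e7 : exp (-(C1 + C2 + 4) * t) * 25 ≤ exp (-C1 * t) * exp (-C2 * t) := by
    calc exp (-(C1 + C2 + 4) * t) * 25 ≤ exp (-(C1 + C2 + 4) * t) * exp (4 * t) :=
          mul_le_mul_of_nonneg_left e6 (Real.exp_pos _).le
      _ = exp (-C1 * t) * exp (-C2 * t) := by
          rw [← Real.exp_add, ← Real.exp_add]
          congr 1
          ring
  have e8 : (n : ℝ) ≤ 5 * (M * P) := by
    have h6 : n ≤ 5 * (M * P) := by
      rw [hm]
      calc P * m ≤ P * (5 * M) := Nat.mul_le_mul_left P hM5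
        _ = 5 * (M * P) := by ring
    exact_mod_cast h6
  have e9 : (n : ℝ) ^ 2 ≤ 25 * ((M : ℝ) * P) ^ 2 := by
    have h6 : (n : ℝ) ^ 2 ≤ (5 * ((M : ℝ) * P)) ^ 2 := pow_le_pow_left₀ (Nat.cast_nonneg _) e8 2
    linarith
  obtain ⟨F, hF⟩ : ∃ F : ℝ, F = exp (-(C1 + C2 + 4) * t) := ⟨_, rfl⟩
  have hF0 : 0 < F := by rw [hF]; exact Real.exp_pos _
  rw [← hF] at e7 ⊢
  have hbP0 : (0 : ℝ) ≤ (b : ℝ) / P := by positivity
  calc (n : ℝ) ^ 2 * ((b : ℝ) / P) * F ≤ (25 * ((M : ℝ) * P) ^ 2) * ((b : ℝ) / P) * F :=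
        mul_le_mul_of_nonneg_right (mul_le_mul_of_nonneg_right e9 hbP0) hF0.le
    _ = ((M : ℝ) * P) ^ 2 * ((b : ℝ) / P) * (F * 25) := by ring
    _ ≤ ((M : ℝ) * P) ^ 2 * ((b : ℝ) / P) * (exp (-C1 * t) * exp (-C2 * t)) :=
        mul_le_mul_of_nonneg_left e7 (by positivity)
    _ = (M : ℝ) * P * (((b : ℝ) * exp (-C2 * t)) * ((M : ℝ) * exp (-C1 * t))) := by
        field_simp
    _ ≤ (M : ℝ) * P * ((S.card : ℝ) * B0.card) :=
        mul_le_mul_of_nonneg_left e4 (by positivity)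

end Pool.Agent.SXQ
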