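import Pool.Agent.SXQ.Jor

/-!
# SXQ-JRep: Jordan's theorem for permutation groups; a bound for quasiprimitive groups

Proof of `jordan_perm`. Let `d = finrank ℝ W`. As in `SXQ/Inv.lean` (read its proof, copy) the group `G` acts linearly on `W`
by `f ↦ (x ↦ f (g⁻¹ x))`, which gives `ρ : G →* GL (Fin d) ℝ`; it is injective by `hf`. `G` is finite. Apply `jordan`.

Proof of `card_le_qprim`. If `N = ⊥`, then `Nat.card G = N.index` and `1 ≤ card V`. Otherwise `N` is transitive; fix
`x : V`. The map `N → V`, `g ↦ g x` is injective: if `g x = h x` and `y : V`, `y = t x` with `t ∈ N`, then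
`g y = g (t x) = t (g x) = t (h x) = h (t x) = h y` because `N` is commutative. So `Nat.card N ≤ card V` and
`Nat.card G = Nat.card N * N.index`.
-/

set_option autoImplicit false

namespace Pool.Agent.SXQ

/-- the action on the invariant space `W` -/
private def jrT {V : Type*} (G : Subgroup (Equiv.Perm V)) (W : Submodule ℝ (V → ℝ))
    (hW : ∀ g ∈ G, ∀ f ∈ W, (fun x => f (g x)) ∈ W) : G →* Module.End ℝ W where
  toFun g :=
    { toFun := fun f => ⟨fun x => f.1 ((g⁻¹ : G).1 x), hW _ (g⁻¹ : G).2 f.1 f.2⟩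
      map_add' := fun f f' => rfl
      map_smul' := fun c f => rfl }
  map_one' := by
    apply LinearMap.ext
    intro f
    apply Subtype.ext
    funext x
    show f.1 (((1 : G)⁻¹ : G).1 x) = f.1 x
    rw [inv_one]
    rfl
  map_mul' := fun g h => by
    apply LinearMap.ext
    intro f
    apply Subtype.ext
    funext x
    show f.1 (((g * h)⁻¹ : G).1 x) = f.1 ((h⁻¹ : G).1 ((g⁻¹ : G).1 x))
    rw [mul_inv_rev]
    rfl

theorem jordan_perm {V : Type*} [Fintype V] (G : Subgroup (Equiv.Perm V))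
    (W : Submodule ℝ (V → ℝ)) (hW : ∀ g ∈ G, ∀ f ∈ W, (fun x => f (g x)) ∈ W)
    (hf : ∀ g ∈ G, (∀ f ∈ W, ∀ x, f (g x) = f x) → g = 1) :
    ∃ N : Subgroup G, N.Normal ∧ (∀ x ∈ N, ∀ y ∈ N, x * y = y * x) ∧
      N.index ≤ 5 ^ (Module.finrank ℝ W * Module.finrank ℝ W) := by
  classical
  obtain ⟨b⟩ : Nonempty (Module.Basis (Fin (Module.finrank ℝ W)) ℝ W) := ⟨Module.finBasis ℝ W⟩
  have hfin : Finite (Equiv.Perm V) := inferInstance
  have hfG : Finite G := inferInstance
  refine jordan (MonoidHom.toHomUnits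
    (((LinearMap.toMatrixAlgEquiv b).toRingEquiv.toMonoidHom).comp (jrT G W hW))) ?_
  rw [injective_iff_map_eq_one]
  intro g hg
  have h2 : LinearMap.toMatrixAlgEquiv b (jrT G W hW g) = 1 := congrArg Units.val hg
  have h3 : jrT G W hW g = 1 := by
    apply (LinearMap.toMatrixAlgEquiv b).injective
    rw [h2, map_one]
  have h4 : (g⁻¹ : G).1 = 1 := by
    refine hf _ (g⁻¹ : G).2 fun f hfW x => ?_
    have h5 : (jrT G W hW g ⟨f, hfW⟩).1 x = f x := by
      rw [h3]
      rfl
    exact h5
  have h5 : (g⁻¹ : G) = 1 := Subtype.ext h4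
  exact inv_eq_one.1 h5

theorem card_le_qprim {V : Type*} [Fintype V] [Nonempty V] (G : Subgroup (Equiv.Perm V))
    (hq : ∀ N : Subgroup G, N.Normal →
      N = ⊥ ∨ ∀ x y : V, ∃ g ∈ N, (g : Equiv.Perm V) x = y)
    (N : Subgroup G) (hN : N.Normal) (hc : ∀ x ∈ N, ∀ y ∈ N, x * y = y * x) :
    Nat.card G ≤ Fintype.card V * N.index := by
  have hfin : Finite (Equiv.Perm V) := inferInstance
  have hfG : Finite G := inferInstance
  rw [← N.card_mul_index]
  refine Nat.mul_le_mul_right _ ?_
  rcases hq N hN with h | h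
  · rw [h, Subgroup.card_bot]
    exact Fintype.card_pos
  · obtain ⟨x⟩ := (inferInstance : Nonempty V)
    rw [← Nat.card_eq_fintype_card]
    refine Nat.card_le_card_of_injective (fun g : N => (g : G).1 x) ?_
    intro g g' hgg
    have hgg' : (g : G).1 x = (g' : G).1 x := hgg
    apply Subtype.ext
    apply Subtype.ext
    apply Equiv.ext
    intro y
    obtain ⟨t, ht, rfl⟩ := h x y
    have e1 : ∀ s : N, (s : G).1 (t.1 x) = t.1 ((s : G).1 x) := by
      intro s
      have := hc s s.2 t ht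
      have h2 := congrArg (fun u : G => u.1 x) this
      exact h2
    rw [e1, e1, hgg']

end Pool.Agent.SXQ
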