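import Pool.Agent.SXQ.Top
import Pool.Agent.SXQ.JRep
import Pool.Agent.SXQ.Sh

/-!
# SXQ-Prim: (6,3)-free 3-graphs with a quasiprimitive group of automorphisms

A spectral argument with the top singular space of the centred adjacency matrix of the shadow.
-/

set_option autoImplicit false

namespace Pool.Agent.SXQ

open Finset Pool.Agent.RSV Pool.Agent.SXS

/-- the adjacency matrix of the shadow -/
private noncomputable def aa {V : Type*} [Fintype V] [DecidableEq V] (H : Finset (Finset V))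
    (x y : V) : ℝ := if y ∈ nb H x then 1 else 0

private theorem aa_comm {V : Type*} [Fintype V] [DecidableEq V] (H : Finset (Finset V))
    (x y : V) : aa H x y = aa H y x := by
  unfold aa
  exact if_congr (mem_nb_comm H x y) rfl rfl

private theorem three_card_nat {V : Type*} [Fintype V] [DecidableEq V] {H : Finset (Finset V)}
    (h3 : Three H) (hN : NoTri H) :
    3 * H.card ≤ (univ.filter fun w : V × V => w.2 ∈ nb H w.1).card := by
  obtain ⟨P, hP⟩ : ∃ P : Finset (V × V), P = univ.filter fun w : V × V => w.2 ∈ nb H w.1 :=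
    ⟨_, rfl⟩
  rw [← hP]
  have hlow : ∀ e ∈ H,
      6 ≤ (P.bipartiteAbove (fun (e : Finset V) (w : V × V) => w.1 ∈ e ∧ w.2 ∈ e) e).card := by
    intro e he
    have h1 : e.offDiag.card = 6 := by rw [offDiag_card, h3 e he]
    rw [← h1]
    apply card_le_card
    intro w hw
    rw [mem_offDiag] at hw
    simp only [bipartiteAbove, mem_filter, hP, nb, mem_univ, true_and]
    exact ⟨⟨hw.2.2.symm, e, he, hw.2.1, hw.1⟩, hw.1, hw.2.1⟩
  have hup : ∀ w ∈ P, (H.bipartiteBelow
      (fun (e : Finset V) (w : V × V) => w.1 ∈ e ∧ w.2 ∈ e) w).card ≤ 2 := by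
    intro w hw
    simp only [hP, mem_filter, mem_univ, true_and, nb] at hw
    exact pair_le h3 hN hw.1.symm
  have h1 : H.card * 6 ≤ P.card * 2 := by
    calc H.card * 6 = ∑ _e ∈ H, 6 := by rw [sum_const, smul_eq_mul]
      _ ≤ ∑ e ∈ H,
          (P.bipartiteAbove (fun (e : Finset V) (w : V × V) => w.1 ∈ e ∧ w.2 ∈ e) e).card :=
        sum_le_sum hlow
      _ = ∑ w ∈ P, (H.bipartiteBelow
          (fun (e : Finset V) (w : V × V) => w.1 ∈ e ∧ w.2 ∈ e) w).card :=
        sum_card_bipartiteAbove_eq_sum_card_bipartiteBelow _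
      _ ≤ ∑ _w ∈ P, 2 := sum_le_sum hup
      _ = P.card * 2 := by rw [sum_const, smul_eq_mul]
  omega

private theorem three_card {V : Type*} [Fintype V] [DecidableEq V] {H : Finset (Finset V)}
    (h3 : Three H) (hN : NoTri H) : 3 * (H.card : ℝ) ≤ ∑ x, ∑ y, aa H x y := by
  have h1 : ∑ x, ∑ y, aa H x y =
      ((univ.filter fun w : V × V => w.2 ∈ nb H w.1).card : ℝ) := by
    rw [card_filter, Nat.cast_sum, Fintype.sum_prod_type]
    refine sum_congr rfl fun x _ => sum_congr rfl fun y _ => ?_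
    unfold aa
    split_ifs <;> simp
  rw [h1]
  exact_mod_cast three_card_nat h3 hN

private theorem tri_le {V : Type*} [Fintype V] [DecidableEq V] {H : Finset (Finset V)}
    (h3 : Three H) (hN : NoTri H) :
    ∑ u, ∑ v, ∑ w, aa H u v * aa H v w * aa H u w ≤ 2 * ∑ u, ∑ v, aa H u v := by
  rw [mul_sum]
  refine sum_le_sum fun u _ => ?_
  rw [mul_sum]
  refine sum_le_sum fun v _ => ?_
  by_cases h : v ∈ nb H u
  · have h1 : aa H u v = 1 := if_pos h
    simp only [h1, one_mul, mul_one]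
    have h2 : ∑ w, aa H v w * aa H u w
        = ∑ w, (if w ∈ nb H v ∧ w ∈ nb H u then (1 : ℝ) else 0) := by
      refine Finset.sum_congr rfl fun w _ => ?_
      unfold aa
      by_cases h4 : w ∈ nb H v <;> by_cases h5 : w ∈ nb H u <;> simp [h4, h5]
    rw [h2, ← sum_filter, sum_const, nsmul_eq_mul, mul_one]
    exact_mod_cast cod_le h3 hN h
  · have h1 : aa H u v = 0 := if_neg h
    simp only [h1, zero_mul, sum_const_zero, mul_zero]
    exact le_refl _

private theorem prim_exp {X Y Z : Type*} [Fintype X] [Fintype Y] [Fintype Z]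
    (P : X → Y → ℝ) (Q : Y → Z → ℝ) (R : X → Z → ℝ) (p q r : ℝ)
    (rP : ∀ x, ∑ y, (P x y - p) = 0) (rQ : ∀ y, ∑ z, (Q y z - q) = 0)
    (cQ : ∀ z, ∑ y, (Q y z - q) = 0) (rR : ∀ x, ∑ z, (R x z - r) = 0) :
    ∑ x, ∑ y, ∑ z, P x y * Q y z * R x z =
      p * q * r * (Fintype.card X * Fintype.card Y * Fintype.card Z) +
        ∑ x, ∑ y, ∑ z, (P x y - p) * (Q y z - q) * (R x z - r) := by
  have e : ∀ x y z, P x y * Q y z * R x z = (P x y - p) * (Q y z - q) * (R x z - r) +
      (p * ((Q y z - q) * (R x z - r)) + q * ((P x y - p) * (R x z - r)) +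
        r * ((P x y - p) * (Q y z - q)) + p * q * (R x z - r) + p * r * (Q y z - q) +
        q * r * (P x y - p) + p * q * r) := by
    intro x y z
    ring
  have z1 : ∀ x, ∑ y, ∑ z, (Q y z - q) * (R x z - r) = 0 := by
    intro x
    rw [sum_comm]
    refine sum_eq_zero fun z _ => ?_
    rw [← sum_mul, cQ, zero_mul]
  have z2 : ∀ x y, ∑ z, (P x y - p) * (R x z - r) = 0 := by
    intro x y
    rw [← mul_sum, rR, mul_zero]
  have z3 : ∀ x y, ∑ z, (P x y - p) * (Q y z - q) = 0 := by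
    intro x y
    rw [← mul_sum, rQ, mul_zero]
  have z6 : ∀ x, ∑ y, ∑ _z : Z, (P x y - p) = 0 := by
    intro x
    rw [sum_comm]
    exact sum_eq_zero fun z _ => rP x
  have z4 : ∀ x, ∑ y : Y, ∑ z, (R x z - r) = 0 := fun x => sum_eq_zero fun y _ => rR x
  have z5 : ∑ y, ∑ z, (Q y z - q) = 0 := sum_eq_zero fun y _ => rQ y
  have z2' : ∀ x, ∑ y, ∑ z, (P x y - p) * (R x z - r) = 0 := fun x => sum_eq_zero fun y _ => z2 x y
  have z3' : ∀ x, ∑ y, ∑ z, (P x y - p) * (Q y z - q) = 0 := fun x => sum_eq_zero fun y _ => z3 x y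
  have z7 : ∑ _y : Y, ∑ _z : Z, p * q * r = p * q * r * (Fintype.card Y * Fintype.card Z) := by
    simp only [sum_const, card_univ, nsmul_eq_mul]
    ring
  have e2 : ∀ x, ∑ y, ∑ z, P x y * Q y z * R x z =
      ∑ y, ∑ z, (P x y - p) * (Q y z - q) * (R x z - r) +
        p * q * r * (Fintype.card Y * Fintype.card Z) := by
    intro x
    have e3 : ∑ y, ∑ z, P x y * Q y z * R x z =
      ∑ y, ∑ z, (P x y - p) * (Q y z - q) * (R x z - r) +
      (p * ∑ y, ∑ z, (Q y z - q) * (R x z - r) + q * ∑ y, ∑ z, (P x y - p) * (R x z - r) +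
        r * ∑ y, ∑ z, (P x y - p) * (Q y z - q) + p * q * ∑ _y : Y, ∑ z, (R x z - r) +
        p * r * ∑ y, ∑ z, (Q y z - q) +
        q * r * ∑ y, ∑ _z : Z, (P x y - p) + ∑ _y : Y, ∑ _z : Z, p * q * r) := by
      simp only [e, sum_add_distrib, mul_sum]
    rw [e3, z1, z2', z3', z4, z5, z6, z7]
    ring
  rw [sum_congr rfl fun x _ => e2 x, sum_add_distrib, sum_const, card_univ, nsmul_eq_mul]
  ring

private theorem cs2 {X Y : Type*} [Fintype X] [Fintype Y] (F M : X → Y → ℝ) :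
    (∑ x, ∑ y, F x y * M x y) ^ 2 ≤ (∑ x, ∑ y, F x y ^ 2) * ∑ x, ∑ y, M x y ^ 2 := by
  have h := sum_mul_sq_le_sq_mul_sq (univ : Finset (X × Y)) (fun w => F w.1 w.2)
    (fun w => M w.1 w.2)
  rw [Fintype.sum_prod_type, Fintype.sum_prod_type, Fintype.sum_prod_type] at h
  exact h

theorem prim_noTri {V : Type*} [Fintype V] [DecidableEq V] {H : Finset (Finset V)}
    (h3 : Three H) (hN : NoTri H) (G : Subgroup (Equiv.Perm V))
    (hA : ∀ g ∈ G, ∀ e ∈ H, e.image g ∈ H) (hT : ∀ x y : V, ∃ g ∈ G, g x = y)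
    (hq : ∀ N : Subgroup G, N.Normal → N = ⊥ ∨ ∀ x y : V, ∃ g ∈ N, (g : Equiv.Perm V) x = y)
    {ε : ℝ} (hε : 0 < ε) (he : ε * (Fintype.card V : ℝ) ^ 2 ≤ H.card)
    (hn : 4 ≤ 9 * ε ^ 2 * Fintype.card V) :
    ∃ m : ℕ, (m : ℝ) ≤ 4 / (27 * ε ^ 3) ∧ Nat.card G ≤ Fintype.card V * 5 ^ (m * m) := by
  have hA' : Auts H G.subtype := fun g e he => hA g.1 g.2 e he
  have hinv : ∀ g ∈ G, ∀ x y : V, aa H (g x) (g y) = aa H x y := by
    intro g hg x y
    unfold aa
    exact if_congr (nb_inv hA' ⟨g, hg⟩ x y) rfl rfl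
  have hn0 : (0 : ℝ) < Fintype.card V := by
    by_contra hcon
    have h1 : (0 : ℝ) < 9 * ε ^ 2 := by positivity
    nlinarith
  obtain ⟨n, hndef⟩ : ∃ n : ℝ, n = (Fintype.card V : ℝ) := ⟨_, rfl⟩
  rw [← hndef] at he hn hn0
  obtain ⟨p, hpdef⟩ : ∃ p : ℝ, p = (∑ x, ∑ y, aa H x y) / n ^ 2 := ⟨_, rfl⟩
  have hE : ∑ x, ∑ y, aa H x y = p * (n * n) := by
    rw [hpdef]
    field_simp
  have hp3 : 3 * ε ≤ p := by
    have h1 := three_card h3 hN
    have h2 : 3 * ε * (n * n) ≤ p * (n * n) := by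
      rw [← hE]
      nlinarith
    exact le_of_mul_le_mul_right h2 (by positivity)
  have hp0 : 0 < p := by linarith
  have hpn : 4 ≤ p ^ 2 * n := by
    have h1 : (3 * ε) ^ 2 ≤ p ^ 2 := pow_le_pow_left₀ (by positivity) hp3 2
    nlinarith
  have hrow : ∀ x, ∑ y, aa H x y = p * n := by
    intro x
    have h1 : ∀ x' : V, ∑ y, aa H x' y = ∑ y, aa H x y := by
      intro x'
      obtain ⟨g, hg, hgx⟩ := hT x x'
      rw [← hgx, ← Equiv.sum_comp g (fun y => aa H (g x) y)]
      exact sum_congr rfl fun y _ => hinv g hg x y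
    rw [sum_congr rfl fun x' _ => h1 x', sum_const, card_univ, nsmul_eq_mul, ← hndef] at hE
    have h2 : n * (∑ y, aa H x y - p * n) = 0 := by
      rw [mul_sub, hE]
      ring
    rcases mul_eq_zero.1 h2 with h3 | h3
    · exact absurd h3 hn0.ne'
    · linarith
  have rM : ∀ x, ∑ y, (aa H x y - p) = 0 := by
    intro x
    rw [sum_sub_distrib, hrow, sum_const, card_univ, nsmul_eq_mul, ← hndef]
    ring
  have cM : ∀ y, ∑ x, (aa H x y - p) = 0 := by
    intro y
    rw [← rM y]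
    exact sum_congr rfl fun x _ => by rw [aa_comm]
  have hexp := prim_exp (aa H) (aa H) (aa H) p p p rM rM cM rM
  rw [← hndef] at hexp
  have hT2 := tri_le h3 hN
  rw [hexp, hE] at hT2
  have hsq : ∑ x, ∑ y, (aa H x y - p) ^ 2 ≤ p * (n * n) := by
    have h1 : ∀ x y, (aa H x y - p) ^ 2 = (1 - 2 * p) * aa H x y + p ^ 2 := by
      intro x y
      unfold aa
      split_ifs <;> ring
    simp only [h1, sum_add_distrib, ← mul_sum, hE, sum_const, card_univ, nsmul_eq_mul, ← hndef]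
    have h2 : (0 : ℝ) ≤ p ^ 2 * (n * n) := by positivity
    nlinarith
  obtain ⟨Q, hQ⟩ : ∃ Q : ℝ, Q = ∑ x, ∑ y, ∑ z, (aa H x y - p) * (aa H y z - p) * (aa H x z - p) :=
    ⟨_, rfl⟩
  rw [← hQ] at hT2
  have hQlow : p ^ 3 * n ^ 3 / 2 ≤ -Q := by
    have h1 : 4 * (p * (n * n)) ≤ p ^ 2 * n * (p * (n * n)) :=
      mul_le_mul_of_nonneg_right hpn (by positivity)
    nlinarith
  have hpos3 : 0 < p ^ 3 * n ^ 3 := by positivity
  have hM0 : ∃ x y, (fun x y : V => aa H x y - p) x y ≠ 0 := by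
    by_contra hcon
    push Not at hcon
    have h1 : Q = 0 := by
      rw [hQ]
      refine sum_eq_zero fun x _ => sum_eq_zero fun y _ => sum_eq_zero fun z _ => ?_
      have h2 : aa H x y - p = 0 := hcon x y
      rw [h2]
      ring
    linarith
  obtain ⟨lam, W, hlam, hWne, hWiff, hWdim, hWmax⟩ := top_space (fun x y : V => aa H x y - p) hM0
  obtain ⟨S2, hS2⟩ : ∃ S2 : ℝ, S2 = ∑ x, ∑ y, (aa H x y - p) ^ 2 := ⟨_, rfl⟩
  have hS20 : 0 ≤ S2 := by
    rw [hS2]
    positivity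
  have hQ2 : Q ^ 2 ≤ lam * S2 * S2 := by
    have h1 : Q = ∑ x, ∑ z, (∑ y, (aa H x y - p) * (aa H y z - p)) * (aa H x z - p) := by
      rw [hQ]
      refine sum_congr rfl fun x _ => ?_
      rw [sum_comm]
      exact sum_congr rfl fun z _ => by rw [sum_mul]
    rw [h1]
    refine (cs2 _ _).trans ?_
    rw [← hS2]
    refine mul_le_mul_of_nonneg_right ?_ hS20
    rw [sum_comm]
    calc ∑ z, ∑ x, (∑ y, (aa H x y - p) * (aa H y z - p)) ^ 2
        ≤ ∑ z, lam * ∑ y, (aa H y z - p) ^ 2 := sum_le_sum fun z _ => hWmax _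
      _ = lam * S2 := by rw [← mul_sum, sum_comm, hS2]
  rw [← hS2] at hsq hWdim
  have hlamlow : p ^ 4 * n ^ 2 / 4 ≤ lam := by
    have h1 : (p ^ 3 * n ^ 3 / 2) ^ 2 ≤ (-Q) ^ 2 := pow_le_pow_left₀ (by positivity) hQlow 2
    have h2 : lam * S2 * S2 ≤ lam * (p * (n * n)) * (p * (n * n)) := by
      have h4 : S2 * S2 ≤ (p * (n * n)) * (p * (n * n)) := mul_le_mul hsq hsq hS20 (by positivity)
      have h5 := mul_le_mul_of_nonneg_left h4 hlam.le
      calc lam * S2 * S2 = lam * (S2 * S2) := by ring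
        _ ≤ lam * ((p * (n * n)) * (p * (n * n))) := h5
        _ = _ := by ring
    have h6 : (p ^ 2 * n ^ 4) * (p ^ 4 * n ^ 2 / 4) ≤ (p ^ 2 * n ^ 4) * lam := by
      calc (p ^ 2 * n ^ 4) * (p ^ 4 * n ^ 2 / 4) = (p ^ 3 * n ^ 3 / 2) ^ 2 := by ring
        _ ≤ (-Q) ^ 2 := h1
        _ = Q ^ 2 := by ring
        _ ≤ lam * S2 * S2 := hQ2
        _ ≤ lam * (p * (n * n)) * (p * (n * n)) := h2
        _ = (p ^ 2 * n ^ 4) * lam := by ring
    exact le_of_mul_le_mul_left h6 (by positivity)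
  have hWinv : ∀ g ∈ G, ∀ f ∈ W, (fun x => f (g x)) ∈ W := by
    intro g hg f hf
    rw [hWiff] at hf ⊢
    intro y
    rw [← hf (g y), ← Equiv.sum_comp g (fun x => (aa H x (g y) - p) *
      ∑ y', (aa H x y' - p) * f y')]
    refine sum_congr rfl fun x _ => ?_
    rw [hinv g hg, ← Equiv.sum_comp g (fun y' => (aa H (g x) y' - p) * f y')]
    congr 1
    exact sum_congr rfl fun y' _ => by rw [hinv g hg]
  let K : Subgroup G :=
    { carrier := {g | ∀ f ∈ W, ∀ x, f ((g : Equiv.Perm V) x) = f x}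
      mul_mem' := by
        intro a b ha hb f hf x
        rw [Subgroup.coe_mul, Equiv.Perm.mul_apply, ha f hf, hb f hf]
      one_mem' := by
        intro f hf x
        rfl
      inv_mem' := by
        intro a ha f hf x
        have h1 := ha f hf (((a⁻¹ : G) : Equiv.Perm V) x)
        rw [← h1, Subgroup.coe_inv]
        congr 1
        exact (a : Equiv.Perm V).apply_symm_apply x }
  have hKmem : ∀ g : G, g ∈ K ↔ ∀ f ∈ W, ∀ x, f ((g : Equiv.Perm V) x) = f x := fun g => Iff.rfl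
  have hKn : K.Normal := by
    constructor
    intro g hg h
    rw [hKmem] at hg ⊢
    intro f hf x
    have h1 := hg _ (hWinv h h.2 f hf) (((h⁻¹ : G) : Equiv.Perm V) x)
    change f ((h : Equiv.Perm V) ((g : Equiv.Perm V) (((h⁻¹ : G) : Equiv.Perm V) x))) =
      f ((h : Equiv.Perm V) (((h⁻¹ : G) : Equiv.Perm V) x)) at h1
    rw [Subgroup.coe_mul, Subgroup.coe_mul, Equiv.Perm.mul_apply, Equiv.Perm.mul_apply, h1,
      Subgroup.coe_inv]
    congr 1
    exact (h : Equiv.Perm V).apply_symm_apply x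
  have hK : K = ⊥ := by
    rcases hq K hKn with h | h
    · exact h
    · exfalso
      apply hWne
      rw [eq_bot_iff]
      intro f hf
      rw [Submodule.mem_bot]
      funext y
      have h1 := (hWiff f).1 hf y
      have h2 : ∀ y', f y' = f y := by
        intro y'
        obtain ⟨g, hg, hgy⟩ := h y y'
        rw [← hgy]
        exact (hKmem g).1 hg f hf y
      have h4 : ∀ x, ∑ y', (aa H x y' - p) * f y' = 0 := by
        intro x
        rw [sum_congr rfl fun y' _ => by rw [h2 y'], ← sum_mul, rM, zero_mul]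
      rw [sum_eq_zero fun x _ => by rw [h4 x, mul_zero]] at h1
      rcases mul_eq_zero.1 h1.symm with h5 | h5
      · exact absurd h5 hlam.ne'
      · exact h5
  obtain ⟨N, hNn, hNc, hNi⟩ := jordan_perm G W hWinv (by
    intro g hg h
    have h1 : (⟨g, hg⟩ : G) ∈ K := h
    rw [hK, Subgroup.mem_bot] at h1
    exact congrArg Subtype.val h1)
  have hVne : Nonempty V := by
    rw [hndef] at hn0
    exact Fintype.card_pos_iff.1 (by exact_mod_cast hn0)
  refine ⟨Module.finrank ℝ W, ?_, ?_⟩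
  · rw [le_div_iff₀ (by positivity)]
    have h1 : (Module.finrank ℝ W : ℝ) * (p ^ 4 * n ^ 2 / 4) ≤ p * (n * n) :=
      (mul_le_mul_of_nonneg_left hlamlow (Nat.cast_nonneg _)).trans (hWdim.trans hsq)
    have h2 : (p * n ^ 2) * ((Module.finrank ℝ W : ℝ) * p ^ 3) ≤ (p * n ^ 2) * 4 := by
      calc (p * n ^ 2) * ((Module.finrank ℝ W : ℝ) * p ^ 3)
          = 4 * ((Module.finrank ℝ W : ℝ) * (p ^ 4 * n ^ 2 / 4)) := by ring
        _ ≤ 4 * (p * (n * n)) := by linarith
        _ = _ := by ring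
    have h4 := le_of_mul_le_mul_left h2 (by positivity)
    have h5 : (3 * ε) ^ 3 ≤ p ^ 3 := pow_le_pow_left₀ (by positivity) hp3 3
    calc (Module.finrank ℝ W : ℝ) * (27 * ε ^ 3) = (Module.finrank ℝ W : ℝ) * (3 * ε) ^ 3 := by ring
      _ ≤ (Module.finrank ℝ W : ℝ) * p ^ 3 := mul_le_mul_of_nonneg_left h5 (Nat.cast_nonneg _)
      _ ≤ 4 := h4
  · exact (card_le_qprim G hq N hNn hNc).trans (Nat.mul_le_mul_left _ hNi)

/-- the bound for quasiprimitive groups of automorphisms in terms of the number of orbits of edges -/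
theorem prim_bound {n : ℕ} (hn6 : 6 ≤ n) {A : Type*} [Group A] {H : Finset (Finset (Fin n))}
    (h3 : Three H) (h6 : SixThree H) {φ : A →* Equiv.Perm (Fin n)} (hA : Auts H φ)
    (hT : Tran φ) (hq : ∀ K : Subgroup A, K.Normal →
      (∀ g ∈ K, φ g = 1) ∨ ∀ x y : Fin n, ∃ g ∈ K, φ g x = y)
    {S : Finset (Finset (Fin n))} (hS : ∀ e ∈ H, ∃ s ∈ S, ∃ g : A, s.image (φ g) = e)
    (hSn : S.card < n) :
    (H.card : ℝ) ≤ (n : ℝ) ^ 2 * Real.log ((n : ℝ) / S.card) ^ (-(1 / 6) : ℝ) := by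
  classical
  have hN := noTri_of_sixThree hn6 h6
  have hnR : (6 : ℝ) ≤ n := by exact_mod_cast hn6
  rcases H.eq_empty_or_nonempty with hH | ⟨e0, he0⟩
  · rw [hH, card_empty, Nat.cast_zero]
    refine mul_nonneg (by positivity) (Real.rpow_nonneg ?_ _)
    rcases Nat.eq_zero_or_pos S.card with h | h
    · rw [h, Nat.cast_zero, div_zero, Real.log_zero]
    · apply Real.log_nonneg
      rw [one_le_div (by exact_mod_cast h)]
      exact_mod_cast hSn.le
  obtain ⟨s0, hs0, -⟩ := hS e0 he0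
  have hk0 : 0 < S.card := card_pos.2 ⟨s0, hs0⟩
  have hkR : (1 : ℝ) ≤ S.card := by exact_mod_cast hk0
  have hkn : (S.card : ℝ) < n := by exact_mod_cast hSn
  obtain ⟨k, hk⟩ : ∃ k : ℝ, k = (S.card : ℝ) := ⟨_, rfl⟩
  have hH0 : (0 : ℝ) < H.card := by exact_mod_cast card_pos.2 ⟨e0, he0⟩
  obtain ⟨ε, hε⟩ : ∃ ε : ℝ, ε = (H.card : ℝ) / (n : ℝ) ^ 2 := ⟨_, rfl⟩
  have hn0 : (0 : ℝ) < n := by linarith
  have hε0 : 0 < ε := by
    rw [hε]
    positivity
  have hHε : (H.card : ℝ) = ε * (n : ℝ) ^ 2 := by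
    rw [hε]
    field_simp
  have hε1 : ε ≤ 1 := by
    have h1 := three_card_nat h3 hN
    have h2 := card_le_univ (univ.filter fun w : Fin n × Fin n => w.2 ∈ nb H w.1)
    rw [Fintype.card_prod, Fintype.card_fin] at h2
    have h4 : H.card ≤ n * n := by omega
    rw [hε, div_le_one (by positivity)]
    calc (H.card : ℝ) ≤ ((n * n : ℕ) : ℝ) := by exact_mod_cast h4
      _ = (n : ℝ) ^ 2 := by push_cast; ring
  rw [← hk] at hkR hkn ⊢
  have hk0' : 0 < k := by linarith
  obtain ⟨L, hL⟩ : ∃ L : ℝ, L = Real.log ((n : ℝ) / k) := ⟨_, rfl⟩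
  have hL0 : 0 < L := by
    rw [hL]
    apply Real.log_pos
    rw [one_lt_div hk0']
    exact hkn
  have key : ε ^ 6 * L ≤ 1 := by
    by_cases hc : 4 ≤ 9 * ε ^ 2 * (n : ℝ)
    · obtain ⟨m, hm, hcard⟩ := prim_noTri h3 hN φ.range (by
        rintro _ ⟨a, rfl⟩ e he
        exact hA a e he) (by
        intro x y
        obtain ⟨a, ha⟩ := hT x y
        exact ⟨φ a, ⟨a, rfl⟩, ha⟩) (by
        intro N hNn
        rcases hq (N.comap φ.rangeRestrict) (hNn.comap _) with h | h
        · left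
          rw [eq_bot_iff]
          intro x hx
          obtain ⟨a, ha⟩ := φ.rangeRestrict_surjective x
          have h1 := h a (by rw [Subgroup.mem_comap, ha]; exact hx)
          rw [Subgroup.mem_bot, ← ha]
          exact Subtype.ext h1
        · right
          intro x y
          obtain ⟨a, ha, hxy⟩ := h x y
          exact ⟨φ.rangeRestrict a, ha, hxy⟩) hε0
        (by rw [Fintype.card_fin, hHε]) (by rw [Fintype.card_fin]; exact hc)
      rw [Fintype.card_fin] at hcard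
      have hHk : H.card ≤ S.card * Nat.card φ.range := by
        have : Fintype φ.range := Fintype.ofFinite _
        rw [Nat.card_eq_fintype_card]
        have h1 : H ⊆ (S ×ˢ (univ : Finset φ.range)).image
            (fun w => w.1.image (w.2 : Equiv.Perm (Fin n))) := by
          intro e he
          obtain ⟨s, hs, a, ha⟩ := hS e he
          rw [mem_image]
          exact ⟨(s, φ.rangeRestrict a), mem_product.2 ⟨hs, mem_univ _⟩, ha⟩
        refine (card_le_card h1).trans (card_image_le.trans ?_)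
        rw [card_product, card_univ]
      have h1 : (H.card : ℝ) ≤ k * (n * 5 ^ (m * m)) := by
        rw [hk]
        exact_mod_cast hHk.trans (Nat.mul_le_mul_left _ hcard)
      have h2 : (n : ℝ) / k ≤ 5 ^ (m * m) * (1 / ε) := by
        rw [div_le_iff₀ hk0', mul_one_div, div_mul_eq_mul_div, le_div_iff₀ hε0]
        rw [hHε] at h1
        have h5 : (n : ℝ) * (n * ε) ≤ n * (5 ^ (m * m) * k) := by
          calc (n : ℝ) * (n * ε) = ε * (n : ℝ) ^ 2 := by ring
            _ ≤ k * (n * 5 ^ (m * m)) := h1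
            _ = n * (5 ^ (m * m) * k) := by ring
        exact le_of_mul_le_mul_left h5 hn0
      have h4 : L ≤ (m * m : ℕ) * Real.log 5 + Real.log (1 / ε) := by
        rw [hL, ← Real.log_pow, ← Real.log_mul (by positivity) (by positivity)]
        exact Real.log_le_log (by positivity) h2
      have h5 : Real.log 5 ≤ 4 := by
        have := Real.log_le_sub_one_of_pos (show (0 : ℝ) < 5 by norm_num)
        linarith
      have h7 : ε ^ 6 * Real.log (1 / ε) ≤ 1 / 6 := by
        have h8 : Real.log (1 / ε ^ 6) = 6 * Real.log (1 / ε) := by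
          rw [one_div, one_div, ← inv_pow, Real.log_pow]
          norm_num
        have h9 := Real.log_le_sub_one_of_pos (show (0 : ℝ) < 1 / ε ^ 6 by positivity)
        rw [h8] at h9
        have h10 : ε ^ 6 * (1 / ε ^ 6) = 1 := by field_simp
        have h11 : ε ^ 6 * (6 * Real.log (1 / ε)) ≤ ε ^ 6 * (1 / ε ^ 6 - 1) :=
          mul_le_mul_of_nonneg_left h9 (by positivity)
        have h12 : 0 < ε ^ 6 := by positivity
        nlinarith
      have h13 : ((m * m : ℕ) : ℝ) * ε ^ 6 ≤ 16 / 729 := by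
        have h14 : (m : ℝ) * (27 * ε ^ 3) ≤ 4 := by
          rwa [le_div_iff₀ (by positivity)] at hm
        have h15 : (0 : ℝ) ≤ (m : ℝ) * (27 * ε ^ 3) := by positivity
        have h16 : ((m : ℝ) * (27 * ε ^ 3)) ^ 2 ≤ 4 ^ 2 := pow_le_pow_left₀ h15 h14 2
        push_cast
        nlinarith
      have h17 : ε ^ 6 * L ≤ ε ^ 6 * ((m * m : ℕ) * Real.log 5 + Real.log (1 / ε)) :=
        mul_le_mul_of_nonneg_left h4 (by positivity)
      have h18 : ((m * m : ℕ) : ℝ) * ε ^ 6 * Real.log 5 ≤ ((m * m : ℕ) : ℝ) * ε ^ 6 * 4 :=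
        mul_le_mul_of_nonneg_left h5 (by positivity)
      calc ε ^ 6 * L ≤ ((m * m : ℕ) : ℝ) * ε ^ 6 * Real.log 5 + ε ^ 6 * Real.log (1 / ε) := by
            refine h17.trans (le_of_eq ?_)
            ring
        _ ≤ 1 := by linarith
    · rw [not_le] at hc
      have h1 : L ≤ Real.log n := by
        rw [hL]
        apply Real.log_le_log (by positivity)
        exact div_le_self hn0.le hkR
      have h2 := Real.log_le_sub_one_of_pos hn0
      have h4 : L ≤ n := by linarith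
      have h5 : ε ^ 6 ≤ ε ^ 2 := pow_le_pow_of_le_one hε0.le hε1 (by norm_num)
      calc ε ^ 6 * L ≤ ε ^ 2 * n := mul_le_mul h5 h4 hL0.le (by positivity)
        _ ≤ 1 := by linarith
  rw [← hL, hHε, mul_comm]
  apply mul_le_mul_of_nonneg_left _ (by positivity)
  have h1 : ε ^ 6 ≤ 1 / L := by
    rw [le_div_iff₀ hL0]
    exact key
  have h2 : (L ^ (-(1 / 6) : ℝ)) ^ 6 = 1 / L := by
    rw [← Real.rpow_natCast, ← Real.rpow_mul hL0.le]
    norm_num
    rw [Real.rpow_neg_one]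
  rw [← h2] at h1
  exact le_of_pow_le_pow_left₀ (by norm_num) (Real.rpow_nonneg hL0.le _) h1

end Pool.Agent.SXQ
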