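import Pool.Agent.SXQ.Defs

/-!
# SXQ-SLq: representations of `SL₂(𝔽_p)` of small degree are trivial (Frobenius)

Proof. Let `d < (p - 1) / 2`, `ρ : SL(2, ZMod p) →* GL (Fin d) ℝ`. Let `u = !![1, 1; 0, 1]`, `T` the complex matrix of
`ρ u` (map `ℝ → ℂ` entrywise: `Matrix.GeneralLinearGroup.map` or `Matrix.map`), as an endomorphism of `Fin d → ℂ`.
1. `u ^ p = 1` (`u ^ k = !![1, k; 0, 1]`), so `T ^ p = 1`.
2. For `a : (ZMod p)ˣ`, `s = !![a, 0; 0, a⁻¹]`: `s u s⁻¹ = !![1, a²; 0, 1] = u ^ (a² as a natural number)`. So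
   `T ^ (a².val)` is conjugate to `T`.
3. Let `ζ` be an eigenvalue of `T`, `ζ ≠ 1`; `ζ ^ p = 1`, so `ζ` is a primitive `p`-th root of unity. By 2, `ζ ^ (a².val)`
   is an eigenvalue of `T ^ (a².val)`, hence of `T`. The numbers `ζ ^ (a².val)` take at least `(p - 1) / 2` different
   values (`ζ ^ i = ζ ^ j` iff `i ≡ j mod p`; there are `(p - 1) / 2` nonzero squares in `ZMod p`: `a ↦ a²` is at most
   2-to-1 on the `p - 1` units; or use the squares of `1, ..., (p - 1) / 2`, which are different). Eigenvectors to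
   different eigenvalues are linearly independent (`Module.End.eigenvectors_linearIndependent`), so
   `(p - 1) / 2 ≤ d`, contradiction. (`Module.End.card_eigenvalues_le` or the number of roots of the characteristic
   polynomial may also be used.)
4. So `1` is the only eigenvalue of `T`. As `T ^ p - 1 = ∏ (T - ζ^j)` over the `p`-th roots of unity
   (`X ^ p - 1 = ∏ (X - ζ^j)`, `X_pow_sub_one_eq_prod`, or: `(T - 1) * (∑ i < p, T ^ i) = 0` and `S = ∑ i < p, T ^ i`
   is injective, because the kernel `K` of `S` is `T`-invariant, and if `K ≠ 0` then `T` has an eigenvector in `K`,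
   with eigenvalue `1`, on which `S` is `p ≠ 0`), and the factors with `j ≠ 0` are invertible, `T = 1`.
   So `ρ u = 1`.
5. All `!![1, t; 0, 1] = u ^ t.val` and their conjugates `!![1, 0; t, 1]` are in the kernel; a matrix
   `!![a, b; c, d]` of determinant one with `c ≠ 0` is
   `!![1, (a - 1) / c; 0, 1] * !![1, 0; c, 1] * !![1, (d - 1) / c; 0, 1]`, and if `c = 0` then `a ≠ 0` and
   multiplication by `!![1, 0; 1, 1]` on the left gives the case `c ≠ 0`. So `ρ = 1`.
-/

set_option autoImplicit false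

namespace Pool.Agent.SXQ

section aux

variable {p : ℕ} [Fact p.Prime]

/-- upper unipotent -/
private def U (t : ZMod p) : Matrix.SpecialLinearGroup (Fin 2) (ZMod p) :=
  ⟨!![1, t; 0, 1], by simp [Matrix.det_fin_two]⟩

private def Lw (t : ZMod p) : Matrix.SpecialLinearGroup (Fin 2) (ZMod p) :=
  ⟨!![1, 0; t, 1], by simp [Matrix.det_fin_two]⟩

private def S (a : ZMod p) (ha : a ≠ 0) : Matrix.SpecialLinearGroup (Fin 2) (ZMod p) :=
  ⟨!![a, 0; 0, a⁻¹], by simp [Matrix.det_fin_two, ha]⟩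

private def W : Matrix.SpecialLinearGroup (Fin 2) (ZMod p) :=
  ⟨!![0, -1; 1, 0], by simp [Matrix.det_fin_two]⟩

private theorem U_add (s t : ZMod p) : U (s + t) = U s * U t := by
  apply Subtype.ext
  rw [Matrix.SpecialLinearGroup.coe_mul]
  change !![1, s + t; 0, 1] = !![1, s; 0, 1] * !![1, t; 0, 1]
  ext i j
  fin_cases i <;> fin_cases j <;> simp [Matrix.mul_apply, Fin.sum_univ_two, add_comm]

private theorem U_zero : (U 0 : Matrix.SpecialLinearGroup (Fin 2) (ZMod p)) = 1 := by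
  apply Subtype.ext
  simp only [U, Matrix.SpecialLinearGroup.coe_one]
  ext i j
  fin_cases i <;> fin_cases j <;> simp

private theorem U_pow (n : ℕ) : (U 1 : Matrix.SpecialLinearGroup (Fin 2) (ZMod p)) ^ n = U (n : ZMod p) := by
  induction n with
  | zero => simp [U_zero]
  | succ n ih => rw [pow_succ, ih, ← U_add, Nat.cast_succ]

private theorem S_conj (a : ZMod p) (ha : a ≠ 0) : S a ha * U 1 = U (a ^ 2) * S a ha := by
  apply Subtype.ext
  rw [Matrix.SpecialLinearGroup.coe_mul, Matrix.SpecialLinearGroup.coe_mul]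
  change !![a, 0; 0, a⁻¹] * !![1, 1; 0, 1] = !![1, a ^ 2; 0, 1] * !![a, 0; 0, a⁻¹]
  ext i j
  fin_cases i <;> fin_cases j <;> simp [Matrix.mul_apply, Fin.sum_univ_two, ha, pow_two]

private theorem W_conj (t : ZMod p) : Lw t * W = W * U (-t) := by
  apply Subtype.ext
  rw [Matrix.SpecialLinearGroup.coe_mul, Matrix.SpecialLinearGroup.coe_mul]
  change !![1, 0; t, 1] * !![0, -1; 1, 0] = !![0, -1; 1, 0] * !![1, -t; 0, 1]
  ext i j
  fin_cases i <;> fin_cases j <;> simp [Matrix.mul_apply, Fin.sum_univ_two]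

private theorem decomp (g : Matrix.SpecialLinearGroup (Fin 2) (ZMod p)) (hc : g.1 1 0 ≠ 0) :
    g = U ((g.1 0 0 - 1) / g.1 1 0) * Lw (g.1 1 0) * U ((g.1 1 1 - 1) / g.1 1 0) := by
  have hd : g.1 0 0 * g.1 1 1 - g.1 0 1 * g.1 1 0 = 1 := by
    rw [← Matrix.det_fin_two]; exact g.2
  apply Subtype.ext
  rw [Matrix.SpecialLinearGroup.coe_mul, Matrix.SpecialLinearGroup.coe_mul]
  change g.1 = !![1, (g.1 0 0 - 1) / g.1 1 0; 0, 1] * !![1, 0; g.1 1 0, 1] *
    !![1, (g.1 1 1 - 1) / g.1 1 0; 0, 1]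
  generalize g.1 = M at *
  ext i j
  fin_cases i <;> fin_cases j <;> simp [Matrix.mul_apply, Fin.sum_univ_two, hc]
  · field_simp
    linear_combination (-1 : ZMod p) * hd
  · field_simp
    ring

end aux

section core

variable {p : ℕ} [Fact p.Prime]

private theorem pow_eig {V : Type*} [AddCommGroup V] [Module ℂ V] (T : Module.End ℂ V) {v : V} {ζ : ℂ}
    (h : T v = ζ • v) (n : ℕ) : (T ^ n) v = ζ ^ n • v := by
  induction n with
  | zero => simp
  | succ n ih => rw [pow_succ', Module.End.mul_apply, ih, map_smul, h, smul_smul, pow_succ]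

private theorem eig_one {d : ℕ} (hd : d < (p - 1) / 2)
    (φ : Matrix.SpecialLinearGroup (Fin 2) (ZMod p) →* Module.End ℂ (Fin d → ℂ)) {v : Fin d → ℂ}
    (hv : v ≠ 0) {ζ : ℂ} (h : φ (U 1) v = ζ • v) : ζ = 1 := by
  have hpp : p.Prime := Fact.out
  have hTp : φ (U 1) ^ p = 1 := by
    rw [← map_pow, U_pow, ZMod.natCast_self, U_zero, map_one]
  have hζ : ζ ^ p = 1 := by
    have h1 := pow_eig _ h p
    rw [hTp, Module.End.one_apply] at h1
    have h2 : (ζ ^ p - 1) • v = 0 := by rw [sub_smul, ← h1, one_smul, sub_self]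
    rcases smul_eq_zero.mp h2 with h3 | h3
    · exact sub_eq_zero.mp h3
    · exact absurd h3 hv
  by_contra hne
  have hord : orderOf ζ = p := orderOf_eq_prime hζ hne
  have hinj : ∀ x y : ZMod p, ζ ^ x.val = ζ ^ y.val → x = y := by
    intro x y hxy
    have := pow_injOn_Iio_orderOf (x := ζ) (by simpa [hord] using ZMod.val_lt x)
      (by simpa [hord] using ZMod.val_lt y) hxy
    exact ZMod.val_injective p this
  have hunit : ∀ i : Fin ((p - 1) / 2), ((i.1 + 1 : ℕ) : ZMod p) ≠ 0 := by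
    intro i hi
    rw [ZMod.natCast_eq_zero_iff] at hi
    have h1 := Nat.le_of_dvd (Nat.succ_pos _) hi
    have h2 := i.2
    omega
  have hμ : Function.Injective (fun i : Fin ((p - 1) / 2) =>
      ζ ^ (((i.1 + 1 : ℕ) : ZMod p) ^ 2).val) := by
    intro i j hij
    have h1 := hinj _ _ hij
    have h2 : (((i.1 + 1 : ℕ) : ZMod p) - ((j.1 + 1 : ℕ) : ZMod p)) *
        (((i.1 + 1 : ℕ) : ZMod p) + ((j.1 + 1 : ℕ) : ZMod p)) = 0 := by linear_combination h1
    have hi := i.2
    have hj := j.2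
    rcases mul_eq_zero.mp h2 with h3 | h3
    · have h4 : ((i.1 + 1 : ℕ) : ZMod p) = ((j.1 + 1 : ℕ) : ZMod p) := sub_eq_zero.mp h3
      rw [ZMod.natCast_eq_natCast_iff'] at h4
      rw [Nat.mod_eq_of_lt (by omega), Nat.mod_eq_of_lt (by omega)] at h4
      exact Fin.ext (by omega)
    · exfalso
      rw [← Nat.cast_add, ZMod.natCast_eq_zero_iff] at h3
      have := Nat.le_of_dvd (by omega) h3
      omega
  have hw : ∀ i : Fin ((p - 1) / 2), (φ (U 1)).HasEigenvector
      (ζ ^ (((i.1 + 1 : ℕ) : ZMod p) ^ 2).val) (φ (S _ (hunit i))⁻¹ v) := by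
    intro i
    refine ⟨?_, ?_⟩
    · rw [Module.End.mem_eigenspace_iff]
      have e1 : U 1 * (S _ (hunit i))⁻¹ =
          (S _ (hunit i))⁻¹ * U ((((i.1 + 1 : ℕ) : ZMod p)) ^ 2) := by
        rw [eq_inv_mul_iff_mul_eq, ← mul_assoc, S_conj, mul_inv_cancel_right]
      rw [← Module.End.mul_apply, ← map_mul, e1, map_mul, Module.End.mul_apply]
      have e2 : U ((((i.1 + 1 : ℕ) : ZMod p)) ^ 2) =
          U 1 ^ ((((i.1 + 1 : ℕ) : ZMod p)) ^ 2).val := by
        rw [U_pow, ZMod.natCast_zmod_val]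
      rw [e2, map_pow, pow_eig _ h, map_smul]
    · intro h0
      apply hv
      have : φ (S _ (hunit i)) (φ (S _ (hunit i))⁻¹ v) = v := by
        rw [← Module.End.mul_apply, ← map_mul, mul_inv_cancel, map_one, Module.End.one_apply]
      rw [← this, h0, map_zero]
  have hli := Module.End.eigenvectors_linearIndependent' (φ (U 1)) _ hμ _ hw
  have := hli.fintype_card_le_finrank
  rw [Fintype.card_fin, Module.finrank_fin_fun] at this
  omega

private theorem phi_one {d : ℕ} (hd : d < (p - 1) / 2)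
    (φ : Matrix.SpecialLinearGroup (Fin 2) (ZMod p) →* Module.End ℂ (Fin d → ℂ)) :
    φ (U 1) = 1 := by
  have hpp : p.Prime := Fact.out
  set T := φ (U 1) with hT
  have hTp : T ^ p = 1 := by
    rw [hT, ← map_pow, U_pow, ZMod.natCast_self, U_zero, map_one]
  let Q : Module.End ℂ (Fin d → ℂ) := ∑ i ∈ Finset.range p, T ^ i
  have hcomm : Commute T Q := Commute.sum_right _ _ _ (fun i _ => (Commute.refl T).pow_right i)
  have hQ : (T - 1) * Q = 0 := by
    have := mul_geom_sum T p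
    rw [hTp, sub_self] at this
    exact this
  have hker : LinearMap.ker Q = ⊥ := by
    by_contra hK
    have hinv : ∀ x ∈ LinearMap.ker Q, T x ∈ LinearMap.ker Q := by
      intro x hx
      rw [LinearMap.mem_ker] at hx ⊢
      rw [← Module.End.mul_apply, ← hcomm.eq, Module.End.mul_apply, hx, map_zero]
    have : Nontrivial (LinearMap.ker Q) := Submodule.nontrivial_iff_ne_bot.mpr hK
    obtain ⟨μ, hμ⟩ := Module.End.exists_eigenvalue (T.restrict hinv)
    obtain ⟨w, hw⟩ := hμ.exists_hasEigenvector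
    have hw0 : (w : Fin d → ℂ) ≠ 0 := fun h0 => hw.2 (Subtype.ext h0)
    have hTw : T (w : Fin d → ℂ) = μ • (w : Fin d → ℂ) := by
      have := congrArg Subtype.val hw.apply_eq_smul
      simpa using this
    have h1 : μ = 1 := eig_one hd φ hw0 hTw
    have h2 : Q (w : Fin d → ℂ) = (p : ℂ) • (w : Fin d → ℂ) := by
      change (∑ i ∈ Finset.range p, T ^ i) (w : Fin d → ℂ) = _
      rw [LinearMap.sum_apply, Finset.sum_congr rfl (fun i _ => pow_eig T hTw i), h1]
      rw [← Finset.sum_smul]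
      simp
    have h3 : Q (w : Fin d → ℂ) = 0 := w.2
    rw [h2] at h3
    rcases smul_eq_zero.mp h3 with h4 | h4
    · exact hpp.ne_zero (by exact_mod_cast h4)
    · exact hw0 h4
  have hsurj : Function.Surjective Q :=
    LinearMap.surjective_of_injective (LinearMap.ker_eq_bot.mp hker)
  have : T - 1 = 0 := by
    ext1 i
    refine LinearMap.ext (fun c => ?_)
    obtain ⟨y, hy⟩ := hsurj (LinearMap.single ℂ (fun _ => ℂ) i c)
    rw [LinearMap.comp_apply, ← hy, ← Module.End.mul_apply, hQ]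
    rfl
  exact sub_eq_zero.mp this

end core

theorem qr_sl (p : ℕ) [Fact p.Prime] (hp : p ≠ 2) :
    QR (Matrix.SpecialLinearGroup (Fin 2) (ZMod p)) ((p - 1) / 2) := by
  intro d hd ρ g
  have hinj : ∀ A B : Matrix (Fin d) (Fin d) ℝ, A.map (algebraMap ℝ ℂ) = B.map (algebraMap ℝ ℂ) → A = B := by
    intro A B h
    ext i j
    have := congrFun (congrFun h i) j
    simpa using this
  let F : Matrix (Fin d) (Fin d) ℝ →* Module.End ℂ (Fin d → ℂ) :=
    (Matrix.toLinAlgEquiv' (R := ℂ) (n := Fin d) : Matrix (Fin d) (Fin d) ℂ →* Module.End ℂ (Fin d → ℂ)).comp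
      ((algebraMap ℝ ℂ).mapMatrix : Matrix (Fin d) (Fin d) ℝ →+* Matrix (Fin d) (Fin d) ℂ).toMonoidHom
  have hF : ∀ A, F A = 1 → A = 1 := by
    intro A hA
    have h1 : Matrix.toLinAlgEquiv' (R := ℂ) (n := Fin d) (A.map (algebraMap ℝ ℂ)) =
        Matrix.toLinAlgEquiv' (R := ℂ) (n := Fin d) 1 := by
      rw [map_one]; exact hA
    have h2 := Matrix.toLinAlgEquiv'.injective h1
    apply hinj
    rw [h2]
    ext i j
    by_cases hij : i = j <;> simp [Matrix.one_apply, hij]
  let φ : Matrix.SpecialLinearGroup (Fin 2) (ZMod p) →* Module.End ℂ (Fin d → ℂ) :=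
    F.comp ((Units.coeHom _).comp ρ)
  have hU1 : ρ (U 1) = 1 := by
    have := phi_one hd φ
    exact Units.ext (hF _ this)
  have hU : ∀ t : ZMod p, ρ (U t) = 1 := by
    intro t
    rw [← ZMod.natCast_zmod_val t, ← U_pow, map_pow, hU1, one_pow]
  have hL : ∀ t : ZMod p, ρ (Lw t) = 1 := by
    intro t
    have := congrArg ρ (W_conj t)
    rw [map_mul, map_mul, hU, mul_one] at this
    exact mul_eq_right.mp this
  have hgen : ∀ x : Matrix.SpecialLinearGroup (Fin 2) (ZMod p), x.1 1 0 ≠ 0 → ρ x = 1 := by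
    intro x hx
    rw [decomp x hx, map_mul, map_mul, hU, hU, hL]
    simp
  by_cases hc : g.1 1 0 ≠ 0
  · exact hgen g hc
  · push Not at hc
    have hd' : g.1 0 0 * g.1 1 1 - g.1 0 1 * g.1 1 0 = 1 := by
      rw [← Matrix.det_fin_two]; exact g.2
    have h1 : ρ (Lw 1 * g) = 1 := by
      apply hgen
      have e : (Lw 1 * g).1 1 0 = g.1 0 0 := by
        rw [Matrix.SpecialLinearGroup.coe_mul]
        simp [Lw, Matrix.mul_apply, Fin.sum_univ_two, hc]
      rw [e]
      intro h0
      rw [h0, hc] at hd'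
      simp at hd'
    rw [map_mul, hL, one_mul] at h1
    exact h1

end Pool.Agent.SXQ
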