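import Pool.Agent.SXQ.Up
import Pool.Agent.SXQ.SLq
import Pool.Agent.SXQ.JQ
import Pool.Agent.SXQ.AltQ
import Pool.Agent.SXQ.Prim
import Pool.Agent.SXQ.Low
import Pool.Agent.SXQ.Bor

/-!
# SXQ-Fin: the assembled statement (to be copied into the hand-in)
-/

set_option autoImplicit false

namespace Pool.Agent.SXQ

open Finset Pool.Agent.RSV Pool.Agent.SXS
open scoped commutatorElement

theorem fin_perfect {A : Type*} [Group A] [Finite A] {N n : ℕ} (hN : 2 ≤ N)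
    (hp : commutator A = ⊤) (hq : ∀ K : Subgroup A, K.Normal → K ≠ ⊤ → N ≤ K.index)
    {H : Finset (Finset (Fin n))} {φ : A →* Equiv.Perm (Fin n)} (h3 : Three H) (h6 : SixThree H)
    (hA : Auts H φ) :
    ((moved H φ).card : ℝ) ≤ 3 * (n : ℝ) ^ 2 * Real.log N ^ (-(1 / 6) : ℝ) := by
  obtain ⟨D, hD, hQ, hb⟩ := perfect_qr hp hN hq
  refine (upper_qr h3 h6 hA hD hQ).trans ?_
  have h0 : (0 : ℝ) ≤ (n : ℝ) ^ 2 := by positivity
  calc (4 / D : ℝ) ^ (1 / 3 : ℝ) * (n : ℝ) ^ 2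
      ≤ (3 * Real.log N ^ (-(1 / 6) : ℝ)) * (n : ℝ) ^ 2 := mul_le_mul_of_nonneg_right hb h0
    _ = _ := by ring

theorem fin_simple {A : Type*} [Group A] [Finite A] [IsSimpleGroup A] {n : ℕ}
    (hc : ¬ ∀ a b : A, a * b = b * a)
    {H : Finset (Finset (Fin n))} {φ : A →* Equiv.Perm (Fin n)} (h3 : Three H) (h6 : SixThree H)
    (hA : Auts H φ) :
    ((moved H φ).card : ℝ) ≤ 3 * (n : ℝ) ^ 2 * Real.log (Nat.card A) ^ (-(1 / 6) : ℝ) := by
  refine fin_perfect (Finite.one_lt_card) ?_ ?_ h3 h6 hA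
  · rcases (inferInstance : (commutator A).Normal).eq_bot_or_eq_top with h | h
    · exfalso
      apply hc
      intro a b
      have h1 : ⁅a, b⁆ ∈ commutator A :=
        Subgroup.commutator_mem_commutator (Subgroup.mem_top a) (Subgroup.mem_top b)
      rw [h, Subgroup.mem_bot, commutatorElement_eq_one_iff_mul_comm] at h1
      exact h1
    · exact h
  · intro K hK hK1
    rcases hK.eq_bot_or_eq_top with h | h
    · rw [h, Subgroup.index_bot]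
    · exact absurd h hK1

theorem fin_sl_upper {p n : ℕ} (hp : p.Prime) (h2 : p ≠ 2) {H : Finset (Finset (Fin n))}
    {φ : Matrix.SpecialLinearGroup (Fin 2) (ZMod p) →* Equiv.Perm (Fin n)} (h3 : Three H)
    (h6 : SixThree H) (hA : Auts H φ) :
    ((moved H φ).card : ℝ) ≤ 2 * (n : ℝ) ^ 2 * ((p : ℝ) - 1) ^ (-(1 / 3) : ℝ) := by
  have : Fact p.Prime := ⟨hp⟩
  have hp3 : 3 ≤ p := by
    have := hp.two_le
    omega
  have hodd : 2 * ((p - 1) / 2) = p - 1 := by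
    have h := hp.eq_two_or_odd
    omega
  have hD : 1 ≤ (p - 1) / 2 := by omega
  refine (upper_qr h3 h6 hA hD (qr_sl p h2)).trans ?_
  have hr : (2 : ℝ) * (((p - 1) / 2 : ℕ) : ℝ) = (p : ℝ) - 1 := by
    have h1 : ((2 * ((p - 1) / 2) : ℕ) : ℝ) = ((p - 1 : ℕ) : ℝ) := by rw [hodd]
    rw [Nat.cast_sub (by omega)] at h1
    push_cast at h1 ⊢
    exact h1
  have hp0 : (0 : ℝ) < (p : ℝ) - 1 := by
    have : (3 : ℝ) ≤ p := by exact_mod_cast hp3
    linarith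
  have h4 : (4 / (((p - 1) / 2 : ℕ) : ℝ) : ℝ) = 8 * ((p : ℝ) - 1)⁻¹ := by
    rw [← hr]
    have hD0 : (0 : ℝ) < (((p - 1) / 2 : ℕ) : ℝ) := by exact_mod_cast hD
    field_simp
    norm_num
  rw [h4, Real.mul_rpow (by norm_num) (inv_nonneg.2 hp0.le), Real.inv_rpow hp0.le, ← Real.rpow_neg hp0.le,
    show (8 : ℝ) = 2 ^ (3 : ℝ) by norm_num, ← Real.rpow_mul (by norm_num)]
  norm_num
  have : (2 : ℝ) * ((p : ℝ) - 1) ^ (-(1 / 3) : ℝ) * (n : ℝ) ^ 2 =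
      2 * (n : ℝ) ^ 2 * ((p : ℝ) - 1) ^ (-(1 / 3) : ℝ) := by ring
  exact this.le

theorem fin_alt_upper {m n : ℕ} (hm : 5 ≤ m) {H : Finset (Finset (Fin n))}
    {φ : alternatingGroup (Fin m) →* Equiv.Perm (Fin n)} (h3 : Three H)
    (h6 : SixThree H) (hA : Auts H φ) :
    ((moved H φ).card : ℝ) ≤ 3 * (n : ℝ) ^ 2 * (m : ℝ) ^ (-(1 / 3) : ℝ) := by
  obtain ⟨D, hD, hQ, hb⟩ := alt_bound hm
  refine (upper_qr h3 h6 hA hD hQ).trans ?_
  have h0 : (0 : ℝ) ≤ (n : ℝ) ^ 2 := by positivity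
  calc (4 / D : ℝ) ^ (1 / 3 : ℝ) * (n : ℝ) ^ 2
      ≤ (3 * (m : ℝ) ^ (-(1 / 3) : ℝ)) * (n : ℝ) ^ 2 := mul_le_mul_of_nonneg_right hb h0
    _ = _ := by ring

private theorem sqrt_pull {C x : ℝ} (hC : 0 < C) (r : ℕ) {s : ℝ} (hs : √((r : ℝ) + 1) ≤ s) :
    -(s * C) * √x ≤ -C * √((r + 1) * x) := by
  rw [Real.sqrt_mul (by positivity)]
  have h0 : 0 ≤ √x := Real.sqrt_nonneg _
  have h1 : √((r : ℝ) + 1) * √x ≤ s * √x := mul_le_mul_of_nonneg_right hs h0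
  nlinarith

theorem fin_sl_lower : ∃ C > (0 : ℝ), ∀ p n : ℕ, p.Prime →
    Nat.card (Matrix.SpecialLinearGroup (Fin 2) (ZMod p)) ∣ n →
    3 * Nat.card (Matrix.SpecialLinearGroup (Fin 2) (ZMod p)) ≤ n →
    ∃ (H : Finset (Finset (Fin n)))
      (φ : Matrix.SpecialLinearGroup (Fin 2) (ZMod p) →* Equiv.Perm (Fin n)),
      Three H ∧ SixThree H ∧ Auts H φ ∧ Free φ ∧
      (n : ℝ) ^ 2 / (p + 1) * Real.exp (-C * √(Real.log n)) ≤ H.card := by
  obtain ⟨C, hC, hL⟩ := lower_chain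
  refine ⟨2 * C, by positivity, ?_⟩
  intro p n hp hd hn
  have : Fact p.Prime := ⟨hp⟩
  obtain ⟨B, hB, hi⟩ := borel p
  obtain ⟨H, φ, a1, a2, a3, a4, a5⟩ := hL _ B 2 n hB hd hn
  refine ⟨H, φ, a1, a2, a3, a4, le_trans ?_ a5⟩
  have hA0 : (0 : ℝ) < Nat.card (Matrix.SpecialLinearGroup (Fin 2) (ZMod p)) := by
    exact_mod_cast Nat.card_pos
  have h1 : (1 : ℝ) / (p + 1) ≤ (Nat.card (B 2) : ℝ) /
      Nat.card (Matrix.SpecialLinearGroup (Fin 2) (ZMod p)) := by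
    rw [div_le_div_iff₀ (by positivity) hA0]
    have : (Nat.card (Matrix.SpecialLinearGroup (Fin 2) (ZMod p)) : ℝ) ≤
      ((p : ℝ) + 1) * Nat.card (B 2) := by exact_mod_cast hi
    linarith
  have h2 : Real.exp (-(2 * C) * √(Real.log n)) ≤
      Real.exp (-C * √(((2 : ℕ) + 1) * Real.log n)) := by
    refine Real.exp_le_exp.2 (sqrt_pull hC 2 ?_)
    rw [Real.sqrt_le_left (by norm_num)]
    norm_num
  have h3 : (n : ℝ) ^ 2 / (p + 1) = (n : ℝ) ^ 2 * (1 / (p + 1)) := by ring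
  rw [h3]
  exact mul_le_mul (mul_le_mul_of_nonneg_left h1 (by positivity)) h2 (Real.exp_pos _).le
    (by positivity)

/-- the chain `1, Q, Q, ...` -/
private def topChain (Q : Type) [Group Q] : ℕ → Subgroup Q := fun i => if i = 0 then ⊥ else ⊤

private theorem free_moves {Q : Type} [Group Q] [Nontrivial Q] {n : ℕ}
    {ψ : Q →* Equiv.Perm (Fin n)} (hF : Free ψ) {A : Type} [Group A] (π : A →* Q)
    (hπ : Function.Surjective π) (v : Fin n) : ∃ g : A, (ψ.comp π) g v ≠ v := by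
  obtain ⟨q, hq⟩ := exists_ne (1 : Q)
  obtain ⟨g, rfl⟩ := hπ q
  exact ⟨g, hF (π g) hq v⟩

theorem fin_quot : ∃ C > (0 : ℝ), ∀ (A : Type) [Group A] [Finite A] (K : Subgroup A), K.Normal →
    K ≠ ⊤ → ∀ n : ℕ, K.index ∣ n → 3 * K.index ≤ n →
    (∃ (H : Finset (Finset (Fin n))) (φ : A →* Equiv.Perm (Fin n)),
      Three H ∧ SixThree H ∧ Auts H φ ∧ (∀ v, ∃ g, φ g v ≠ v) ∧
      (n : ℝ) ^ 2 / K.index * Real.exp (-C * √(Real.log n)) ≤ H.card) ∧
    ((∃ t : A, ∀ x : A, ∃ k : ℤ, x * t ^ k ∈ K) →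
      ∃ (H : Finset (Finset (Fin n))) (φ : A →* Equiv.Perm (Fin n)),
        Three H ∧ SixThree H ∧ Auts H φ ∧ (∀ v, ∃ g, φ g v ≠ v) ∧
        (n : ℝ) ^ 2 * Real.exp (-C * √(Real.log n)) ≤ H.card) := by
  obtain ⟨C, hC, hL⟩ := lower_chain
  refine ⟨2 * C, by positivity, ?_⟩
  intro A _ _ K hK hK1 n hd hn
  have hnt : Nontrivial (A ⧸ K) := by
    rw [QuotientGroup.nontrivial_iff]
    exact hK1
  have hcard : Nat.card (A ⧸ K) = K.index := rfl
  have hsur : Function.Surjective (QuotientGroup.mk' K) := QuotientGroup.mk'_surjective K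
  have hq0 : (0 : ℝ) < Nat.card (A ⧸ K) := by exact_mod_cast Nat.card_pos
  constructor
  · obtain ⟨H, ψ, a1, a2, a3, a4, a5⟩ := hL (A ⧸ K) (topChain _) 0 n
      ⟨rfl, fun i hi => absurd hi (Nat.not_lt_zero i)⟩ hd hn
    refine ⟨H, ψ.comp (QuotientGroup.mk' K), a1, a2, fun g e he => a3 _ e he,
      free_moves a4 _ hsur, le_trans ?_ a5⟩
    have h1 : Nat.card (topChain (A ⧸ K) 0) = 1 := by
      show Nat.card (⊥ : Subgroup (A ⧸ K)) = 1
      exact Subgroup.card_bot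
    have h2 : Real.exp (-(2 * C) * √(Real.log n)) ≤
        Real.exp (-C * √(((0 : ℕ) + 1) * Real.log n)) := by
      refine Real.exp_le_exp.2 (sqrt_pull hC 0 ?_)
      rw [Real.sqrt_le_left (by norm_num)]
      norm_num
    rw [h1, hcard]
    have h3 : (n : ℝ) ^ 2 / K.index = (n : ℝ) ^ 2 * (((1 : ℕ) : ℝ) / K.index) := by
      rw [Nat.cast_one]
      ring
    rw [h3]
    exact mul_le_mul_of_nonneg_left h2 (by positivity)
  · rintro ⟨t, ht⟩
    obtain ⟨H, ψ, a1, a2, a3, a4, a5⟩ := hL (A ⧸ K) (topChain _) 1 n (by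
      refine ⟨rfl, fun i hi => ?_⟩
      have hi0 : i = 0 := by omega
      subst hi0
      refine ⟨bot_le, ?_, QuotientGroup.mk' K t, Subgroup.mem_top _, ?_⟩
      · intro b _ x hx
        have hx1 : x = 1 := Subgroup.mem_bot.1 hx
        rw [hx1, mul_one, mul_inv_cancel]
        exact Subgroup.one_mem _
      · intro x _
        obtain ⟨y, rfl⟩ := hsur x
        obtain ⟨k, hk⟩ := ht y
        refine ⟨k, ?_⟩
        show QuotientGroup.mk' K y * QuotientGroup.mk' K t ^ k ∈ (⊥ : Subgroup (A ⧸ K))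
        rw [← map_zpow, ← map_mul, Subgroup.mem_bot, ← MonoidHom.mem_ker, QuotientGroup.ker_mk']
        exact hk) hd hn
    refine ⟨H, ψ.comp (QuotientGroup.mk' K), a1, a2, fun g e he => a3 _ e he,
      free_moves a4 _ hsur, le_trans ?_ a5⟩
    have h1 : Nat.card (topChain (A ⧸ K) 1) = Nat.card (A ⧸ K) := by
      show Nat.card (⊤ : Subgroup (A ⧸ K)) = Nat.card (A ⧸ K)
      exact Subgroup.card_top
    have h2 : Real.exp (-(2 * C) * √(Real.log n)) ≤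
        Real.exp (-C * √(((1 : ℕ) + 1) * Real.log n)) := by
      refine Real.exp_le_exp.2 (sqrt_pull hC 1 ?_)
      rw [Real.sqrt_le_left (by norm_num)]
      norm_num
    rw [h1, div_self hq0.ne', mul_one]
    exact mul_le_mul_of_nonneg_left h2 (by positivity)

theorem all_parts :
    (∀ (A : Type) [Group A] (D : ℕ), 1 ≤ D → QR A D →
      ∀ (n : ℕ) (H : Finset (Finset (Fin n))) (φ : A →* Equiv.Perm (Fin n)),
        Three H → SixThree H → Auts H φ →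
        ((moved H φ).card : ℝ) ≤ (4 / D : ℝ) ^ (1 / 3 : ℝ) * (n : ℝ) ^ 2) ∧
    (∀ (A : Type) [Group A] [Finite A] (N : ℕ), 2 ≤ N → commutator A = ⊤ →
      (∀ K : Subgroup A, K.Normal → K ≠ ⊤ → N ≤ K.index) →
      ∀ (n : ℕ) (H : Finset (Finset (Fin n))) (φ : A →* Equiv.Perm (Fin n)),
        Three H → SixThree H → Auts H φ →
        ((moved H φ).card : ℝ) ≤ 3 * (n : ℝ) ^ 2 * Real.log N ^ (-(1 / 6) : ℝ)) ∧
    (∀ (A : Type) [Group A] [Finite A], IsSimpleGroup A → (¬ ∀ a b : A, a * b = b * a) →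
      ∀ (n : ℕ) (H : Finset (Finset (Fin n))) (φ : A →* Equiv.Perm (Fin n)),
        Three H → SixThree H → Auts H φ →
        ((moved H φ).card : ℝ) ≤ 3 * (n : ℝ) ^ 2 * Real.log (Nat.card A) ^ (-(1 / 6) : ℝ)) ∧
    (∀ p : ℕ, p.Prime → p ≠ 2 →
      ∀ (n : ℕ) (H : Finset (Finset (Fin n)))
        (φ : Matrix.SpecialLinearGroup (Fin 2) (ZMod p) →* Equiv.Perm (Fin n)),
        Three H → SixThree H → Auts H φ →
        ((moved H φ).card : ℝ) ≤ 2 * (n : ℝ) ^ 2 * ((p : ℝ) - 1) ^ (-(1 / 3) : ℝ)) ∧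
    (∀ m : ℕ, 5 ≤ m → ∀ (n : ℕ) (H : Finset (Finset (Fin n)))
        (φ : alternatingGroup (Fin m) →* Equiv.Perm (Fin n)),
        Three H → SixThree H → Auts H φ →
        ((moved H φ).card : ℝ) ≤ 3 * (n : ℝ) ^ 2 * (m : ℝ) ^ (-(1 / 3) : ℝ)) ∧
    (∀ n : ℕ, 6 ≤ n → ∀ (A : Type) [Group A] (H S : Finset (Finset (Fin n)))
        (φ : A →* Equiv.Perm (Fin n)), Three H → SixThree H → Auts H φ → Tran φ →
        (∀ K : Subgroup A, K.Normal →
          (∀ g ∈ K, φ g = 1) ∨ ∀ x y : Fin n, ∃ g ∈ K, φ g x = y) →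
        (∀ e ∈ H, ∃ s ∈ S, ∃ g : A, s.image (φ g) = e) → S.card < n →
        (H.card : ℝ) ≤ (n : ℝ) ^ 2 * Real.log ((n : ℝ) / S.card) ^ (-(1 / 6) : ℝ)) ∧
    (∃ C > (0 : ℝ),
      (∀ p n : ℕ, p.Prime → Nat.card (Matrix.SpecialLinearGroup (Fin 2) (ZMod p)) ∣ n →
        3 * Nat.card (Matrix.SpecialLinearGroup (Fin 2) (ZMod p)) ≤ n →
        ∃ (H : Finset (Finset (Fin n)))
          (φ : Matrix.SpecialLinearGroup (Fin 2) (ZMod p) →* Equiv.Perm (Fin n)),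
          Three H ∧ SixThree H ∧ Auts H φ ∧ Free φ ∧
          (n : ℝ) ^ 2 / (p + 1) * Real.exp (-C * √(Real.log n)) ≤ H.card) ∧
      (∀ (A : Type) [Group A] [Finite A] (B : ℕ → Subgroup A) (r n : ℕ), Chain B r →
        Nat.card A ∣ n → 3 * Nat.card A ≤ n →
        ∃ (H : Finset (Finset (Fin n))) (φ : A →* Equiv.Perm (Fin n)),
          Three H ∧ SixThree H ∧ Auts H φ ∧ Free φ ∧
          (n : ℝ) ^ 2 * ((Nat.card (B r) : ℝ) / Nat.card A) *
            Real.exp (-C * √((r + 1) * Real.log n)) ≤ H.card) ∧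
      (∀ (A : Type) [Group A] [Finite A] (K : Subgroup A), K.Normal → K ≠ ⊤ →
        ∀ n : ℕ, K.index ∣ n → 3 * K.index ≤ n →
        (∃ (H : Finset (Finset (Fin n))) (φ : A →* Equiv.Perm (Fin n)),
          Three H ∧ SixThree H ∧ Auts H φ ∧ (∀ v, ∃ g, φ g v ≠ v) ∧
          (n : ℝ) ^ 2 / K.index * Real.exp (-C * √(Real.log n)) ≤ H.card) ∧
        ((∃ t : A, ∀ x : A, ∃ k : ℤ, x * t ^ k ∈ K) →
          ∃ (H : Finset (Finset (Fin n))) (φ : A →* Equiv.Perm (Fin n)),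
            Three H ∧ SixThree H ∧ Auts H φ ∧ (∀ v, ∃ g, φ g v ≠ v) ∧
            (n : ℝ) ^ 2 * Real.exp (-C * √(Real.log n)) ≤ H.card))) := by
  refine ⟨fun A _ D hD hQ n H φ h3 h6 hA => upper_qr h3 h6 hA hD hQ,
    fun A _ _ N hN hp hq n H φ h3 h6 hA => fin_perfect hN hp hq h3 h6 hA,
    fun A _ _ hS hc n H φ h3 h6 hA => fin_simple hc h3 h6 hA,
    fun p hp h2 n H φ h3 h6 hA => fin_sl_upper hp h2 h3 h6 hA,
    fun m hm n H φ h3 h6 hA => fin_alt_upper hm h3 h6 hA,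
    fun n hn A _ H S φ h3 h6 hA hT hq hS hSn => prim_bound hn h3 h6 hA hT hq hS hSn, ?_⟩
  obtain ⟨C1, hC1, h1⟩ := fin_sl_lower
  obtain ⟨C2, hC2, h2⟩ := lower_chain
  obtain ⟨C3, hC3, h3⟩ := fin_quot
  have hmono : ∀ {C x : ℝ}, C ≤ C1 + C2 + C3 → 0 ≤ x →
      Real.exp (-(C1 + C2 + C3) * x) ≤ Real.exp (-C * x) := by
    intro C x hC hx
    exact Real.exp_le_exp.2 (by nlinarith)
  refine ⟨C1 + C2 + C3, by positivity, ?_, ?_, ?_⟩
  · intro p n hp hd hn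
    obtain ⟨H, φ, a1, a2, a3, a4, a5⟩ := h1 p n hp hd hn
    exact ⟨H, φ, a1, a2, a3, a4, (mul_le_mul_of_nonneg_left
      (hmono (by linarith) (Real.sqrt_nonneg _)) (by positivity)).trans a5⟩
  · intro A _ _ B r n hB hd hn
    obtain ⟨H, φ, a1, a2, a3, a4, a5⟩ := h2 A B r n hB hd hn
    exact ⟨H, φ, a1, a2, a3, a4, (mul_le_mul_of_nonneg_left
      (hmono (by linarith) (Real.sqrt_nonneg _)) (by positivity)).trans a5⟩
  · intro A _ _ K hK hK1 n hd hn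
    obtain ⟨h4, h5⟩ := h3 A K hK hK1 n hd hn
    constructor
    · obtain ⟨H, φ, a1, a2, a3, a4, a5⟩ := h4
      exact ⟨H, φ, a1, a2, a3, a4, (mul_le_mul_of_nonneg_left
        (hmono (by linarith) (Real.sqrt_nonneg _)) (by positivity)).trans a5⟩
    · intro ht
      obtain ⟨H, φ, a1, a2, a3, a4, a5⟩ := h5 ht
      exact ⟨H, φ, a1, a2, a3, a4, (mul_le_mul_of_nonneg_left
        (hmono (by linarith) (Real.sqrt_nonneg _)) (by positivity)).trans a5⟩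

end Pool.Agent.SXQ
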