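import Pool.Agent.SXQ.Defs

/-!
# SXQ-Frob: commutators close to the identity (Frobenius)

`σ : G →* B` is a homomorphism of a group to the multiplicative monoid of a normed ring with `‖σ g‖ ≤ 1` for all `g`.
In a finite group two elements whose images are at distance `< 1 / 2` from the identity commute if `σ` is injective.
-/

set_option autoImplicit false

namespace Pool.Agent.SXQ

variable {B : Type*} [NormedRing B] [NormedAlgebra ℝ B] {G : Type*} [Group G]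

omit [NormedAlgebra ℝ B] in
private theorem frob_id (σ : G →* B) (x y : G) :
    σ (x * y * x⁻¹ * y⁻¹) - 1 = (σ x * σ y - σ y * σ x) * σ (x⁻¹ * y⁻¹) := by
  have e1 : σ x * σ y * σ (x⁻¹ * y⁻¹) = σ (x * y * x⁻¹ * y⁻¹) := by
    rw [← map_mul, ← map_mul]
    congr 1
    group
  have e2 : σ y * σ x * σ (x⁻¹ * y⁻¹) = 1 := by
    rw [← map_mul, ← map_mul, ← map_one σ]
    congr 1
    group
  rw [sub_mul, e1, e2]

omit [NormedAlgebra ℝ B] in
theorem frob_sub (σ : G →* B) (h1 : ∀ g, ‖σ g‖ ≤ 1) (x y : G) :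
    ‖σ (x * y * x⁻¹ * y⁻¹) - 1‖ ≤ 2 * ‖σ x - 1‖ * ‖σ y - 1‖ := by
  rw [frob_id]
  have e : σ x * σ y - σ y * σ x = (σ x - 1) * (σ y - 1) - (σ y - 1) * (σ x - 1) := by
    noncomm_ring
  rw [e]
  refine (norm_mul_le _ _).trans ?_
  have h2 : ‖(σ x - 1) * (σ y - 1) - (σ y - 1) * (σ x - 1)‖ ≤ 2 * ‖σ x - 1‖ * ‖σ y - 1‖ := by
    refine (norm_sub_le _ _).trans ?_
    have h3 := norm_mul_le (σ x - 1) (σ y - 1)
    have h4 := norm_mul_le (σ y - 1) (σ x - 1)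
    nlinarith
  calc ‖(σ x - 1) * (σ y - 1) - (σ y - 1) * (σ x - 1)‖ * ‖σ (x⁻¹ * y⁻¹)‖
      ≤ (2 * ‖σ x - 1‖ * ‖σ y - 1‖) * 1 :=
        mul_le_mul h2 (h1 _) (norm_nonneg _) (by positivity)
    _ = _ := mul_one _

theorem no_small [Finite G] (σ : G →* B) (z : G) {c : ℝ} (hc : c < 1)
    (h : ∀ n : ℕ, ‖σ (z ^ n) - 1‖ ≤ c) : σ z = 1 := by
  set m := orderOf z with hm
  have hm0 : 0 < m := orderOf_pos z
  have hmR : (0 : ℝ) < (m : ℝ) := by exact_mod_cast hm0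
  set S : B := ∑ n ∈ Finset.range m, σ (z ^ n) with hS
  set P : B := (m : ℝ)⁻¹ • S with hP
  have hzS : σ z * S = S := by
    have e1 : σ z * S = ∑ n ∈ Finset.range m, σ (z ^ (n + 1)) := by
      rw [hS, Finset.mul_sum]
      refine Finset.sum_congr rfl fun n _ => ?_
      rw [← map_mul, pow_succ']
    have e2 := Finset.sum_range_succ' (fun n => σ (z ^ n)) m
    have e3 := Finset.sum_range_succ (fun n => σ (z ^ n)) m
    have e4 : σ (z ^ m) = σ (z ^ 0) := by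
      rw [hm, pow_orderOf_eq_one, pow_zero]
    rw [e3, e4] at e2
    rw [e1]
    exact (add_right_cancel e2).symm
  have hzP : σ z * P = P := by
    rw [hP, mul_smul_comm, hzS]
  have hP1 : P - 1 = (m : ℝ)⁻¹ • ∑ n ∈ Finset.range m, (σ (z ^ n) - 1) := by
    rw [Finset.sum_sub_distrib, Finset.sum_const, Finset.card_range, smul_sub, hP, hS]
    congr 1
    rw [← Nat.cast_smul_eq_nsmul ℝ, smul_smul, inv_mul_cancel₀ hmR.ne', one_smul]
  have hPc : ‖P - 1‖ ≤ c := by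
    rw [hP1, norm_smul, Real.norm_eq_abs, abs_of_pos (inv_pos.2 hmR)]
    have e1 : ‖∑ n ∈ Finset.range m, (σ (z ^ n) - 1)‖ ≤ ∑ n ∈ Finset.range m, c :=
      (norm_sum_le _ _).trans (Finset.sum_le_sum fun n _ => h n)
    rw [Finset.sum_const, Finset.card_range, nsmul_eq_mul] at e1
    calc (m : ℝ)⁻¹ * ‖∑ n ∈ Finset.range m, (σ (z ^ n) - 1)‖ ≤ (m : ℝ)⁻¹ * (m * c) :=
          mul_le_mul_of_nonneg_left e1 (inv_pos.2 hmR).le
      _ = c := by rw [← mul_assoc, inv_mul_cancel₀ hmR.ne', one_mul]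
  have e5 : σ z - 1 = -((σ z - 1) * (P - 1)) := by
    have e6 : (σ z - 1) * P = 0 := by rw [sub_mul, hzP, one_mul, sub_self]
    rw [mul_sub, e6, mul_one]
    abel
  have e7 : ‖σ z - 1‖ ≤ ‖σ z - 1‖ * c := by
    calc ‖σ z - 1‖ = ‖(σ z - 1) * (P - 1)‖ := by
          conv_lhs => rw [e5, norm_neg]
      _ ≤ ‖σ z - 1‖ * ‖P - 1‖ := norm_mul_le _ _
      _ ≤ _ := mul_le_mul_of_nonneg_left hPc (norm_nonneg _)
  have e8 : ‖σ z - 1‖ = 0 := by
    have h0 := norm_nonneg (σ z - 1)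
    nlinarith
  exact sub_eq_zero.1 (norm_eq_zero.1 e8)

theorem frob_comm [Finite G] (σ : G →* B) (h1 : ∀ g, ‖σ g‖ ≤ 1) (x y : G)
    (hc : Commute x (x * y * x⁻¹ * y⁻¹)) (hy : ‖σ y - 1‖ < 1 / 2) :
    σ (x * y * x⁻¹ * y⁻¹) = 1 := by
  have hpow : ∀ n : ℕ, (x * y * x⁻¹ * y⁻¹) ^ n = x ^ n * y * (x ^ n)⁻¹ * y⁻¹ := by
    intro n
    have h2 : Commute x (y * x⁻¹ * y⁻¹) := by
      have e : y * x⁻¹ * y⁻¹ = x⁻¹ * (x * y * x⁻¹ * y⁻¹) := by group
      rw [e]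
      exact (Commute.refl x).inv_right.mul_right hc
    have e1 : x * y * x⁻¹ * y⁻¹ = x * (y * x⁻¹ * y⁻¹) := by group
    rw [e1, h2.mul_pow, conj_pow, inv_pow]
    group
  refine no_small σ _ (c := 2 * ‖σ y - 1‖) (by linarith) (fun n => ?_)
  rw [hpow n, frob_id]
  have e : σ (x ^ n) * σ y - σ y * σ (x ^ n) =
      σ (x ^ n) * (σ y - 1) - (σ y - 1) * σ (x ^ n) := by
    noncomm_ring
  rw [e]
  refine (norm_mul_le _ _).trans ?_
  have h2 : ‖σ (x ^ n) * (σ y - 1) - (σ y - 1) * σ (x ^ n)‖ ≤ 2 * ‖σ y - 1‖ := by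
    refine (norm_sub_le _ _).trans ?_
    have h3 := norm_mul_le (σ (x ^ n)) (σ y - 1)
    have h4 := norm_mul_le (σ y - 1) (σ (x ^ n))
    have h5 := h1 (x ^ n)
    have h6 := norm_nonneg (σ y - 1)
    nlinarith
  calc _ ≤ (2 * ‖σ y - 1‖) * 1 := mul_le_mul h2 (h1 _) (norm_nonneg _) (by positivity)
    _ = _ := mul_one _

/-- two elements close to the identity commute. Proof: let `y 0 = y`, `y (k + 1) = x * y k * x⁻¹ * (y k)⁻¹`. By
`frob_sub` `‖σ (y k) - 1‖ ≤ (2 ‖σ x - 1‖) ^ k * ‖σ y - 1‖`, which is `< 1 / 2` and tends to `0`; as `G` is finite and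
`σ` is injective, `y k = 1` for some `k` (the finitely many values `‖σ g - 1‖`, `g ≠ 1`, are positive). If
`y (k + 2) = 1`, then `x` commutes with `y (k + 1)`, so `σ (y (k + 1)) = 1` by `frob_comm` for `x` and `y k`, so
`y (k + 1) = 1`. By descent `y 1 = 1`, i.e. `x y = y x`. -/
theorem close_comm [Finite G] (σ : G →* B) (h1 : ∀ g, ‖σ g‖ ≤ 1) (hσ : Function.Injective σ)
    {x y : G} (hx : ‖σ x - 1‖ < 1 / 2) (hy : ‖σ y - 1‖ < 1 / 2) : x * y = y * x := by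
  classical
  set Y : ℕ → G := fun k => Nat.rec y (fun _ g => x * g * x⁻¹ * g⁻¹) k with hY
  have hYs : ∀ k, Y (k + 1) = x * Y k * x⁻¹ * (Y k)⁻¹ := fun k => rfl
  have hY0 : Y 0 = y := rfl
  set a : ℝ := 2 * ‖σ x - 1‖ with ha
  have ha0 : 0 ≤ a := by positivity
  have ha1 : a < 1 := by linarith
  have hb : ∀ k, ‖σ (Y k) - 1‖ ≤ a ^ k * ‖σ y - 1‖ := by
    intro k
    induction k with
    | zero => rw [hY0, pow_zero, one_mul]
    | succ k ih =>
      rw [hYs]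
      refine (frob_sub σ h1 x (Y k)).trans ?_
      calc 2 * ‖σ x - 1‖ * ‖σ (Y k) - 1‖ ≤ a * (a ^ k * ‖σ y - 1‖) :=
            mul_le_mul_of_nonneg_left ih ha0
        _ = _ := by rw [pow_succ]; ring
  have hb2 : ∀ k, ‖σ (Y k) - 1‖ < 1 / 2 := by
    intro k
    refine (hb k).trans_lt ?_
    calc a ^ k * ‖σ y - 1‖ ≤ 1 * ‖σ y - 1‖ :=
          mul_le_mul_of_nonneg_right (pow_le_one₀ ha0 ha1.le) (norm_nonneg _)
      _ < 1 / 2 := by rw [one_mul]; exact hy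
  have hex : ∃ k, Y k = 1 := by
    by_contra hcon
    push Not at hcon
    have hpos : ∀ g : G, g ≠ 1 → 0 < ‖σ g - 1‖ := by
      intro g hg
      rw [norm_pos_iff, sub_ne_zero, ← map_one σ]
      exact fun h => hg (hσ h)
    obtain ⟨δ, hδ, hδ2⟩ : ∃ δ : ℝ, 0 < δ ∧ ∀ g : G, g ≠ 1 → δ ≤ ‖σ g - 1‖ := by
      have := Fintype.ofFinite G
      by_cases hne : (Finset.univ.filter fun g : G => g ≠ 1).Nonempty
      · obtain ⟨g₀, hg₀, hmin⟩ := Finset.exists_min_image _ (fun g => ‖σ g - 1‖) hne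
        rw [Finset.mem_filter] at hg₀
        exact ⟨_, hpos g₀ hg₀.2, fun g hg =>
          hmin g (Finset.mem_filter.2 ⟨Finset.mem_univ g, hg⟩)⟩
      · refine ⟨1, one_pos, fun g hg => ?_⟩
        exact absurd ⟨g, Finset.mem_filter.2 ⟨Finset.mem_univ g, hg⟩⟩ hne
    have hlim : Filter.Tendsto (fun k : ℕ => a ^ k * ‖σ y - 1‖) Filter.atTop (nhds 0) := by
      have := (tendsto_pow_atTop_nhds_zero_of_lt_one ha0 ha1).mul_const ‖σ y - 1‖
      rwa [zero_mul] at this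
    obtain ⟨k, hk⟩ := (hlim.eventually (gt_mem_nhds hδ)).exists
    have := hδ2 (Y k) (hcon k)
    linarith [hb k]
  set k := Nat.find hex with hk
  have hk1 : Y k = 1 := Nat.find_spec hex
  have hkmin : ∀ j < k, Y j ≠ 1 := fun j hj => Nat.find_min hex hj
  rcases Nat.eq_zero_or_pos k with h0 | h0
  · rw [h0, hY0] at hk1
    rw [hk1, mul_one, one_mul]
  · rcases Nat.lt_or_ge 1 k with h2 | h2
    · exfalso
      obtain ⟨j, hj⟩ : ∃ j, k = j + 2 := ⟨k - 2, by omega⟩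
      rw [hj] at hk1 hkmin
      have e1 : x * Y (j + 1) * x⁻¹ * (Y (j + 1))⁻¹ = 1 := hk1
      have hc : Commute x (Y (j + 1)) := by
        rw [mul_inv_eq_one] at e1
        exact mul_inv_eq_iff_eq_mul.1 e1
      have e2 := frob_comm σ h1 x (Y j) hc (hb2 j)
      apply hkmin (j + 1) (by omega)
      apply hσ
      rw [map_one]
      exact e2
    · have h3 : k = 1 := by omega
      rw [h3] at hk1
      have e1 : x * y * x⁻¹ * y⁻¹ = 1 := hk1
      rw [mul_inv_eq_one, mul_inv_eq_iff_eq_mul] at e1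
      exact e1

end Pool.Agent.SXQ
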