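import Pool.Agent.SXQ.Defs

/-!
# SXQ-Inv: small invariant subspaces of a permutation representation consist of invariant functions

The action on the subspace `W` gives a homomorphism to `GL_d(ℝ)`, `d < D`, which is trivial.
-/

set_option autoImplicit false

namespace Pool.Agent.SXQ

/-- the action on the subspace -/
private noncomputable def ivT {A X : Type*} [Group A] (ψ : A →* Equiv.Perm X)
    (W : Submodule ℝ (X → ℝ)) (hW : ∀ g : A, ∀ f ∈ W, (fun x => f (ψ g x)) ∈ W) : A →* (W →ₗ[ℝ] W) where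
  toFun g :=
    { toFun := fun f => ⟨fun x => f.1 (ψ g⁻¹ x), hW g⁻¹ f.1 f.2⟩
      map_add' := fun _ _ => rfl
      map_smul' := fun _ _ => rfl }
  map_one' := by
    apply LinearMap.ext
    intro f
    apply Subtype.ext
    funext x
    show f.1 (ψ (1 : A)⁻¹ x) = f.1 x
    rw [inv_one, map_one]
    rfl
  map_mul' := fun g h => by
    apply LinearMap.ext
    intro f
    apply Subtype.ext
    funext x
    show f.1 (ψ (g * h)⁻¹ x) = f.1 (ψ h⁻¹ (ψ g⁻¹ x))
    rw [mul_inv_rev, map_mul]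
    rfl

theorem inv_small {A X : Type*} [Group A] [Fintype X] {D : ℕ} (hQ : QR A D) (ψ : A →* Equiv.Perm X)
    (W : Submodule ℝ (X → ℝ)) (hW : ∀ g : A, ∀ f ∈ W, (fun x => f (ψ g x)) ∈ W)
    (hd : Module.finrank ℝ W < D) : ∀ f ∈ W, ∀ (g : A) (x : X), f (ψ g x) = f x := by
  intro f hf g x
  obtain ⟨b⟩ : Nonempty (Module.Basis (Fin (Module.finrank ℝ W)) ℝ W) := ⟨Module.finBasis ℝ W⟩
  have h1 := hQ _ hd (MonoidHom.toHomUnits
    (((LinearMap.toMatrixAlgEquiv b).toRingEquiv.toMonoidHom).comp (ivT ψ W hW))) g⁻¹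
  have h2 : LinearMap.toMatrixAlgEquiv b (ivT ψ W hW g⁻¹) = 1 := congrArg Units.val h1
  have h3 : ivT ψ W hW g⁻¹ = 1 := by
    apply (LinearMap.toMatrixAlgEquiv b).injective
    rw [h2, map_one]
  have h4 : (ivT ψ W hW g⁻¹ ⟨f, hf⟩).1 x = f x := by
    rw [h3]
    rfl
  have h5 : (ivT ψ W hW g⁻¹ ⟨f, hf⟩).1 x = f (ψ (g⁻¹)⁻¹ x) := rfl
  rw [h5, inv_inv] at h4
  exact h4

end Pool.Agent.SXQ
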