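import Pool.Agent.SXQ.Frob

/-!
# SXQ-Jor: Jordan's theorem with the bound `5 ^ (d * d)`
-/

set_option autoImplicit false

namespace Pool.Agent.SXQ

private theorem jo_one {G E : Type*} [Group G] [NormedAddCommGroup E] [NormedSpace ℝ E]
    (σ : G →* (E →L[ℝ] E)) (g : G) : σ g * σ g⁻¹ = 1 := by
  rw [← map_mul, mul_inv_cancel, map_one]

private theorem jo_conj {G E : Type*} [Group G] [NormedAddCommGroup E] [NormedSpace ℝ E]
    (σ : G →* (E →L[ℝ] E)) (h1 : ∀ g, ‖σ g‖ ≤ 1) (g x : G) :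
    ‖σ (g * x * g⁻¹) - 1‖ ≤ ‖σ x - 1‖ := by
  have e : σ (g * x * g⁻¹) - 1 = σ g * (σ x - 1) * σ g⁻¹ := by
    rw [mul_sub, sub_mul, mul_one, jo_one σ g, map_mul, map_mul]
  rw [e]
  have a1 := norm_mul_le (σ g * (σ x - 1)) (σ g⁻¹)
  have a2 := norm_mul_le (σ g) (σ x - 1)
  have a3 := h1 g
  have a4 := h1 g⁻¹
  have a5 := norm_nonneg (σ x - 1)
  have a6 := norm_nonneg (σ g * (σ x - 1))
  have a7 : ‖σ g‖ * ‖σ x - 1‖ ≤ 1 * ‖σ x - 1‖ := mul_le_mul_of_nonneg_right a3 a5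
  have a8 : ‖σ g * (σ x - 1)‖ * ‖σ g⁻¹‖ ≤ ‖σ g * (σ x - 1)‖ * 1 :=
    mul_le_mul_of_nonneg_left a4 a6
  linarith

private theorem jo_dist {G E : Type*} [Group G] [NormedAddCommGroup E] [NormedSpace ℝ E]
    (σ : G →* (E →L[ℝ] E)) (h1 : ∀ g, ‖σ g‖ ≤ 1) (g h : G) :
    ‖σ (g⁻¹ * h) - 1‖ ≤ ‖σ h - σ g‖ := by
  have e : σ (g⁻¹ * h) - 1 = σ g⁻¹ * (σ h - σ g) := by
    have h2 : σ g⁻¹ * σ g = 1 := by rw [← map_mul, inv_mul_cancel, map_one]
    rw [mul_sub, h2, map_mul]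
  rw [e]
  have a1 := norm_mul_le (σ g⁻¹) (σ h - σ g)
  have a2 : ‖σ g⁻¹‖ * ‖σ h - σ g‖ ≤ 1 * ‖σ h - σ g‖ :=
    mul_le_mul_of_nonneg_right (h1 g⁻¹) (norm_nonneg _)
  linarith

theorem jordan_norm {d : ℕ} {G E : Type*} [Group G] [Finite G] [NormedAddCommGroup E]
    [NormedSpace ℝ E] [FiniteDimensional ℝ E] (hE : Module.finrank ℝ E = d) (σ : G →* (E →L[ℝ] E))
    (h1 : ∀ g, ‖σ g‖ ≤ 1) (hσ : Function.Injective σ) :
    ∃ N : Subgroup G, N.Normal ∧ (∀ x ∈ N, ∀ y ∈ N, x * y = y * x) ∧ N.index ≤ 5 ^ (d * d) := by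
  obtain ⟨S, hS⟩ : ∃ S : Set G, S = {x : G | ‖σ x - 1‖ < 1 / 2} := ⟨_, rfl⟩
  have hSm : ∀ x, x ∈ S ↔ ‖σ x - 1‖ < 1 / 2 := by
    intro x
    rw [hS]
    rfl
  have hT : ∀ a ∈ Group.conjugatesOfSet S, a ∈ S := by
    intro a ha
    rw [Group.mem_conjugatesOfSet_iff] at ha
    obtain ⟨x, hx, hc⟩ := ha
    obtain ⟨c, rfl⟩ := isConj_iff.1 hc
    rw [hSm] at hx ⊢
    exact lt_of_le_of_lt (jo_conj σ h1 c x) hx
  obtain ⟨N, hN⟩ : ∃ N : Subgroup G, N = Subgroup.normalClosure S := ⟨_, rfl⟩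
  have hSN : ∀ x ∈ S, x ∈ N := by
    intro x hx
    rw [hN]
    exact Subgroup.subset_normalClosure hx
  have hc1 : ∀ x ∈ S, ∀ y ∈ N, x * y = y * x := by
    intro x hx
    have h2 : N ≤ Subgroup.centralizer {x} := by
      rw [hN]
      unfold Subgroup.normalClosure
      rw [Subgroup.closure_le]
      intro a ha
      rw [SetLike.mem_coe, Subgroup.mem_centralizer_iff]
      intro b hb
      rw [Set.mem_singleton_iff.1 hb]
      exact close_comm σ h1 hσ ((hSm x).1 hx) ((hSm a).1 (hT a ha))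
    intro y hy
    exact Subgroup.mem_centralizer_iff.1 (h2 hy) x rfl
  have hc2 : ∀ x ∈ N, ∀ y ∈ N, x * y = y * x := by
    intro x hx
    have h2 : N ≤ Subgroup.centralizer {x} := by
      rw [hN]
      unfold Subgroup.normalClosure
      rw [Subgroup.closure_le]
      intro a ha
      rw [SetLike.mem_coe, Subgroup.mem_centralizer_iff]
      intro b hb
      rw [Set.mem_singleton_iff.1 hb]
      exact (hc1 a (hT a ha) x hx).symm
    intro y hy
    exact Subgroup.mem_centralizer_iff.1 (h2 hy) x rfl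
  refine ⟨N, ?_, hc2, ?_⟩
  · rw [hN]
    exact Subgroup.normalClosure_normal
  · have hfin : Finite (G ⧸ N) := inferInstance
    have := Fintype.ofFinite (G ⧸ N)
    have hsep : ∀ c c' : G ⧸ N, c ≠ c' → 1 ≤ ‖(2 : ℝ) • σ c.out - (2 : ℝ) • σ c'.out‖ := by
      intro c c' hcc
      have h2 : c'.out⁻¹ * c.out ∉ N := by
        intro h3
        apply hcc
        have h4 := QuotientGroup.eq.2 h3
        rw [QuotientGroup.out_eq', QuotientGroup.out_eq'] at h4
        exact h4.symm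
      have h3 : ¬ ‖σ (c'.out⁻¹ * c.out) - 1‖ < 1 / 2 := fun h4 => h2 (hSN _ ((hSm _).2 h4))
      have h4 := jo_dist σ h1 c'.out c.out
      rw [← smul_sub, norm_smul]
      have h5 : ‖(2 : ℝ)‖ = 2 := by norm_num
      rw [h5]
      linarith [not_lt.1 h3]
    have hinj : Function.Injective (fun c : G ⧸ N => (2 : ℝ) • σ c.out) := by
      intro c c' h2
      by_contra h3
      have h4 := hsep c c' h3
      have h5 : (2 : ℝ) • σ c.out = (2 : ℝ) • σ c'.out := h2
      rw [h5, sub_self, norm_zero] at h4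
      linarith
    have hcard := Besicovitch.card_le_of_separated
      ((Finset.univ : Finset (G ⧸ N)).map ⟨fun c => (2 : ℝ) • σ c.out, hinj⟩) (by
        intro f hf
        obtain ⟨c, _, rfl⟩ := Finset.mem_map.1 hf
        show ‖(2 : ℝ) • σ c.out‖ ≤ 2
        rw [norm_smul]
        have h5 : ‖(2 : ℝ)‖ = 2 := by norm_num
        rw [h5]
        linarith [h1 c.out]) (by
        intro f hf f' hf' hne
        obtain ⟨c, _, rfl⟩ := Finset.mem_map.1 hf
        obtain ⟨c', _, rfl⟩ := Finset.mem_map.1 hf'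
        refine hsep c c' ?_
        intro h2
        apply hne
        rw [h2])
    have hr : Module.finrank ℝ (E →L[ℝ] E) = d * d := by
      rw [← (LinearMap.toContinuousLinearMap : (E →ₗ[ℝ] E) ≃ₗ[ℝ] (E →L[ℝ] E)).finrank_eq,
        Module.finrank_linearMap, hE]
    rw [Finset.card_map, Finset.card_univ, hr] at hcard
    rw [Subgroup.index, Nat.card_eq_fintype_card]
    exact hcard

/-- right translation of functions -/
private def joT {d : ℕ} {G : Type*} [Group G] (h : G) :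
    (G → (Fin d → ℝ)) →ₗ[ℝ] (G → (Fin d → ℝ)) where
  toFun f := fun g => f (g * h)
  map_add' _ _ := rfl
  map_smul' _ _ := rfl

/-- the orbit map -/
private def joI {d : ℕ} {G : Type*} [Group G] (ρ : G →* Matrix.GeneralLinearGroup (Fin d) ℝ) :
    (Fin d → ℝ) →ₗ[ℝ] (G → (Fin d → ℝ)) where
  toFun v := fun g => (ρ g).1.mulVec v
  map_add' v w := by
    funext g
    show (ρ g).1.mulVec (v + w) = (ρ g).1.mulVec v + (ρ g).1.mulVec w
    exact Matrix.mulVec_add _ _ _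
  map_smul' c v := by
    funext g
    show (ρ g).1.mulVec (c • v) = c • (ρ g).1.mulVec v
    exact Matrix.mulVec_smul _ _ _

private theorem joT_I {d : ℕ} {G : Type*} [Group G]
    (ρ : G →* Matrix.GeneralLinearGroup (Fin d) ℝ) (h : G) (v : Fin d → ℝ) :
    joT h (joI ρ v) = joI ρ ((ρ h).1.mulVec v) := by
  funext g
  show (ρ (g * h)).1.mulVec v = (ρ g).1.mulVec ((ρ h).1.mulVec v)
  rw [Matrix.mulVec_mulVec, map_mul]
  rfl

private theorem joT_mem {d : ℕ} {G : Type*} [Group G]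
    (ρ : G →* Matrix.GeneralLinearGroup (Fin d) ℝ) (h : G) :
    ∀ f ∈ LinearMap.range (joI ρ), joT h f ∈ LinearMap.range (joI ρ) := by
  rintro f ⟨v, rfl⟩
  rw [joT_I]
  exact ⟨_, rfl⟩

private theorem joI_one {d : ℕ} {G : Type*} [Group G]
    (ρ : G →* Matrix.GeneralLinearGroup (Fin d) ℝ) (v : Fin d → ℝ) : joI ρ v 1 = v := by
  show (ρ 1).1.mulVec v = v
  rw [map_one]
  exact Matrix.one_mulVec v

private theorem joI_inj {d : ℕ} {G : Type*} [Group G]
    (ρ : G →* Matrix.GeneralLinearGroup (Fin d) ℝ) : Function.Injective (joI ρ) := by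
  intro v w h
  rw [← joI_one ρ v, h, joI_one]

private theorem joT_norm {d : ℕ} {G : Type*} [Group G] [Fintype G] (h : G)
    (f : G → (Fin d → ℝ)) : ‖joT h f‖ ≤ ‖f‖ := by
  rw [pi_norm_le_iff_of_nonneg (norm_nonneg f)]
  intro g
  exact norm_le_pi_norm f (g * h)

private theorem joB {d : ℕ} {G : Type*} [Group G] [Fintype G]
    (ρ : G →* Matrix.GeneralLinearGroup (Fin d) ℝ) (h : G) (f : LinearMap.range (joI ρ)) :
    ‖(joT h).restrict (joT_mem ρ h) f‖ ≤ 1 * ‖f‖ := by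
  rw [one_mul]
  exact joT_norm h f.1

/-- the isometric representation -/
private noncomputable def joS {d : ℕ} {G : Type*} [Group G] [Fintype G]
    (ρ : G →* Matrix.GeneralLinearGroup (Fin d) ℝ) :
    G →* (LinearMap.range (joI ρ) →L[ℝ] LinearMap.range (joI ρ)) where
  toFun h := LinearMap.mkContinuous ((joT h).restrict (joT_mem ρ h)) 1 (joB ρ h)
  map_one' := by
    ext f
    show joT 1 f.1 _ _ = f.1 _ _
    show f.1 (_ * 1) _ = f.1 _ _
    rw [mul_one]
  map_mul' h h' := by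
    ext f
    show f.1 (_ * (h * h')) _ = f.1 (_ * h * h') _
    rw [mul_assoc]

theorem jordan {d : ℕ} {G : Type*} [Group G] [Finite G]
    (ρ : G →* Matrix.GeneralLinearGroup (Fin d) ℝ) (hρ : Function.Injective ρ) :
    ∃ N : Subgroup G, N.Normal ∧ (∀ x ∈ N, ∀ y ∈ N, x * y = y * x) ∧ N.index ≤ 5 ^ (d * d) := by
  have := Fintype.ofFinite G
  refine jordan_norm (E := LinearMap.range (joI ρ)) ?_ (joS ρ) ?_ ?_
  · rw [LinearMap.finrank_range_of_inj (joI_inj ρ)]
    simp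
  · intro g
    exact LinearMap.mkContinuous_norm_le _ zero_le_one (joB ρ g)
  · intro h h' hh
    apply hρ
    apply Units.ext
    apply Matrix.ext_of_mulVec_single
    intro i
    have h2 : ∀ v : Fin d → ℝ, (ρ h).1.mulVec v = (ρ h').1.mulVec v := by
      intro v
      have h3 := DFunLike.congr_fun hh ⟨joI ρ v, ⟨v, rfl⟩⟩
      have h4 : joT h (joI ρ v) = joT h' (joI ρ v) := congrArg Subtype.val h3
      rw [joT_I, joT_I] at h4
      exact joI_inj ρ h4
    exact h2 _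

end Pool.Agent.SXQ
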