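import Pool.Agent.SXQ.Defs

/-!
# SXQ-MatG: matchings in extensions

Proof. `U` is the image of `S ×ˢ T` under
`((x, y), (α, β)) ↦ (x * t ^ α, t ^ (-α) * y * t ^ α * t ^ β)` with `α, β` the values (`ZMod.val`) of the elements of
`ZMod q`. The entries are in `B`. The product of the first entry of the element with data `(x, y, α, β)` and the second
entry of the element with data `(x', y', α', β')` is `x * t^α * t^(-α') * y' * t^α' * t^β'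
= x * (s * y' * s⁻¹) * t ^ (α + β')` with `s = t ^ (α - α')`, which is in the coset of `t ^ (α + β')` modulo `N`, and
the product of the two entries of the element with data `(x'', y'', α'', β'')` is `x'' * y'' * t ^ (α'' + β'')`. If they
are equal then `t ^ (α + β' - α'' - β'') ∈ N` (`N` is normalised by `B`), so `q ∣ α + β' - α'' - β''` (`hq`) and
`α + β' = α'' + β''` in `ZMod q`; as `T` is a matching, the three elements of `T` are equal, and then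
`x * y' * t ^ (α + β) = x'' * y'' * t ^ (α + β)`, so `x * y' = x'' * y''` and the three elements of `S` are equal.
The same computation (or this property applied to `a, a, a'`...) shows that the map is injective on `S ×ˢ T`: if two data
have the same image, then with `X = X'`, `Y = Y'` we get `X * Y' = X * Y`, so the data agree by the first part.
-/

set_option autoImplicit false

namespace Pool.Agent.SXQ

open Finset Pool.Agent.SXS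

private def mgF {G : Type*} [Group G] (t : G) {q : ℕ} (w : (G × G) × (ZMod q × ZMod q)) : G × G :=
  (w.1.1 * t ^ ((w.2.1.val : ℕ) : ℤ),
    t ^ (-((w.2.1.val : ℕ) : ℤ)) * w.1.2 * t ^ ((w.2.1.val : ℕ) : ℤ) * t ^ ((w.2.2.val : ℕ) : ℤ))

private theorem mg_key {G : Type*} [Group G] {N B : Subgroup G} (hNB : N ≤ B)
    (hn : ∀ b ∈ B, ∀ x ∈ N, b * x * b⁻¹ ∈ N) {t : G} (ht : t ∈ B) {q : ℕ} [NeZero q]
    (hq : ∀ k : ℤ, t ^ k ∈ N → (q : ℤ) ∣ k) {S : Finset (G × G)} (hS : MatM S)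
    (hSN : ∀ a ∈ S, a.1 ∈ N ∧ a.2 ∈ N) {T : Finset (ZMod q × ZMod q)} (hT : Mat T)
    (w1 w2 w3 : (G × G) × (ZMod q × ZMod q)) (h1 : w1.1 ∈ S) (h2 : w2.1 ∈ S) (h3 : w3.1 ∈ S)
    (k1 : w1.2 ∈ T) (k2 : w2.2 ∈ T) (k3 : w3.2 ∈ T)
    (he : (mgF t w1).1 * (mgF t w2).2 = (mgF t w3).1 * (mgF t w3).2) : w1 = w3 ∧ w2 = w3 := by
  obtain ⟨⟨x1, y1⟩, ⟨a1, b1⟩⟩ := w1
  obtain ⟨⟨x2, y2⟩, ⟨a2, b2⟩⟩ := w2
  obtain ⟨⟨x3, y3⟩, ⟨a3, b3⟩⟩ := w3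
  simp only [mgF] at he h1 h2 h3 k1 k2 k3
  obtain ⟨A1, hA1⟩ : ∃ A : ℤ, A = ((a1.val : ℕ) : ℤ) := ⟨_, rfl⟩
  obtain ⟨A2, hA2⟩ : ∃ A : ℤ, A = ((a2.val : ℕ) : ℤ) := ⟨_, rfl⟩
  obtain ⟨A3, hA3⟩ : ∃ A : ℤ, A = ((a3.val : ℕ) : ℤ) := ⟨_, rfl⟩
  obtain ⟨B2, hB2⟩ : ∃ A : ℤ, A = ((b2.val : ℕ) : ℤ) := ⟨_, rfl⟩
  obtain ⟨B3, hB3⟩ : ∃ A : ℤ, A = ((b3.val : ℕ) : ℤ) := ⟨_, rfl⟩
  rw [← hA1, ← hA2, ← hA3, ← hB2, ← hB3] at he
  have e1 : x1 * t ^ A1 * (t ^ (-A2) * y2 * t ^ A2 * t ^ B2) =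
      x1 * (t ^ (A1 - A2) * y2 * (t ^ (A1 - A2))⁻¹) * t ^ (A1 + B2) := by
    rw [← zpow_neg, neg_sub, sub_eq_add_neg A1 A2, zpow_add, zpow_sub, zpow_add]
    group
  have e3 : x3 * t ^ A3 * (t ^ (-A3) * y3 * t ^ A3 * t ^ B3) = x3 * y3 * t ^ (A3 + B3) := by
    rw [zpow_add]
    group
  have hs : t ^ (A1 - A2) ∈ B := Subgroup.zpow_mem B ht _
  have n1 : x1 * (t ^ (A1 - A2) * y2 * (t ^ (A1 - A2))⁻¹) ∈ N :=
    N.mul_mem (hSN _ h1).1 (hn _ hs _ (hSN _ h2).2)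
  have n3 : x3 * y3 ∈ N := N.mul_mem (hSN _ h3).1 (hSN _ h3).2
  rw [e1, e3] at he
  have h4 : t ^ (A1 + B2 - (A3 + B3)) =
      (x1 * (t ^ (A1 - A2) * y2 * (t ^ (A1 - A2))⁻¹))⁻¹ * (x3 * y3) := by
    rw [zpow_sub, eq_inv_mul_iff_mul_eq, ← mul_assoc, he]
    group
  have h5 : t ^ (A1 + B2 - (A3 + B3)) ∈ N := by
    rw [h4]
    exact N.mul_mem (N.inv_mem n1) n3
  have h6 := hq _ h5
  have h7 : ((A1 + B2 - (A3 + B3) : ℤ) : ZMod q) = 0 := (ZMod.intCast_zmod_eq_zero_iff_dvd _ _).2 h6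
  have h8 : a1 + b2 = a3 + b3 := by
    rw [hA1, hB2, hA3, hB3] at h7
    push_cast at h7
    rw [ZMod.natCast_zmod_val, ZMod.natCast_zmod_val, ZMod.natCast_zmod_val,
      ZMod.natCast_zmod_val] at h7
    exact sub_eq_zero.1 h7
  obtain ⟨g1, g2⟩ := hT _ k1 _ k2 _ k3 h8
  have ha : A1 = A3 := by rw [hA1, hA3, (Prod.mk.inj g1).1]
  have ha2 : A2 = A3 := by rw [hA2, hA3, (Prod.mk.inj g2).1]
  have hb2 : B2 = B3 := by rw [hB2, hB3, (Prod.mk.inj g2).2]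
  rw [ha, ha2, hb2, sub_self, zpow_zero, one_mul, inv_one, mul_one] at he
  have h9 : x1 * y2 = x3 * y3 := mul_right_cancel he
  obtain ⟨f1, f2⟩ := hS _ h1 _ h2 _ h3 h9
  rw [f1, f2, g1, g2]
  exact ⟨rfl, rfl⟩

theorem matM_ext {G : Type*} [Group G] [DecidableEq G] {N B : Subgroup G} (hNB : N ≤ B)
    (hn : ∀ b ∈ B, ∀ x ∈ N, b * x * b⁻¹ ∈ N) {t : G} (ht : t ∈ B) {q : ℕ} [NeZero q]
    (hq : ∀ k : ℤ, t ^ k ∈ N → (q : ℤ) ∣ k) {S : Finset (G × G)} (hS : MatM S)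
    (hSN : ∀ a ∈ S, a.1 ∈ N ∧ a.2 ∈ N) {T : Finset (ZMod q × ZMod q)} (hT : Mat T) :
    ∃ U : Finset (G × G), MatM U ∧ (∀ a ∈ U, a.1 ∈ B ∧ a.2 ∈ B) ∧ U.card = S.card * T.card := by
  have key := mg_key hNB hn ht hq hS hSN hT
  refine ⟨(S ×ˢ T).image (mgF t), ?_, ?_, ?_⟩
  · intro a ha b hb c hc he
    obtain ⟨w1, hw1, rfl⟩ := mem_image.1 ha
    obtain ⟨w2, hw2, rfl⟩ := mem_image.1 hb
    obtain ⟨w3, hw3, rfl⟩ := mem_image.1 hc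
    rw [mem_product] at hw1 hw2 hw3
    obtain ⟨h1, h2⟩ := key w1 w2 w3 hw1.1 hw2.1 hw3.1 hw1.2 hw2.2 hw3.2 he
    rw [h1, h2]
    exact ⟨rfl, rfl⟩
  · intro a ha
    obtain ⟨w, hw, rfl⟩ := mem_image.1 ha
    rw [mem_product] at hw
    have h1 := hSN _ hw.1
    have h2 : ∀ k : ℤ, t ^ k ∈ B := fun k => Subgroup.zpow_mem B ht k
    exact ⟨B.mul_mem (hNB h1.1) (h2 _),
      B.mul_mem (B.mul_mem (B.mul_mem (h2 _) (hNB h1.2)) (h2 _)) (h2 _)⟩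
  · rw [card_image_of_injOn, card_product]
    intro w1 hw1 w2 hw2 he
    have hw1' := mem_product.1 (mem_coe.1 hw1)
    have hw2' := mem_product.1 (mem_coe.1 hw2)
    have he' : mgF t w1 = mgF t w2 := he
    exact (key w1 w2 w1 hw1'.1 hw2'.1 hw1'.1 hw1'.2 hw2'.2 hw1'.2 (by rw [he'])).2.symm

end Pool.Agent.SXQ
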