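import Pool.Agent.SXQ.Inv

/-!
# SXQ-Op: the operator norm of an invariant matrix

Proof. Let `T y y' = ∑ x, M x y * M x y'` (the matrix `Mᵀ M`); it is symmetric and positive semidefinite,
`T (ψY g y) (ψY g y') = T y y'` (substitute `x ↦ ψX g x` in the sum) and
`∑ x, (∑ y, M x y * f y) ^ 2 = ∑ y, f y * ∑ y', T y y' * f y'`.
If `Y` is empty both sides are `0`. Otherwise let `λ` be the largest eigenvalue of `T`
(`Matrix.IsHermitian.eigenvalues`, indexed by `Y`; orthonormal basis of eigenvectors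
`Matrix.IsHermitian.eigenvectorBasis`; all eigenvalues are `≥ 0`, e.g. `Matrix.PosSemidef.eigenvalues_nonneg`,
`Matrix.posSemidef_conjTranspose_mul_self`). Then `⟨f, T f⟩ ≤ λ ∑ f y ^ 2` (expand in the eigenvector basis).
So it is enough to show `D λ ≤ ∑ x, ∑ y, M x y ^ 2 = trace T = ∑ (eigenvalues)`
(`Matrix.IsHermitian.trace_eq_sum_eigenvalues`).
If `λ = 0` this is clear. Let `λ > 0` and `W = {f | T f = λ f}` (a submodule of `Y → ℝ`, e.g.
`LinearMap.ker (Matrix.toLin' T - λ • 1)` or `Module.End.eigenspace`). `W` is invariant under `f ↦ f ∘ ψY g`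
because `T` is. If `finrank W < D`, then by `inv_small` all `f ∈ W` are `A`-invariant, so by `hK` `M f = 0`, so
`T f = Mᵀ (M f) = 0` and `f = 0` as `λ ≠ 0`; but `W ≠ 0`, contradiction. So `D ≤ finrank W`. An `f ∈ W` is a
linear combination of the eigenvectors with eigenvalue `λ` (its other coordinates `c_i` satisfy
`(λ_i - λ) c_i = 0`), so `finrank W ≤ #{i | λ_i = λ}` (`finrank_span_le_card` or similar) and
`∑ λ_i ≥ #{i | λ_i = λ} λ ≥ D λ`.
Any other proof is welcome.
-/

set_option autoImplicit false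

namespace Pool.Agent.SXQ

open Matrix in
private theorem op_inner {Y : Type*} [Fintype Y] (x y : EuclideanSpace ℝ Y) :
    inner ℝ x y = x.ofLp ⬝ᵥ y.ofLp := by
  rw [PiLp.inner_apply]
  refine Finset.sum_congr rfl fun i _ => ?_
  simp [mul_comm]

open Matrix in
/-- spectral facts for a symmetric matrix in coordinates -/
private theorem op_spec {Y : Type*} [Fintype Y] [DecidableEq Y] (T : Matrix Y Y ℝ)
    (hT : T.IsHermitian) :
    ∃ (e : Y → Y → ℝ) (l : Y → ℝ), (∀ i, T.mulVec (e i) = l i • e i) ∧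
      (∀ i, e i ⬝ᵥ e i = 1) ∧
      (∀ f : Y → ℝ, ∑ i, (e i ⬝ᵥ f) • e i = f) ∧
      (∀ f g : Y → ℝ, ∑ i, (e i ⬝ᵥ f) * (e i ⬝ᵥ g) = f ⬝ᵥ g) ∧
      T.trace = ∑ i, l i := by
  refine ⟨fun i => (hT.eigenvectorBasis i).ofLp, hT.eigenvalues, hT.mulVec_eigenvectorBasis, ?_, ?_,
    ?_, ?_⟩
  · intro i
    rw [← op_inner]
    have := hT.eigenvectorBasis.orthonormal.1 i
    rw [real_inner_self_eq_norm_sq, this]
    norm_num
  · intro f
    have h := hT.eigenvectorBasis.sum_repr' (WithLp.toLp 2 f)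
    have h2 := congrArg WithLp.ofLp h
    rw [WithLp.ofLp_sum] at h2
    refine Eq.trans ?_ h2
    refine Finset.sum_congr rfl fun i _ => ?_
    rw [WithLp.ofLp_smul, op_inner]
  · intro f g
    have h := hT.eigenvectorBasis.sum_inner_mul_inner (WithLp.toLp 2 f) (WithLp.toLp 2 g)
    rw [op_inner] at h
    refine Eq.trans ?_ h
    refine Finset.sum_congr rfl fun i _ => ?_
    rw [op_inner, op_inner, dotProduct_comm f]
  · exact hT.trace_eq_sum_eigenvalues

open Matrix in
theorem op_bound {A X Y : Type*} [Group A] [Fintype X] [Fintype Y] {D : ℕ}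
    (hQ : QR A D) (ψX : A →* Equiv.Perm X) (ψY : A →* Equiv.Perm Y) (M : X → Y → ℝ)
    (hM : ∀ (g : A) x y, M (ψX g x) (ψY g y) = M x y)
    (hK : ∀ f : Y → ℝ, (∀ (g : A) y, f (ψY g y) = f y) → ∀ x, ∑ y, M x y * f y = 0) (f : Y → ℝ) :
    (D : ℝ) * ∑ x, (∑ y, M x y * f y) ^ 2 ≤ (∑ x, ∑ y, M x y ^ 2) * ∑ y, f y ^ 2 := by
  classical
  rcases isEmpty_or_nonempty Y with hE | hne
  · simp
  have T0 : ∃ T : Matrix Y Y ℝ, ∀ y y', T y y' = ∑ x, M x y * M x y' := ⟨fun y y' => _, fun _ _ => rfl⟩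
  obtain ⟨T, hTd⟩ := T0
  have hT : T.IsHermitian := by
    ext y y'
    rw [Matrix.conjTranspose_apply, hTd, hTd, star_trivial]
    exact Finset.sum_congr rfl fun x _ => mul_comm _ _
  have hsym : ∀ f g : Y → ℝ, f ⬝ᵥ T.mulVec g = T.mulVec f ⬝ᵥ g := by
    intro f g
    rw [Matrix.dotProduct_mulVec, ← Matrix.mulVec_transpose]
    have : Tᵀ = T := by
      rw [← Matrix.conjTranspose_eq_transpose_of_trivial]
      exact hT
    rw [this]
  have hTf : ∀ (f : Y → ℝ) (y : Y), T.mulVec f y = ∑ x, M x y * ∑ y', M x y' * f y' := by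
    intro f y
    show ∑ y', T y y' * f y' = _
    simp only [hTd, Finset.sum_mul, Finset.mul_sum]
    rw [Finset.sum_comm]
    refine Finset.sum_congr rfl fun x _ => Finset.sum_congr rfl fun y' _ => ?_
    ring
  have hquad : ∀ f : Y → ℝ, ∑ x, (∑ y, M x y * f y) ^ 2 = f ⬝ᵥ T.mulVec f := by
    intro f
    show _ = ∑ y, f y * T.mulVec f y
    simp only [hTf, Finset.mul_sum]
    rw [Finset.sum_comm]
    refine Finset.sum_congr rfl fun x _ => ?_
    rw [sq, Finset.sum_mul]
    refine Finset.sum_congr rfl fun y _ => ?_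
    rw [Finset.mul_sum]
    refine Finset.sum_congr rfl fun y' _ => ?_
    ring
  obtain ⟨e, l, hel, hee, hrep, hpar, htr⟩ := op_spec T hT
  have hce : ∀ (f : Y → ℝ) i, e i ⬝ᵥ T.mulVec f = l i * (e i ⬝ᵥ f) := by
    intro f i
    rw [hsym, hel, smul_dotProduct, smul_eq_mul]
  have hlnn : ∀ i, 0 ≤ l i := by
    intro i
    have h1 := hquad (e i)
    rw [hce, hee, mul_one] at h1
    rw [← h1]
    exact Finset.sum_nonneg fun x _ => sq_nonneg _
  obtain ⟨i0, -, hi0⟩ := Finset.exists_max_image Finset.univ l Finset.univ_nonempty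
  -- the trace
  have htrace : ∑ x, ∑ y, M x y ^ 2 = ∑ i, l i := by
    rw [← htr, Matrix.trace, Finset.sum_comm]
    refine Finset.sum_congr rfl fun y _ => ?_
    rw [Matrix.diag_apply, hTd]
    exact Finset.sum_congr rfl fun x _ => sq _
  have hD : (D : ℝ) * l i0 ≤ ∑ i, l i := by
    rcases (hlnn i0).eq_or_lt with h0 | hpos
    · rw [← h0, mul_zero]
      exact Finset.sum_nonneg fun i _ => hlnn i
    let W : Submodule ℝ (Y → ℝ) := LinearMap.ker (T.mulVecLin - l i0 • LinearMap.id)
    have hW : ∀ f, f ∈ W ↔ T.mulVec f = l i0 • f := by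
      intro f
      rw [LinearMap.mem_ker, LinearMap.sub_apply, sub_eq_zero]
      rfl
    have hinv : ∀ g : A, ∀ f ∈ W, (fun y => f (ψY g y)) ∈ W := by
      intro g f hf
      rw [hW] at hf ⊢
      funext y
      have h1 := congrFun hf (ψY g y)
      rw [Pi.smul_apply] at h1 ⊢
      rw [← h1]
      show ∑ y', T y y' * f (ψY g y') = ∑ y', T (ψY g y) y' * f y'
      rw [← Equiv.sum_comp (ψY g) (fun y' => T (ψY g y) y' * f y')]
      refine Finset.sum_congr rfl fun y' _ => ?_
      congr 1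
      rw [hTd, hTd, ← Equiv.sum_comp (ψX g) (fun x => M x (ψY g y) * M x (ψY g y'))]
      refine Finset.sum_congr rfl fun x _ => ?_
      rw [hM, hM]
    have hfr : D ≤ Module.finrank ℝ W := by
      by_contra hlt
      push Not at hlt
      have h1 := inv_small hQ ψY W hinv hlt (e i0) ((hW _).2 (hel i0))
      have h2 := hK (e i0) h1
      have h3 : T.mulVec (e i0) = 0 := by
        funext y
        rw [hTf]
        simp [h2]
      have h4 := hce (e i0) i0
      rw [h3, hee, dotProduct_zero, mul_one] at h4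
      exact hpos.ne h4
    have hle : W ≤ Submodule.span ℝ
        (((Finset.univ.filter fun i => l i = l i0).image e : Finset (Y → ℝ)) : Set (Y → ℝ)) := by
      intro f hf
      rw [hW] at hf
      rw [← hrep f]
      refine Submodule.sum_mem _ fun i _ => ?_
      by_cases hi : l i = l i0
      · refine Submodule.smul_mem _ _ (Submodule.subset_span ?_)
        rw [Finset.coe_image]
        exact ⟨i, by simpa using hi, rfl⟩
      · have h1 := hce f i
        rw [hf, dotProduct_smul, smul_eq_mul] at h1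
        have h2 : (l i0 - l i) * (e i ⬝ᵥ f) = 0 := by linarith
        rcases mul_eq_zero.1 h2 with h3 | h3
        · exact absurd (sub_eq_zero.1 h3).symm hi
        · rw [h3, zero_smul]
          exact Submodule.zero_mem _
    have hcard : D ≤ (Finset.univ.filter fun i => l i = l i0).card := by
      refine hfr.trans ((Submodule.finrank_mono hle).trans ?_)
      exact (finrank_span_finset_le_card _).trans Finset.card_image_le
    calc (D : ℝ) * l i0 ≤ ((Finset.univ.filter fun i => l i = l i0).card : ℝ) * l i0 :=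
          mul_le_mul_of_nonneg_right (by exact_mod_cast hcard) (hlnn i0)
      _ = ∑ i ∈ Finset.univ.filter fun i => l i = l i0, l i := by
          rw [← nsmul_eq_mul, ← Finset.sum_const]
          refine Finset.sum_congr rfl fun i hi => ?_
          exact (Finset.mem_filter.1 hi).2.symm
      _ ≤ ∑ i, l i := Finset.sum_le_sum_of_subset_of_nonneg (Finset.filter_subset _ _)
          fun i _ _ => hlnn i
  have hq : f ⬝ᵥ T.mulVec f ≤ l i0 * (f ⬝ᵥ f) := by
    rw [← hpar f (T.mulVec f), ← hpar f f, Finset.mul_sum]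
    refine Finset.sum_le_sum fun i _ => ?_
    rw [hce]
    have := hi0 i (Finset.mem_univ i)
    nlinarith [mul_self_nonneg (e i ⬝ᵥ f)]
  have hff : f ⬝ᵥ f = ∑ y, f y ^ 2 := Finset.sum_congr rfl fun y _ => (sq (f y)).symm
  have hff0 : 0 ≤ f ⬝ᵥ f := by
    rw [hff]
    exact Finset.sum_nonneg fun y _ => sq_nonneg _
  rw [hquad, htrace, ← hff]
  calc (D : ℝ) * (f ⬝ᵥ T.mulVec f) ≤ D * (l i0 * (f ⬝ᵥ f)) :=
        mul_le_mul_of_nonneg_left hq (Nat.cast_nonneg _)
    _ = (D * l i0) * (f ⬝ᵥ f) := by ring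
    _ ≤ (∑ i, l i) * (f ⬝ᵥ f) := mul_le_mul_of_nonneg_right hD hff0

end Pool.Agent.SXQ
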