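import Pool.Agent.SXQ.Defs

/-!
# SXQ-Top: the top singular space of a matrix

Proof. Same spectral argument as in `SXQ/Op.lean` (read its proof, copy private lemmas). `T y y' = ∑ x, M x y * M x y'` is
symmetric positive semidefinite and not zero (its trace `∑ ∑ M ^ 2` is positive). Let `lam` be its largest eigenvalue
(`> 0`), `W = {f | T f = lam f}`. The maximality of `lam` gives the last part (expand `f` in an orthonormal basis of
eigenvectors, `∑ x, (∑ y, M x y * f y) ^ 2 = ⟨f, T f⟩`). `W` has dimension at most the number of indices `i` with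
eigenvalue `lam` (the other coordinates of `f ∈ W` vanish), and
`(number of these i) * lam ≤ sum of all eigenvalues = trace T = ∑ ∑ M ^ 2` as all eigenvalues are `≥ 0`.
-/

set_option autoImplicit false

namespace Pool.Agent.SXQ

open Matrix in
private theorem top_inner {Y : Type*} [Fintype Y] (x y : EuclideanSpace ℝ Y) :
    inner ℝ x y = x.ofLp ⬝ᵥ y.ofLp := by
  rw [PiLp.inner_apply]
  refine Finset.sum_congr rfl fun i _ => ?_
  simp [mul_comm]

open Matrix in
/-- spectral facts for a symmetric matrix in coordinates -/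
private theorem top_spec {Y : Type*} [Fintype Y] [DecidableEq Y] (T : Matrix Y Y ℝ)
    (hT : T.IsHermitian) :
    ∃ (e : Y → Y → ℝ) (l : Y → ℝ), (∀ i, T.mulVec (e i) = l i • e i) ∧
      (∀ i, e i ⬝ᵥ e i = 1) ∧
      (∀ f : Y → ℝ, ∑ i, (e i ⬝ᵥ f) • e i = f) ∧
      (∀ f g : Y → ℝ, ∑ i, (e i ⬝ᵥ f) * (e i ⬝ᵥ g) = f ⬝ᵥ g) ∧
      T.trace = ∑ i, l i := by
  refine ⟨fun i => (hT.eigenvectorBasis i).ofLp, hT.eigenvalues, hT.mulVec_eigenvectorBasis, ?_, ?_,
    ?_, ?_⟩
  · intro i
    rw [← top_inner]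
    have := hT.eigenvectorBasis.orthonormal.1 i
    rw [real_inner_self_eq_norm_sq, this]
    norm_num
  · intro f
    have h := hT.eigenvectorBasis.sum_repr' (WithLp.toLp 2 f)
    have h2 := congrArg WithLp.ofLp h
    rw [WithLp.ofLp_sum] at h2
    refine Eq.trans ?_ h2
    refine Finset.sum_congr rfl fun i _ => ?_
    rw [WithLp.ofLp_smul, top_inner]
  · intro f g
    have h := hT.eigenvectorBasis.sum_inner_mul_inner (WithLp.toLp 2 f) (WithLp.toLp 2 g)
    rw [top_inner] at h
    refine Eq.trans ?_ h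
    refine Finset.sum_congr rfl fun i _ => ?_
    rw [top_inner, top_inner, dotProduct_comm f]
  · exact hT.trace_eq_sum_eigenvalues

open Matrix in
theorem top_space {X Y : Type*} [Fintype X] [Fintype Y] (M : X → Y → ℝ)
    (hM : ∃ x y, M x y ≠ 0) :
    ∃ (lam : ℝ) (W : Submodule ℝ (Y → ℝ)), 0 < lam ∧ W ≠ ⊥ ∧
      (∀ f : Y → ℝ, f ∈ W ↔ ∀ y, ∑ x, M x y * ∑ y', M x y' * f y' = lam * f y) ∧
      (Module.finrank ℝ W : ℝ) * lam ≤ ∑ x, ∑ y, M x y ^ 2 ∧
      ∀ f : Y → ℝ, ∑ x, (∑ y, M x y * f y) ^ 2 ≤ lam * ∑ y, f y ^ 2 := by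
  classical
  obtain ⟨x0, y0, hxy⟩ := hM
  have hne : Nonempty Y := ⟨y0⟩
  have T0 : ∃ T : Matrix Y Y ℝ, ∀ y y', T y y' = ∑ x, M x y * M x y' := ⟨fun y y' => _, fun _ _ => rfl⟩
  obtain ⟨T, hTd⟩ := T0
  have hT : T.IsHermitian := by
    ext y y'
    rw [Matrix.conjTranspose_apply, hTd, hTd, star_trivial]
    exact Finset.sum_congr rfl fun x _ => mul_comm _ _
  have hsym : ∀ f g : Y → ℝ, f ⬝ᵥ T.mulVec g = T.mulVec f ⬝ᵥ g := by
    intro f g
    rw [Matrix.dotProduct_mulVec, ← Matrix.mulVec_transpose]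
    have : Tᵀ = T := by
      rw [← Matrix.conjTranspose_eq_transpose_of_trivial]
      exact hT
    rw [this]
  have hTf : ∀ (f : Y → ℝ) (y : Y), T.mulVec f y = ∑ x, M x y * ∑ y', M x y' * f y' := by
    intro f y
    show ∑ y', T y y' * f y' = _
    simp only [hTd, Finset.sum_mul, Finset.mul_sum]
    rw [Finset.sum_comm]
    refine Finset.sum_congr rfl fun x _ => Finset.sum_congr rfl fun y' _ => ?_
    ring
  have hquad : ∀ f : Y → ℝ, ∑ x, (∑ y, M x y * f y) ^ 2 = f ⬝ᵥ T.mulVec f := by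
    intro f
    show _ = ∑ y, f y * T.mulVec f y
    simp only [hTf, Finset.mul_sum]
    rw [Finset.sum_comm]
    refine Finset.sum_congr rfl fun x _ => ?_
    rw [sq, Finset.sum_mul]
    refine Finset.sum_congr rfl fun y _ => ?_
    rw [Finset.mul_sum]
    refine Finset.sum_congr rfl fun y' _ => ?_
    ring
  obtain ⟨e, l, hel, hee, hrep, hpar, htr⟩ := top_spec T hT
  have hce : ∀ (f : Y → ℝ) i, e i ⬝ᵥ T.mulVec f = l i * (e i ⬝ᵥ f) := by
    intro f i
    rw [hsym, hel, smul_dotProduct, smul_eq_mul]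
  have hlnn : ∀ i, 0 ≤ l i := by
    intro i
    have h1 := hquad (e i)
    rw [hce, hee, mul_one] at h1
    rw [← h1]
    exact Finset.sum_nonneg fun x _ => sq_nonneg _
  obtain ⟨i0, -, hi0⟩ := Finset.exists_max_image Finset.univ l Finset.univ_nonempty
  -- the trace
  have htrace : ∑ x, ∑ y, M x y ^ 2 = ∑ i, l i := by
    rw [← htr, Matrix.trace, Finset.sum_comm]
    refine Finset.sum_congr rfl fun y _ => ?_
    rw [Matrix.diag_apply, hTd]
    exact Finset.sum_congr rfl fun x _ => sq _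
  have hpos : 0 < l i0 := by
    rcases (hlnn i0).eq_or_lt with h0 | hpos
    · exfalso
      have h1 : ∑ i, l i = 0 := by
        refine Finset.sum_eq_zero fun i hi => ?_
        have := hi0 i hi
        exact le_antisymm (by rw [h0]; exact this) (hlnn i)
      rw [← htrace] at h1
      have h2 := (Finset.sum_eq_zero_iff_of_nonneg fun x _ =>
        Finset.sum_nonneg fun y _ => sq_nonneg (M x y)).1 h1 x0 (Finset.mem_univ _)
      have h3 := (Finset.sum_eq_zero_iff_of_nonneg fun y _ => sq_nonneg (M x0 y)).1 h2 y0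
        (Finset.mem_univ _)
      exact hxy (by simpa using h3)
    · exact hpos
  obtain ⟨W, hWd⟩ : ∃ W : Submodule ℝ (Y → ℝ), W = LinearMap.ker (T.mulVecLin - l i0 • LinearMap.id) :=
    ⟨_, rfl⟩
  have hW : ∀ f, f ∈ W ↔ T.mulVec f = l i0 • f := by
    intro f
    rw [hWd, LinearMap.mem_ker, LinearMap.sub_apply, sub_eq_zero]
    rfl
  have hle : W ≤ Submodule.span ℝ
      (((Finset.univ.filter fun i => l i = l i0).image e : Finset (Y → ℝ)) : Set (Y → ℝ)) := by
    intro f hf
    rw [hW] at hf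
    rw [← hrep f]
    refine Submodule.sum_mem _ fun i _ => ?_
    by_cases hi : l i = l i0
    · refine Submodule.smul_mem _ _ (Submodule.subset_span ?_)
      rw [Finset.coe_image]
      exact ⟨i, by simpa using hi, rfl⟩
    · have h1 := hce f i
      rw [hf, dotProduct_smul, smul_eq_mul] at h1
      have h2 : (l i0 - l i) * (e i ⬝ᵥ f) = 0 := by linarith
      rcases mul_eq_zero.1 h2 with h3 | h3
      · exact absurd (sub_eq_zero.1 h3).symm hi
      · rw [h3, zero_smul]
        exact Submodule.zero_mem _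
  have hcard : Module.finrank ℝ W ≤ (Finset.univ.filter fun i => l i = l i0).card :=
    (Submodule.finrank_mono hle).trans
      ((finrank_span_finset_le_card _).trans Finset.card_image_le)
  refine ⟨l i0, W, hpos, ?_, ?_, ?_, ?_⟩
  · intro h
    have h1 : e i0 ∈ W := (hW _).2 (hel i0)
    rw [h, Submodule.mem_bot] at h1
    have h2 := hee i0
    rw [h1, dotProduct_zero] at h2
    exact zero_ne_one h2
  · intro f
    rw [hW]
    constructor
    · intro h y
      rw [← hTf, h]
      rfl
    · intro h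
      funext y
      rw [hTf, h]
      rfl
  · rw [htrace]
    calc (Module.finrank ℝ W : ℝ) * l i0
        ≤ ((Finset.univ.filter fun i => l i = l i0).card : ℝ) * l i0 :=
          mul_le_mul_of_nonneg_right (by exact_mod_cast hcard) (hlnn i0)
      _ = ∑ i ∈ Finset.univ.filter fun i => l i = l i0, l i := by
          rw [← nsmul_eq_mul, ← Finset.sum_const]
          refine Finset.sum_congr rfl fun i hi => ?_
          exact (Finset.mem_filter.1 hi).2.symm
      _ ≤ ∑ i, l i := Finset.sum_le_sum_of_subset_of_nonneg (Finset.filter_subset _ _)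
          fun i _ _ => hlnn i
  · intro f
    have hff : f ⬝ᵥ f = ∑ y, f y ^ 2 := Finset.sum_congr rfl fun y _ => (sq (f y)).symm
    rw [hquad, ← hff, ← hpar f (T.mulVec f), ← hpar f f, Finset.mul_sum]
    refine Finset.sum_le_sum fun i _ => ?_
    rw [hce]
    have := hi0 i (Finset.mem_univ i)
    nlinarith [mul_self_nonneg (e i ⬝ᵥ f)]

end Pool.Agent.SXQ
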