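import Pool.Agent.SXQ.Cen

/-!
# SXQ-Tri: counting triangles between three orbits

All rows and columns of `P` have the same sum; `P' = P - p`, `Q' = Q - q`, `R' = R - r` have rows
and columns with sum `0`, so in the expansion of `∑ ∑ ∑ P Q R` only the terms `p q r a b c` and
`∑ ∑ ∑ P' Q' R'` remain, and the second is bounded by `centred`.
-/

set_option autoImplicit false

namespace Pool.Agent.SXQ

open Finset

private theorem triq_row {A X Y : Type*} [Group A] [Fintype X] [Fintype Y] [Nonempty X]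
    (ψX : A →* Equiv.Perm X) (ψY : A →* Equiv.Perm Y) (tX : Tran ψX) (P : X → Y → ℝ)
    (iP : ∀ (g : A) x y, P (ψX g x) (ψY g y) = P x y) (p : ℝ)
    (hp : ∑ x, ∑ y, P x y = p * (Fintype.card X * Fintype.card Y)) (x : X) :
    ∑ y, P x y = p * Fintype.card Y := by
  have h1 : ∀ x' : X, ∑ y, P x' y = ∑ y, P x y := by
    intro x'
    obtain ⟨g, hg⟩ := tX x x'
    rw [← hg, ← Equiv.sum_comp (ψY g) (fun y => P (ψX g x) y)]
    exact sum_congr rfl fun y _ => iP g x y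
  rw [sum_congr rfl fun x' _ => h1 x', sum_const, card_univ, nsmul_eq_mul] at hp
  have h2 : (0 : ℝ) < Fintype.card X := by exact_mod_cast Fintype.card_pos
  have h3 : (Fintype.card X : ℝ) * (∑ y, P x y - p * Fintype.card Y) = 0 := by
    rw [mul_sub, hp]
    ring
  rcases mul_eq_zero.1 h3 with h4 | h4
  · exact absurd h4 h2.ne'
  · linarith

private theorem triq_zero {Y : Type*} [Fintype Y] (F : Y → ℝ) (p : ℝ)
    (h : ∑ y, F y = p * Fintype.card Y) : ∑ y, (F y - p) = 0 := by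
  rw [sum_sub_distrib, h, sum_const, card_univ, nsmul_eq_mul]
  ring

private theorem triq_sq {X Y : Type*} [Fintype X] [Fintype Y] (P : X → Y → ℝ)
    (bP : ∀ x y, P x y = 0 ∨ P x y = 1) (p : ℝ)
    (hp : ∑ x, ∑ y, P x y = p * (Fintype.card X * Fintype.card Y)) :
    ∑ x, ∑ y, (P x y - p) ^ 2 ≤ p * (Fintype.card X * Fintype.card Y) := by
  have h1 : ∀ x y, (P x y - p) ^ 2 = (1 - 2 * p) * P x y + p ^ 2 := by
    intro x y
    rcases bP x y with h | h <;> (rw [h]; ring)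
  simp only [h1, sum_add_distrib, ← mul_sum, hp, sum_const, card_univ, nsmul_eq_mul]
  have h2 : (0 : ℝ) ≤ p ^ 2 * (Fintype.card X * Fintype.card Y) := by positivity
  nlinarith

private theorem triq_nonneg {X Y : Type*} [Fintype X] [Fintype Y] [Nonempty X] [Nonempty Y]
    (P : X → Y → ℝ) (bP : ∀ x y, P x y = 0 ∨ P x y = 1) (p : ℝ)
    (hp : ∑ x, ∑ y, P x y = p * (Fintype.card X * Fintype.card Y)) : 0 ≤ p := by
  have h1 : 0 ≤ ∑ x, ∑ y, P x y := sum_nonneg fun x _ => sum_nonneg fun y _ => by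
    rcases bP x y with h | h <;> rw [h] <;> norm_num
  have h2 : (0 : ℝ) < Fintype.card X := by exact_mod_cast Fintype.card_pos
  have h3 : (0 : ℝ) < Fintype.card Y := by exact_mod_cast Fintype.card_pos
  rw [hp] at h1
  exact nonneg_of_mul_nonneg_left h1 (mul_pos h2 h3)

private theorem triq_exp {X Y Z : Type*} [Fintype X] [Fintype Y] [Fintype Z]
    (P : X → Y → ℝ) (Q : Y → Z → ℝ) (R : X → Z → ℝ) (p q r : ℝ)
    (rP : ∀ x, ∑ y, (P x y - p) = 0) (rQ : ∀ y, ∑ z, (Q y z - q) = 0)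
    (cQ : ∀ z, ∑ y, (Q y z - q) = 0) (rR : ∀ x, ∑ z, (R x z - r) = 0) :
    ∑ x, ∑ y, ∑ z, P x y * Q y z * R x z =
      p * q * r * (Fintype.card X * Fintype.card Y * Fintype.card Z) +
        ∑ x, ∑ y, ∑ z, (P x y - p) * (Q y z - q) * (R x z - r) := by
  have e : ∀ x y z, P x y * Q y z * R x z = (P x y - p) * (Q y z - q) * (R x z - r) +
      (p * ((Q y z - q) * (R x z - r)) + q * ((P x y - p) * (R x z - r)) +
        r * ((P x y - p) * (Q y z - q)) + p * q * (R x z - r) + p * r * (Q y z - q) +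
        q * r * (P x y - p) + p * q * r) := by
    intro x y z
    ring
  have z1 : ∀ x, ∑ y, ∑ z, (Q y z - q) * (R x z - r) = 0 := by
    intro x
    rw [sum_comm]
    refine sum_eq_zero fun z _ => ?_
    rw [← sum_mul, cQ, zero_mul]
  have z2 : ∀ x y, ∑ z, (P x y - p) * (R x z - r) = 0 := by
    intro x y
    rw [← mul_sum, rR, mul_zero]
  have z3 : ∀ x y, ∑ z, (P x y - p) * (Q y z - q) = 0 := by
    intro x y
    rw [← mul_sum, rQ, mul_zero]
  have z6 : ∀ x, ∑ y, ∑ _z : Z, (P x y - p) = 0 := by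
    intro x
    rw [sum_comm]
    exact sum_eq_zero fun z _ => rP x
  have z4 : ∀ x, ∑ y : Y, ∑ z, (R x z - r) = 0 := fun x => sum_eq_zero fun y _ => rR x
  have z5 : ∑ y, ∑ z, (Q y z - q) = 0 := sum_eq_zero fun y _ => rQ y
  have z2' : ∀ x, ∑ y, ∑ z, (P x y - p) * (R x z - r) = 0 := fun x => sum_eq_zero fun y _ => z2 x y
  have z3' : ∀ x, ∑ y, ∑ z, (P x y - p) * (Q y z - q) = 0 := fun x => sum_eq_zero fun y _ => z3 x y
  have z7 : ∑ _y : Y, ∑ _z : Z, p * q * r = p * q * r * (Fintype.card Y * Fintype.card Z) := by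
    simp only [sum_const, card_univ, nsmul_eq_mul]
    ring
  have e2 : ∀ x, ∑ y, ∑ z, P x y * Q y z * R x z =
      ∑ y, ∑ z, (P x y - p) * (Q y z - q) * (R x z - r) +
        p * q * r * (Fintype.card Y * Fintype.card Z) := by
    intro x
    have e3 : ∑ y, ∑ z, P x y * Q y z * R x z =
      ∑ y, ∑ z, (P x y - p) * (Q y z - q) * (R x z - r) +
      (p * ∑ y, ∑ z, (Q y z - q) * (R x z - r) + q * ∑ y, ∑ z, (P x y - p) * (R x z - r) +
        r * ∑ y, ∑ z, (P x y - p) * (Q y z - q) + p * q * ∑ _y : Y, ∑ z, (R x z - r) +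
        p * r * ∑ y, ∑ z, (Q y z - q) +
        q * r * ∑ y, ∑ _z : Z, (P x y - p) + ∑ _y : Y, ∑ _z : Z, p * q * r) := by
      simp only [e, sum_add_distrib, mul_sum]
    rw [e3, z1, z2', z3', z4, z5, z6, z7]
    ring
  rw [sum_congr rfl fun x _ => e2 x, sum_add_distrib, sum_const, card_univ, nsmul_eq_mul]
  ring

theorem tri_count {A X Y Z : Type*} [Group A] [Fintype X] [Fintype Y] [Fintype Z] [Nonempty X]
    [Nonempty Y] [Nonempty Z] {D : ℕ} (hD : 1 ≤ D) (hQ : QR A D) (ψX : A →* Equiv.Perm X)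
    (ψY : A →* Equiv.Perm Y) (ψZ : A →* Equiv.Perm Z) (tX : Tran ψX) (tY : Tran ψY) (tZ : Tran ψZ)
    (P : X → Y → ℝ) (Q : Y → Z → ℝ) (R : X → Z → ℝ) (bP : ∀ x y, P x y = 0 ∨ P x y = 1)
    (bQ : ∀ y z, Q y z = 0 ∨ Q y z = 1) (bR : ∀ x z, R x z = 0 ∨ R x z = 1)
    (iP : ∀ (g : A) x y, P (ψX g x) (ψY g y) = P x y)
    (iQ : ∀ (g : A) y z, Q (ψY g y) (ψZ g z) = Q y z)
    (iR : ∀ (g : A) x z, R (ψX g x) (ψZ g z) = R x z) (p q r : ℝ)
    (hp : ∑ x, ∑ y, P x y = p * (Fintype.card X * Fintype.card Y))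
    (hq : ∑ y, ∑ z, Q y z = q * (Fintype.card Y * Fintype.card Z))
    (hr : ∑ x, ∑ z, R x z = r * (Fintype.card X * Fintype.card Z)) :
    (Fintype.card X : ℝ) * Fintype.card Y * Fintype.card Z * (p * q * r - √(p * q * r / D)) ≤
      ∑ x, ∑ y, ∑ z, P x y * Q y z * R x z := by
  have rP : ∀ x, ∑ y, (P x y - p) = 0 := fun x =>
    triq_zero (fun y => P x y) p (triq_row ψX ψY tX P iP p hp x)
  have rQ : ∀ y, ∑ z, (Q y z - q) = 0 := fun y =>
    triq_zero (fun z => Q y z) q (triq_row ψY ψZ tY Q iQ q hq y)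
  have cQ : ∀ z, ∑ y, (Q y z - q) = 0 := fun z =>
    triq_zero (fun y => Q y z) q (triq_row ψZ ψY tZ (fun z y => Q y z) (fun g z y => iQ g y z) q
      (by rw [sum_comm, hq]; ring) z)
  have rR : ∀ x, ∑ z, (R x z - r) = 0 := fun x =>
    triq_zero (fun z => R x z) r (triq_row ψX ψZ tX R iR r hr x)
  rw [triq_exp P Q R p q r rP rQ cQ rR]
  have h1 := centred hQ ψX ψY tY (fun x y => P x y - p) (fun y z => Q y z - q)
    (fun x z => R x z - r) (fun g x y => by rw [iP]) rP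
  have h2 := triq_sq P bP p hp
  have h3 := triq_sq Q bQ q hq
  have h4 := triq_sq R bR r hr
  have p0 := triq_nonneg P bP p hp
  have q0 := triq_nonneg Q bQ q hq
  have r0 := triq_nonneg R bR r hr
  have hX : (0 : ℝ) < Fintype.card X := by exact_mod_cast Fintype.card_pos
  have hY : (0 : ℝ) < Fintype.card Y := by exact_mod_cast Fintype.card_pos
  have hZ : (0 : ℝ) < Fintype.card Z := by exact_mod_cast Fintype.card_pos
  have hD' : (0 : ℝ) < D := by exact_mod_cast hD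
  have n2 : 0 ≤ ∑ x, ∑ y, (P x y - p) ^ 2 :=
    sum_nonneg fun x _ => sum_nonneg fun y _ => sq_nonneg _
  have n3 : 0 ≤ ∑ y, ∑ z, (Q y z - q) ^ 2 :=
    sum_nonneg fun x _ => sum_nonneg fun y _ => sq_nonneg _
  have n4 : 0 ≤ ∑ x, ∑ z, (R x z - r) ^ 2 :=
    sum_nonneg fun x _ => sum_nonneg fun y _ => sq_nonneg _
  generalize (∑ x, ∑ y, ∑ z, (P x y - p) * (Q y z - q) * (R x z - r)) = T at *
  generalize (∑ x, ∑ y, (P x y - p) ^ 2) = u1 at *
  generalize (∑ y, ∑ z, (Q y z - q) ^ 2) = u2 at *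
  generalize (∑ x, ∑ z, (R x z - r) ^ 2) = u3 at *
  generalize (Fintype.card X : ℝ) = a at *
  generalize (Fintype.card Y : ℝ) = b at *
  generalize (Fintype.card Z : ℝ) = c at *
  generalize (D : ℝ) = d at *
  have h5 : u1 * u2 * u3 ≤ (p * (a * b)) * (q * (b * c)) * (r * (a * c)) :=
    mul_le_mul (mul_le_mul h2 h3 n3 (by positivity)) h4 n4 (by positivity)
  have h6 : T ^ 2 ≤ (a * b * c * √(p * q * r / d)) ^ 2 := by
    rw [mul_pow, Real.sq_sqrt (by positivity)]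
    rw [mul_div_assoc', le_div_iff₀ hD']
    calc T ^ 2 * d = d * T ^ 2 := by ring
      _ ≤ _ := h1
      _ ≤ _ := h5
      _ = _ := by ring
  have h7 := (abs_le_of_sq_le_sq' h6 (by positivity)).1
  linarith

end Pool.Agent.SXQ
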