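import Pool.Agent.SXQ.Core
import Pool.Agent.SXQ.Avg

/-!
# SXQ-Up: the upper bound

Every moved edge contains a shadow pair of small density (`exists_pair`), at most two edges contain a given pair
(`pair_le`), and there are at most `η n ^ 2` shadow pairs of density less than `η` (`avg`).
-/

set_option autoImplicit false

namespace Pool.Agent.SXQ

open Finset Pool.Agent.RSV Pool.Agent.SXS

/-- a moved edge contains a shadow pair of small density -/
private lemma exists_pair {V A : Type*} [Fintype V] [DecidableEq V] [Group A]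
    {H : Finset (Finset V)} (h3 : Three H) (hN : NoTri H) {φ : A →* Equiv.Perm V} (hA : Auts H φ)
    {D : ℕ} (hD : 1 ≤ D) (hQ : QR A D) {η : ℝ} (hη : 0 ≤ η) (hη3 : η ^ 3 = 4 / D)
    {e : Finset V} (he : e ∈ moved H φ) :
    ∃ x ∈ e, ∃ y ∈ e, y ∈ nb H x ∧ den H φ x y < η := by
  classical
  simp only [moved, mem_filter] at he
  obtain ⟨heH, z, hze, hz⟩ := he
  have hc := h3 e heH
  have hc2 : (e.erase z).card = 2 := by rw [card_erase_of_mem hze, hc]
  obtain ⟨x, y, hxy, hxye⟩ := card_eq_two.mp hc2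
  have hx : x ∈ e.erase z := by rw [hxye]; simp
  have hy : y ∈ e.erase z := by rw [hxye]; simp
  rw [mem_erase] at hx hy
  have nbm : ∀ a b, a ∈ e → b ∈ e → b ≠ a → b ∈ nb H a := by
    intro a b ha hb hne
    simp only [nb, mem_filter, mem_univ, true_and]
    exact ⟨hne, e, heH, hb, ha⟩
  have h1 := nbm x y hx.2 hy.2 hxy.symm
  have h2 := nbm y z hy.2 hze hy.1.symm
  have h4 := nbm x z hx.2 hze hx.1.symm
  have hcore := core h3 hN hA hD hQ h1 h2 h4 hz
  by_contra hcon
  push Not at hcon
  have a1 := hcon x hx.2 y hy.2 h1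
  have a2 := hcon y hy.2 z hze h2
  have a3 := hcon x hx.2 z hze h4
  have h5 : η * η ≤ den H φ x y * den H φ y z := mul_le_mul a1 a2 hη (hη.trans a1)
  have h6 : η * η * η ≤ den H φ x y * den H φ y z * den H φ x z :=
    mul_le_mul h5 a3 hη ((mul_nonneg hη hη).trans h5)
  have h7 : η ^ 3 = η * η * η := by ring
  rw [h7] at hη3
  linarith

theorem upper_noTri {V A : Type*} [Fintype V] [DecidableEq V] [Group A] {H : Finset (Finset V)}
    (h3 : Three H) (hN : NoTri H) {φ : A →* Equiv.Perm V} (hA : Auts H φ) {D : ℕ} (hD : 1 ≤ D)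
    (hQ : QR A D) :
    ((moved H φ).card : ℝ) ≤ (4 / D : ℝ) ^ (1 / 3 : ℝ) * (Fintype.card V : ℝ) ^ 2 := by
  classical
  set η : ℝ := (4 / D : ℝ) ^ (1 / 3 : ℝ) with hηdef
  have h4D : (0 : ℝ) ≤ 4 / D := by positivity
  have hη : 0 ≤ η := Real.rpow_nonneg h4D _
  have hη3 : η ^ 3 = 4 / D := by
    rw [hηdef, ← Real.rpow_natCast, ← Real.rpow_mul h4D]
    norm_num
  set B : Finset (V × V) :=
    univ.filter fun w : V × V => w.2 ∈ nb H w.1 ∧ den H φ w.1 w.2 < η with hB
  have hBle : (B.card : ℝ) ≤ η * (Fintype.card V : ℝ) ^ 2 := by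
    have := avg H φ hη
    convert this using 2
  have hlow : ∀ e ∈ moved H φ,
      2 ≤ (B.bipartiteAbove (fun (e : Finset V) (w : V × V) => w.1 ∈ e ∧ w.2 ∈ e) e).card := by
    intro e he
    obtain ⟨x, hx, y, hy, hxy, hlt⟩ := exists_pair h3 hN hA hD hQ hη hη3 he
    have hne : y ≠ x := by
      simp only [nb, mem_filter, mem_univ, true_and] at hxy
      exact hxy.1
    have hsub : ({(x, y), (y, x)} : Finset (V × V)) ⊆
        B.bipartiteAbove (fun (e : Finset V) (w : V × V) => w.1 ∈ e ∧ w.2 ∈ e) e := by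
      intro w hw
      simp only [mem_insert, mem_singleton] at hw
      simp only [bipartiteAbove, mem_filter, hB, mem_univ, true_and]
      rcases hw with rfl | rfl
      · exact ⟨⟨hxy, hlt⟩, hx, hy⟩
      · exact ⟨⟨(mem_nb_comm H x y).mp hxy, by rw [den_comm]; exact hlt⟩, hy, hx⟩
    have hcard : ({(x, y), (y, x)} : Finset (V × V)).card = 2 := by
      apply card_pair
      intro h
      rw [Prod.mk.injEq] at h
      exact hne h.2
    rw [← hcard]
    exact card_le_card hsub
  have hup : ∀ w ∈ B, ((moved H φ).bipartiteBelow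
      (fun (e : Finset V) (w : V × V) => w.1 ∈ e ∧ w.2 ∈ e) w).card ≤ 2 := by
    intro w hw
    simp only [hB, mem_filter, mem_univ, true_and] at hw
    have hne : w.1 ≠ w.2 := by
      have h := hw.1
      simp only [nb, mem_filter, mem_univ, true_and] at h
      exact h.1.symm
    refine le_trans (card_le_card ?_) (pair_le h3 hN hne)
    intro e he
    simp only [bipartiteBelow, mem_filter, moved] at he ⊢
    exact ⟨he.1.1, he.2⟩
  have h1 : (moved H φ).card * 2 ≤ B.card * 2 := by
    calc (moved H φ).card * 2 = ∑ _e ∈ moved H φ, 2 := by rw [sum_const, smul_eq_mul]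
      _ ≤ ∑ e ∈ moved H φ,
          (B.bipartiteAbove (fun (e : Finset V) (w : V × V) => w.1 ∈ e ∧ w.2 ∈ e) e).card :=
        sum_le_sum hlow
      _ = ∑ w ∈ B, ((moved H φ).bipartiteBelow
          (fun (e : Finset V) (w : V × V) => w.1 ∈ e ∧ w.2 ∈ e) w).card :=
        sum_card_bipartiteAbove_eq_sum_card_bipartiteBelow _
      _ ≤ ∑ _w ∈ B, 2 := sum_le_sum hup
      _ = B.card * 2 := by rw [sum_const, smul_eq_mul]
  have h2 : (moved H φ).card ≤ B.card := by omega
  have h3' : ((moved H φ).card : ℝ) ≤ (B.card : ℝ) := by exact_mod_cast h2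
  exact h3'.trans hBle

theorem upper_qr {n : ℕ} {A : Type*} [Group A] {H : Finset (Finset (Fin n))}
    (h3 : Three H) (h6 : SixThree H) {φ : A →* Equiv.Perm (Fin n)} (hA : Auts H φ) {D : ℕ}
    (hD : 1 ≤ D) (hQ : QR A D) :
    ((moved H φ).card : ℝ) ≤ (4 / D : ℝ) ^ (1 / 3 : ℝ) * (n : ℝ) ^ 2 := by
  classical
  by_cases hn : 6 ≤ n
  · have := upper_noTri h3 (noTri_of_sixThree hn h6) hA hD hQ
    rwa [Fintype.card_fin] at this
  · have hn5 : n ≤ 5 := by omega
    have h4D : (0 : ℝ) ≤ 4 / D := by positivity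
    by_cases hm : moved H φ = ∅
    · rw [hm, card_empty, Nat.cast_zero]
      exact mul_nonneg (Real.rpow_nonneg h4D _) (by positivity)
    · obtain ⟨e, he⟩ := nonempty_iff_ne_empty.mpr hm
      simp only [moved, mem_filter] at he
      obtain ⟨heH, v, hve, hv⟩ := he
      have hb := orb_big hQ φ hv
      have hle : (orb φ v).card ≤ n := by
        have := card_le_univ (orb φ v)
        rwa [Fintype.card_fin] at this
      have hD4 : D ≤ 4 := by omega
      have hD0 : (0 : ℝ) < D := by exact_mod_cast hD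
      have hD4' : (D : ℝ) ≤ 4 := by exact_mod_cast hD4
      have h1 : (1 : ℝ) ≤ 4 / D := by
        rw [le_div_iff₀ hD0]
        linarith
      have h2 : (1 : ℝ) ≤ (4 / D : ℝ) ^ (1 / 3 : ℝ) := Real.one_le_rpow h1 (by norm_num)
      have hcard : (moved H φ).card ≤ n ^ 2 := by
        have hs : moved H φ ⊆ powersetCard 3 univ := by
          intro f hf
          simp only [moved, mem_filter] at hf
          rw [mem_powersetCard]
          exact ⟨subset_univ _, h3 f hf.1⟩
        have hc := card_le_card hs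
        rw [card_powersetCard, card_univ, Fintype.card_fin] at hc
        refine hc.trans ?_
        interval_cases n <;> decide
      have hcard' : ((moved H φ).card : ℝ) ≤ (n : ℝ) ^ 2 := by exact_mod_cast hcard
      have hnn : (0 : ℝ) ≤ (n : ℝ) ^ 2 := by positivity
      nlinarith

end Pool.Agent.SXQ
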