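import Pool.Agent.SXQ.WNF


namespace SXQ

open SXP

variable {V G : Type*} [Group G] [MulAction G V] {d : V → V → ℕ} {R : Set G} {W : Set V} {β κ : ℕ}

theorem w1_smul (hC : Ctx d R β κ) {k : G} (hk : k ∈ G1 d R W) {v : V} (hv : v ∈ W1 d R W) :
    k • v ∈ W1 d R W := by
  obtain ⟨g, hg, h⟩ := hv
  refine ⟨k * g, mul_mem hk hg, ?_⟩
  rcases h with ⟨w, hw, rfl⟩ | ⟨x, hx, hv⟩
  · exact Or.inl ⟨w, hw, (mul_smul k g w).symm⟩
  · refine Or.inr ⟨x, hx, ?_⟩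
    have e : k * g * x * (k * g)⁻¹ = k * (g * x * g⁻¹) * k⁻¹ := by group
    rw [e]
    exact (ax_conj hC.iso (g * x * g⁻¹) k v).2 hv

private def QQ (d : V → V → ℕ) (R : Set G) (W : Set V) : Set (Set V) :=
  {P | (∃ g ∈ G1 d R W, P = {v | ∃ w ∈ W, v = g • w}) ∨
    ∃ g ∈ G1 d R W, ∃ x ∈ TT d R W, P = Ax d (g * x * g⁻¹)}

private def rr (d : V → V → ℕ) (R : Set G) (W : Set V) (u v : V) : Prop :=
  ∃ P ∈ QQ d R W, u ∈ P ∧ v ∈ P

private theorem rr_symm {u v : V} (h : rr d R W u v) : rr d R W v u := by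
  obtain ⟨P, hP, hu, hv⟩ := h
  exact ⟨P, hP, hv, hu⟩

private theorem rt_symm {u v : V} (h : Relation.ReflTransGen (rr d R W) u v) :
    Relation.ReflTransGen (rr d R W) v u := by
  induction h with
  | refl => exact Relation.ReflTransGen.refl
  | tail _ h2 ih => exact (Relation.ReflTransGen.single (rr_symm h2)).trans ih

private theorem rr_smul (hC : Ctx d R β κ) {k : G} (hk : k ∈ G1 d R W) {u v : V} (h : rr d R W u v) :
    rr d R W (k • u) (k • v) := by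
  obtain ⟨P, hP, hu, hv⟩ := h
  rcases hP with ⟨g, hg, rfl⟩ | ⟨g, hg, x, hx, rfl⟩
  · obtain ⟨w, hw, rfl⟩ := hu
    obtain ⟨w', hw', rfl⟩ := hv
    exact ⟨_, Or.inl ⟨k * g, mul_mem hk hg, rfl⟩, ⟨w, hw, (mul_smul k g w).symm⟩,
      ⟨w', hw', (mul_smul k g w').symm⟩⟩
  · have e : k * g * x * (k * g)⁻¹ = k * (g * x * g⁻¹) * k⁻¹ := by group
    refine ⟨_, Or.inr ⟨k * g, mul_mem hk hg, x, hx, rfl⟩, ?_, ?_⟩
    · rw [e]
      exact (ax_conj hC.iso (g * x * g⁻¹) k u).2 hu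
    · rw [e]
      exact (ax_conj hC.iso (g * x * g⁻¹) k v).2 hv

private theorem rt_smul (hC : Ctx d R β κ) {k : G} (hk : k ∈ G1 d R W) {u v : V}
    (h : Relation.ReflTransGen (rr d R W) u v) :
    Relation.ReflTransGen (rr d R W) (k • u) (k • v) := by
  induction h with
  | refl => exact Relation.ReflTransGen.refl
  | tail _ h2 ih => exact ih.tail (rr_smul hC hk h2)

private theorem rr_W {w w' : V} (hw : w ∈ W) (hw' : w' ∈ W) : rr d R W w w' :=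
  ⟨_, Or.inl ⟨1, one_mem _, rfl⟩, ⟨w, hw, (one_smul G w).symm⟩, ⟨w', hw', (one_smul G w').symm⟩⟩

private theorem rt_G (hC : Ctx d R β κ) (hW : WM d R β W) {g : G} (hg : g ∈ G1 d R W) :
    ∀ w ∈ W, Relation.ReflTransGen (rr d R W) w (g • w) := by
  induction hg using Subgroup.closure_induction with
  | mem x hx =>
    intro w hw
    have hx1 : x ∈ G1 d R W := Subgroup.subset_closure hx
    rcases hx with hx | hx
    · exact Relation.ReflTransGen.single (rr_W hw (hW.p1 x (Subgroup.subset_closure hx) w hw))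
    · obtain ⟨q, hq1, hq2⟩ := hx.2.1
      have h1 : rr d R W w q := rr_W hw hq2
      have h2 : rr d R W q (x • q) := by
        refine ⟨_, Or.inr ⟨1, one_mem _, x, hx, rfl⟩, ?_, ?_⟩
        · simpa using hq1
        · have := ax_smul hC.iso (k := x) (g := x) rfl hq1
          simpa using this
      have h3 : rr d R W (x • q) (x • w) := rr_smul hC hx1 (rr_W hq2 hw)
      exact ((Relation.ReflTransGen.single h1).tail h2).tail h3
  | one =>
    intro w _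
    rw [one_smul]
  | mul x y hx _ ihx ihy =>
    intro w hw
    rw [mul_smul]
    exact (ihx w hw).trans (rt_smul hC hx (ihy w hw))
  | inv x hx ih =>
    intro w hw
    have h1 := rt_smul hC (inv_mem hx) (ih w hw)
    rw [inv_smul_smul] at h1
    exact rt_symm h1

theorem w1_conv (hC : Ctx d R β κ) (hW : WM d R β W) :
    Conv d (W1 d R W) ∧ ∀ u ∈ W1 d R W, ∀ v ∈ W1 d R W, d u v = 1 →
      (∃ g ∈ G1 d R W, (∃ w ∈ W, u = g • w) ∧ ∃ w ∈ W, v = g • w) ∨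
      ∃ g ∈ G1 d R W, ∃ x ∈ TT d R W, u ∈ Ax d (g * x * g⁻¹) ∧ v ∈ Ax d (g * x * g⁻¹) := by
  obtain ⟨w0, hw0⟩ := hW.ne
  have : Nonempty V := ⟨w0⟩
  have hU : ⋃₀ (QQ d R W) = W1 d R W := by
    ext v
    constructor
    · rintro ⟨P, hP, hv⟩
      rcases hP with ⟨g, hg, rfl⟩ | ⟨g, hg, x, hx, rfl⟩
      · exact ⟨g, hg, Or.inl hv⟩
      · exact ⟨g, hg, Or.inr ⟨x, hx, hv⟩⟩
    · rintro ⟨g, hg, h | ⟨x, hx, h⟩⟩
      · exact ⟨_, Or.inl ⟨g, hg, rfl⟩, h⟩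
      · exact ⟨_, Or.inr ⟨g, hg, x, hx, rfl⟩, h⟩
  have hQ : ∀ P ∈ QQ d R W, Conv d P := by
    intro P hP
    rcases hP with ⟨g, hg, rfl⟩ | ⟨g, hg, x, hx, rfl⟩
    · rintro _ ⟨w1, hw1, rfl⟩ _ ⟨w2, hw2, rfl⟩ y hy
      refine ⟨g⁻¹ • y, hW.conv w1 hw1 w2 hw2 (g⁻¹ • y) ?_, (smul_inv_smul g y).symm⟩
      have e1 := hC.iso g⁻¹ (g • w1) y
      have e2 := hC.iso g⁻¹ y (g • w2)
      have e3 := hC.iso g w1 w2
      rw [inv_smul_smul] at e1 e2
      unfold SXP.Btw at hy ⊢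
      rw [e1, e2, hy, e3]
    · obtain ⟨c, τ, hc, _, hrng, _⟩ := ax_line hC (hC.conj g x hx.1)
      have e : Ax d (g * x * g⁻¹) = Set.range c := by
        ext v
        rw [hrng v]
        constructor
        · rintro ⟨n, rfl⟩
          exact ⟨n, rfl⟩
        · rintro ⟨n, rfl⟩
          exact ⟨n, rfl⟩
      rw [e]
      exact line_conv hC.tm hc
  have hto : ∀ u ∈ W1 d R W, Relation.ReflTransGen (rr d R W) u w0 := by
    rintro u ⟨g, hg, h | ⟨x, hx, h⟩⟩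
    · obtain ⟨w, hw, rfl⟩ := h
      exact (rt_symm (rt_G hC hW hg w hw)).tail (rr_W hw hw0)
    · obtain ⟨q, hq1, hq2⟩ := hx.2.1
      have h1 : rr d R W u (g • q) := by
        refine ⟨_, Or.inr ⟨g, hg, x, hx, rfl⟩, h, ?_⟩
        exact (ax_conj hC.iso x g q).2 hq1
      exact ((Relation.ReflTransGen.single h1).trans (rt_symm (rt_G hC hW hg q hq2))).tail
        (rr_W hq2 hw0)
  obtain ⟨hc1, hc2⟩ := chain_conv hC.tm (QQ d R W) hQ (by
    intro u hu v hv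
    rw [hU] at hu hv
    exact (hto u hu).trans (rt_symm (hto v hv)))
  rw [hU] at hc1 hc2
  refine ⟨hc1, fun u hu v hv huv => ?_⟩
  obtain ⟨P, hP, hPu, hPv⟩ := hc2 u hu v hv huv
  rcases hP with ⟨g, hg, rfl⟩ | ⟨g, hg, x, hx, rfl⟩
  · exact Or.inl ⟨g, hg, hPu, hPv⟩
  · exact Or.inr ⟨g, hg, x, hx, hPu, hPv⟩

end SXQ
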