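import Pool.Agent.SXQ.WChart


namespace SXQ

open SXP

variable {V G : Type*} [Group G] [MulAction G V] {d : V → V → ℕ} {R : Set G} {W : Set V} {β κ : ℕ}

theorem dd_tail (hC : Ctx d R β κ) (hW : WM d R β W) {x : G} (hx : x ∈ TT d R W) {u q : V}
    (hu : u ∈ DD d W x) (hqW : q ∈ W) (hq : ∀ w ∈ W, Btw d u q w) :
    q ∈ Ax d x ∧ ∃ b, b ∈ Ax d x ∧ d q b = 2 ∧ Btw d u b q := by
  obtain ⟨c, τ, s, t, hT⟩ := tt_chart hC hW hx
  obtain ⟨i, hi⟩ := idx_exists hC.tm hT.line u
  obtain ⟨k, hk⟩ := idx_exists hC.tm hT.line q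
  obtain ⟨hk1, hk2⟩ := idx_W hC hW hT hqW hk
  have hst := hT.st
  rcases (idx_DD hC hW hT hi).mp hu with h | h
  · have hik : i ≠ k := by omega
    have e1 := idx2 hC.tm hT.line hi hk hik
    have e2 := hi t
    have e3 := hk t
    have e4 := hq (c t) ((hT.mem t).mpr ⟨hst, le_refl t⟩)
    unfold SXP.Btw at e4
    rw [abs_of_nonneg (by omega)] at e1
    rw [abs_of_nonpos (by omega)] at e2
    rw [abs_of_nonneg (by omega)] at e3
    have e5 : d q (c k) = 0 := by omega
    have e6 : k = t := by omega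
    have e7 : q = c k := (hC.tm.zero _ _).mp e5
    subst e6
    refine ⟨(hT.rng q).mpr ⟨k, e7⟩, c (k + 2), (hT.rng _).mpr ⟨_, rfl⟩, ?_, ?_⟩
    · have e8 := hT.line k (k + 2)
      rw [abs_of_nonpos (by omega)] at e8
      rw [e7]
      omega
    · have e8 := hT.line (k + 2) k
      rw [abs_of_nonneg (by omega)] at e8
      have e9 := hi (k + 2)
      rw [abs_of_nonpos (by omega)] at e9
      unfold SXP.Btw
      rw [e7]
      omega
  · have hik : i ≠ k := by omega
    have e1 := idx2 hC.tm hT.line hi hk hik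
    have e2 := hi s
    have e3 := hk s
    have e4 := hq (c s) ((hT.mem s).mpr ⟨le_refl s, hst⟩)
    unfold SXP.Btw at e4
    rw [abs_of_nonpos (by omega)] at e1
    rw [abs_of_nonneg (by omega)] at e2
    rw [abs_of_nonpos (by omega)] at e3
    have e5 : d q (c k) = 0 := by omega
    have e6 : k = s := by omega
    have e7 : q = c k := (hC.tm.zero _ _).mp e5
    subst e6
    refine ⟨(hT.rng q).mpr ⟨k, e7⟩, c (k - 2), (hT.rng _).mpr ⟨_, rfl⟩, ?_, ?_⟩
    · have e8 := hT.line k (k - 2)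
      rw [abs_of_nonneg (by omega)] at e8
      rw [e7]
      omega
    · have e8 := hT.line (k - 2) k
      rw [abs_of_nonpos (by omega)] at e8
      have e9 := hi (k - 2)
      rw [abs_of_nonneg (by omega)] at e9
      unfold SXP.Btw
      rw [e7]
      omega

theorem dd_disj (hC : Ctx d R β κ) (hW : WM d R β W) {x y : G} (hx : x ∈ TT d R W)
    (hy : y ∈ TT d R W) (hxy : x ≠ y) {u : V} (h1 : u ∈ DD d W x) (h2 : u ∈ DD d W y) :
    False := by
  obtain ⟨q, hqW, hq⟩ := gate hC.tm hW.conv hW.ne u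
  have hq' : ∀ w ∈ W, Btw d u q w := fun w hw => (hq w hw).symm
  obtain ⟨ha, b, hb, hb2, hb3⟩ := dd_tail hC hW hx h1 hqW hq'
  obtain ⟨ha', b', hb', hb2', hb3'⟩ := dd_tail hC hW hy h2 hqW hq'
  have e1 := hC.tm.symm b q
  have e2 := hC.tm.symm b' q
  have h3 : d u b = d u b' := by
    unfold SXP.Btw at hb3 hb3'
    omega
  have hbb := btw_uniq hC.tm hb3 hb3' h3
  subst hbb
  have := hC.ov x hx.1 y hy.1 hxy q b ha ha' hb hb'
  omega

end SXQ
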