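import Pool.Agent.SXQ.WUniq

/-! Project SXQ, module SXQ-WLine: if a vertex `u` of a line of the windmill is not in a translate
of `W` but adjacent to one, then the line passes through the adjacent vertex of the translate. -/

namespace SXQ

open SXP

variable {V G : Type*} [Group G] [MulAction G V] {d : V → V → ℕ} {R : Set G} {W : Set V} {β κ : ℕ}

theorem line_adj0 (hC : Ctx d R β κ) (hW : WM d R β W) {x : G} (hx : x ∈ TT d R W) {u : V}
    (hu : u ∈ Ax d x) (hno : ∀ k ∈ G1 d R W, ∀ w ∈ W, k • w ≠ u) {h : G}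
    (hh : h ∈ G1 d R W) {w : V} (hw : w ∈ W) (hd : d u (h • w) = 1) : h • w ∈ Ax d x := by
  by_contra hp
  have hxG : x ∈ G1 d R W := Subgroup.subset_closure (Or.inr hx)
  obtain ⟨c, τ, s, t, hT⟩ := tt_chart hC hW hx
  obtain ⟨i, rfl⟩ := (hT.rng u).1 hu
  have hst := hT.st
  obtain ⟨j, hj⟩ := idx_exists hC.tm hT.line (h • w)
  have hpos : 1 ≤ d (h • w) (c j) := by
    rcases Nat.eq_zero_or_pos (d (h • w) (c j)) with h0 | h0
    · exact absurd ((hT.rng _).2 ⟨j, (hC.tm.zero _ _).1 h0⟩) hp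
    · exact h0
  have hji : j = i := by
    have h1 := hj i
    rw [hC.tm.symm, hd] at h1
    have h2 : |i - j| = 0 := by
      have := abs_nonneg (i - j)
      push_cast at h1
      omega
    have := abs_eq_zero.1 h2
    omega
  subst hji
  obtain ⟨n, hn⟩ := (nf hC hW hh).2 x hx
  have hjn := (idx_pow hC.iso hT.tr hj n).1
  have hnD := hn w hw
  rw [idx_DD hC hW hT hjn] at hnD
  push Not at hnD
  have hcn : ∀ k : ℤ, x ^ (-n) • c (k + n * τ) = c k := by
    intro k
    rw [line_pow hT.tr (-n)]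
    congr 1
    ring
  have hGn : x ^ (-n) ∈ G1 d R W := Subgroup.zpow_mem _ hxG _
  -- the neighbouring vertex of the translate `x ^ (-n) W`
  have key : ∀ e : ℤ, |e - j| = 1 → c (e + n * τ) ∈ W → False := by
    intro e he hec
    have h1 : d (c j) (x ^ (-n) • c (e + n * τ)) = 1 := by
      rw [hcn e]
      have := hT.line j e
      rw [abs_sub_comm, he] at this
      exact_mod_cast this
    have h2 : d (x ^ (-n) • c (e + n * τ)) (h • w) < κ := by
      have := hC.tm.tri (x ^ (-n) • c (e + n * τ)) (c j) (h • w)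
      rw [hC.tm.symm _ (c j), h1, hd] at this
      have := hC.hκ
      omega
    have h3 := near_same hC hW hGn hh hec hw h2
    have h4 : ((x ^ (-n))⁻¹ * h) • w ∈ W := (gw_W hW h3 w).2 hw
    have h5 : c (e + n * τ) = ((x ^ (-n))⁻¹ * h) • w := by
      refine nbr_eq hC.tm hW.conv (v := (x ^ (-n))⁻¹ • c j) ?_ hec h4 ?_ ?_
      · intro h6
        exact hno _ hGn _ h6 (smul_inv_smul _ _)
      · rw [← hC.iso (x ^ (-n)), smul_inv_smul]
        exact h1
      · rw [mul_smul, hC.iso]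
        exact hd
    apply hp
    have h6 : h • w = x ^ (-n) • c (e + n * τ) := by
      rw [h5, mul_smul, smul_inv_smul]
    rw [h6, hcn e]
    exact (hT.rng _).2 ⟨e, rfl⟩
  by_cases hin : s ≤ j + n * τ ∧ j + n * τ ≤ t
  · exact hno _ hGn _ ((hT.mem _).2 hin) (hcn j)
  · rcases (by omega : j + n * τ = t + 1 ∨ j + n * τ = s - 1) with h1 | h1
    · refine key (j - 1) (by rw [show j - 1 - j = -1 by ring]; rfl) ((hT.mem _).2 ?_)
      constructor <;> omega
    · refine key (j + 1) (by rw [show j + 1 - j = 1 by ring]; rfl) ((hT.mem _).2 ?_)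
      constructor <;> omega

theorem line_adj (hC : Ctx d R β κ) (hW : WM d R β W) {x g : G} (hx : x ∈ TT d R W)
    (hg : g ∈ G1 d R W) {u : V} (hu : u ∈ Ax d (g * x * g⁻¹))
    (hno : ∀ k ∈ G1 d R W, ∀ w ∈ W, k • w ≠ u) {h : G} (hh : h ∈ G1 d R W) {w : V}
    (hw : w ∈ W) (hd : d u (h • w) = 1) : h • w ∈ Ax d (g * x * g⁻¹) := by
  have h1 : g⁻¹ • u ∈ Ax d x := by
    have := (ax_conj hC.iso x g (g⁻¹ • u)).1
    rw [smul_inv_smul] at this
    exact this hu
  have h2 := line_adj0 hC hW hx h1 (h := g⁻¹ * h) (w := w) ?_ (mul_mem (inv_mem hg) hh) hw ?_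
  · have h3 := (ax_conj hC.iso x g _).2 h2
    rwa [mul_smul, smul_inv_smul] at h3
  · intro k hk w' hw' he
    apply hno (g * k) (mul_mem hg hk) w' hw'
    rw [mul_smul, he, smul_inv_smul]
  · rw [mul_smul, hC.iso]
    exact hd

end SXQ
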