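import Pool.Agent.SXQ.WConv
import Pool.Agent.SXQ.WLine


namespace SXQ

open SXP

variable {V G : Type*} [Group G] [MulAction G V] {d : V → V → ℕ} {R : Set G} {W : Set V} {β κ : ℕ}

theorem touch (hC : Ctx d R β κ) (hW : WM d R β W) {m h : G} (hm : m ∈ R) (hh : h ∈ G1 d R W)
    {w : V} (hw : w ∈ W) (hwm : h • w ∈ Ax d m) : m ∈ G1 d R W ∧ Ax d m ⊆ W1 d R W := by
  obtain ⟨x, hx⟩ : ∃ x, x = h⁻¹ * m * h := ⟨_, rfl⟩
  have hmx : m = h * x * h⁻¹ := by
    rw [hx]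
    group
  have hxR : x ∈ R := by
    have := hC.conj h⁻¹ m hm
    rwa [inv_inv, ← hx] at this
  have hwx : w ∈ Ax d x := by
    rw [hmx] at hwm
    exact (ax_conj hC.iso x h w).1 hwm
  by_cases hsub : Ax d x ⊆ W
  · have hxG : x ∈ G1 d R W := Subgroup.subset_closure (Or.inl ⟨hxR, hsub⟩)
    refine ⟨?_, fun v hv => ?_⟩
    · rw [hmx]
      exact mul_mem (mul_mem hh hxG) (inv_mem hh)
    · refine ⟨h, hh, Or.inl ⟨h⁻¹ • v, hsub ?_, (smul_inv_smul h v).symm⟩⟩
      rw [hmx] at hv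
      have := (ax_conj hC.iso x h (h⁻¹ • v)).1
      rw [smul_inv_smul] at this
      exact this hv
  · have hxT : x ∈ TT d R W := ⟨hxR, ⟨w, hwx, hw⟩, hsub⟩
    have hxG : x ∈ G1 d R W := Subgroup.subset_closure (Or.inr hxT)
    refine ⟨?_, fun v hv => ?_⟩
    · rw [hmx]
      exact mul_mem (mul_mem hh hxG) (inv_mem hh)
    · refine ⟨h, hh, Or.inr ⟨x, hxT, ?_⟩⟩
      rwa [← hmx]

private theorem w1_p3_six (hC : Ctx d R β κ) (hW : WM d R β W) (hκ4 : κ = 4) {m : G}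
    (hm : m ∈ R) :
    (m ∈ G1 d R W ∧ Ax d m ⊆ W1 d R W) ∨
      ∀ a b, a ∈ Ax d m → a ∈ W1 d R W → b ∈ Ax d m → b ∈ W1 d R W → d a b ≤ 2 := by
  by_cases htouch : ∃ h ∈ G1 d R W, ∃ w ∈ W, h • w ∈ Ax d m
  · obtain ⟨h, hh, w, hw, hwm⟩ := htouch
    exact Or.inl (touch hC hW hm hh hw hwm)
  right
  have hno : ∀ h ∈ G1 d R W, ∀ w ∈ W, h • w ∉ Ax d m := fun h hh w hw hwm =>
    htouch ⟨h, hh, w, hw, hwm⟩
  intro a b ha haW hb hbW
  by_contra hd
  have : Nonempty V := ⟨a⟩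
  obtain ⟨c, τ, hline, _, hrng, _⟩ := ax_line hC hm
  obtain ⟨i, rfl⟩ := (hrng a).1 ha
  obtain ⟨j, rfl⟩ := (hrng b).1 hb
  have hax : ∀ l, c l ∈ Ax d m := fun l => (hrng _).2 ⟨l, rfl⟩
  obtain ⟨hconv, hcov⟩ := w1_conv hC hW
  have hmem : ∀ l, min i j ≤ l → l ≤ max i j → c l ∈ W1 d R W := by
    intro l h1 h2
    refine hconv _ haW _ hbW _ ?_
    have e1 := hline i l
    have e2 := hline l j
    have e3 := hline i j
    unfold SXP.Btw
    rcases le_total i j with hij | hij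
    · rw [min_eq_left hij] at h1
      rw [max_eq_right hij] at h2
      rw [abs_of_nonpos (by omega)] at e1 e2 e3
      omega
    · rw [min_eq_right hij] at h1
      rw [max_eq_left hij] at h2
      rw [abs_of_nonneg (by omega)] at e1 e2 e3
      omega
  obtain ⟨k, hk⟩ : ∃ k, k = min i j := ⟨_, rfl⟩
  have hk3 : k + 3 ≤ max i j := by
    have e3 := hline i j
    rcases le_total i j with hij | hij
    · rw [min_eq_left hij] at hk
      rw [max_eq_right hij]
      rw [abs_of_nonpos (by omega)] at e3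
      omega
    · rw [min_eq_right hij] at hk
      rw [max_eq_left hij]
      rw [abs_of_nonneg (by omega)] at e3
      omega
  have hd1 : ∀ l, d (c l) (c (l + 1)) = 1 := by
    intro l
    have := hline l (l + 1)
    rw [show l - (l + 1) = -1 by ring, abs_neg, abs_one] at this
    exact_mod_cast this
  have hd2 : ∀ l, d (c l) (c (l + 1 + 1)) = 2 := by
    intro l
    have := hline l (l + 1 + 1)
    rw [show l - (l + 1 + 1) = -2 by ring, abs_neg, show |(2 : ℤ)| = 2 from rfl] at this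
    exact_mod_cast this
  have hedge : ∀ l, k ≤ l → l + 1 ≤ k + 3 → ∃ g ∈ G1 d R W, ∃ x ∈ TT d R W,
      c l ∈ Ax d (g * x * g⁻¹) ∧ c (l + 1) ∈ Ax d (g * x * g⁻¹) := by
    intro l h1 h2
    rcases hcov (c l) (hmem l (by omega) (by omega)) (c (l + 1)) (hmem (l + 1) (by omega) (by omega))
      (hd1 l) with ⟨g, hg, ⟨w, hw, hcw⟩, _⟩ | h
    · exact absurd (hcw ▸ hax l) (hno g hg w hw)
    · exact h
  -- the lines of the edges are different from the axis of `m`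
  have hne : ∀ g ∈ G1 d R W, ∀ x ∈ TT d R W, g * x * g⁻¹ ≠ m := by
    intro g hg x hx he
    obtain ⟨hxR, ⟨q, hq, hqW⟩, _⟩ := hx
    have h1 : g • q ∈ Ax d (g * x * g⁻¹) := (ax_conj hC.iso x g q).2 hq
    rw [he] at h1
    exact hno g hg q hqW h1
  have hov : ∀ g ∈ G1 d R W, ∀ x ∈ TT d R W, ∀ l, c l ∈ Ax d (g * x * g⁻¹) →
      c (l + 1 + 1) ∈ Ax d (g * x * g⁻¹) → False := by
    intro g hg x hx l h1 h2
    have h3 := hC.ov _ (hC.conj g x hx.1) m hm (hne g hg x hx) (c l) (c (l + 1 + 1)) h1 (hax _) h2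
      (hax _)
    rw [hd2] at h3
    omega
  -- inner vertices are adjacent to translates
  have hinner : ∀ l, k ≤ l → l + 1 + 1 ≤ k + 3 → ∃ h ∈ G1 d R W, ∃ w ∈ W,
      d (c (l + 1)) (h • w) = 1 := by
    intro l h1 h2
    obtain ⟨g, hg, x, hx, e1, e2⟩ := hedge l h1 (by omega)
    obtain ⟨g', hg', x', hx', e3, e4⟩ := hedge (l + 1) (by omega) h2
    by_contra hcon
    have hfar : ∀ k ∈ G1 d R W, ∀ w ∈ W, 2 ≤ d (c (l + 1)) (k • w) := by
      intro h hh w hw
      have h3 : d (c (l + 1)) (h • w) ≠ 1 := fun h3 => hcon ⟨h, hh, w, hw, h3⟩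
      have h4 : d (c (l + 1)) (h • w) ≠ 0 := by
        intro h4
        have h5 := (hC.tm.zero _ _).1 h4
        exact hno h hh w hw (h5 ▸ hax (l + 1))
      omega
    have h5 := line_uniq hC hW hx hx' hg hg' e2 e3 hfar
    rw [← h5] at e4
    exact hov g hg x hx l e1 e4
  obtain ⟨h, hh, w, hw, e1⟩ := hinner k le_rfl (by omega)
  obtain ⟨h', hh', w', hw', e2⟩ := hinner (k + 1) (by omega) (by omega)
  have e12 := hd1 (k + 1)
  have hclose : d (h • w) (h' • w') < κ := by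
    have t1 := hC.tm.tri (h • w) (c (k + 1)) (h' • w')
    have t2 := hC.tm.tri (c (k + 1)) (c (k + 1 + 1)) (h' • w')
    rw [hC.tm.symm (h • w) (c (k + 1))] at t1
    omega
  have hGW := near_same hC hW hh hh' hw hw' hclose
  have hqW : (h⁻¹ * h') • w' ∈ W := (gw_W hW hGW w').2 hw'
  refine nbr hC.tm hW.conv (a := h⁻¹ • c (k + 1)) (b := h⁻¹ • c (k + 1 + 1)) (p := w)
    (q := (h⁻¹ * h') • w') ?_ ?_ ?_ hw ?_ hqW ?_
  · rw [hC.iso]
    exact e12
  · intro hcon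
    have := hno h hh _ hcon
    rw [smul_inv_smul] at this
    exact this (hax _)
  · intro hcon
    have := hno h hh _ hcon
    rw [smul_inv_smul] at this
    exact this (hax _)
  · have := hC.iso h (h⁻¹ • c (k + 1)) w
    rw [smul_inv_smul] at this
    rw [← this]
    exact e1
  · rw [mul_smul, hC.iso]
    exact e2

/-- second case: no triangles -/
private theorem w1_p3_tri (hC : Ctx d R β κ) (hW : WM d R β W) (hnt : NoTri d R) {m : G}
    (hm : m ∈ R) :
    (m ∈ G1 d R W ∧ Ax d m ⊆ W1 d R W) ∨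
      ∀ a b, a ∈ Ax d m → a ∈ W1 d R W → b ∈ Ax d m → b ∈ W1 d R W → d a b ≤ 1 := by
  by_cases htouch : ∃ h ∈ G1 d R W, ∃ w ∈ W, h • w ∈ Ax d m
  · obtain ⟨h, hh, w, hw, hwm⟩ := htouch
    exact Or.inl (touch hC hW hm hh hw hwm)
  right
  have hno : ∀ h ∈ G1 d R W, ∀ w ∈ W, h • w ∉ Ax d m := fun h hh w hw hwm =>
    htouch ⟨h, hh, w, hw, hwm⟩
  intro a b ha haW hb hbW
  by_contra hd
  have : Nonempty V := ⟨a⟩
  obtain ⟨c, τ, hline, _, hrng, _⟩ := ax_line hC hm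
  obtain ⟨i, rfl⟩ := (hrng a).1 ha
  obtain ⟨j, rfl⟩ := (hrng b).1 hb
  have hax : ∀ l, c l ∈ Ax d m := fun l => (hrng _).2 ⟨l, rfl⟩
  obtain ⟨hconv, hcov⟩ := w1_conv hC hW
  have hmem : ∀ l, min i j ≤ l → l ≤ max i j → c l ∈ W1 d R W := by
    intro l h1 h2
    refine hconv _ haW _ hbW _ ?_
    have e1 := hline i l
    have e2 := hline l j
    have e3 := hline i j
    unfold SXP.Btw
    rcases le_total i j with hij | hij
    · rw [min_eq_left hij] at h1
      rw [max_eq_right hij] at h2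
      rw [abs_of_nonpos (by omega)] at e1 e2 e3
      omega
    · rw [min_eq_right hij] at h1
      rw [max_eq_left hij] at h2
      rw [abs_of_nonneg (by omega)] at e1 e2 e3
      omega
  obtain ⟨k, hk⟩ : ∃ k, k = min i j := ⟨_, rfl⟩
  have hk3 : k + 2 ≤ max i j := by
    have e3 := hline i j
    rcases le_total i j with hij | hij
    · rw [min_eq_left hij] at hk
      rw [max_eq_right hij]
      rw [abs_of_nonpos (by omega)] at e3
      omega
    · rw [min_eq_right hij] at hk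
      rw [max_eq_left hij]
      rw [abs_of_nonneg (by omega)] at e3
      omega
  have hd1 : ∀ l, d (c l) (c (l + 1)) = 1 := by
    intro l
    have := hline l (l + 1)
    rw [show l - (l + 1) = -1 by ring, abs_neg, abs_one] at this
    exact_mod_cast this
  have hd2 : ∀ l, d (c l) (c (l + 1 + 1)) = 2 := by
    intro l
    have := hline l (l + 1 + 1)
    rw [show l - (l + 1 + 1) = -2 by ring, abs_neg, show |(2 : ℤ)| = 2 from rfl] at this
    exact_mod_cast this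
  have hedge : ∀ l, k ≤ l → l + 1 ≤ k + 2 → ∃ g ∈ G1 d R W, ∃ x ∈ TT d R W,
      c l ∈ Ax d (g * x * g⁻¹) ∧ c (l + 1) ∈ Ax d (g * x * g⁻¹) := by
    intro l h1 h2
    rcases hcov (c l) (hmem l (by omega) (by omega)) (c (l + 1)) (hmem (l + 1) (by omega) (by omega))
      (hd1 l) with ⟨g, hg, ⟨w, hw, hcw⟩, _⟩ | h
    · exact absurd (hcw ▸ hax l) (hno g hg w hw)
    · exact h
  -- the lines of the edges are different from the axis of `m`
  have hne : ∀ g ∈ G1 d R W, ∀ x ∈ TT d R W, g * x * g⁻¹ ≠ m := by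
    intro g hg x hx he
    obtain ⟨hxR, ⟨q, hq, hqW⟩, _⟩ := hx
    have h1 : g • q ∈ Ax d (g * x * g⁻¹) := (ax_conj hC.iso x g q).2 hq
    rw [he] at h1
    exact hno g hg q hqW h1
  have hov : ∀ g ∈ G1 d R W, ∀ x ∈ TT d R W, ∀ l, c l ∈ Ax d (g * x * g⁻¹) →
      c (l + 1 + 1) ∈ Ax d (g * x * g⁻¹) → False := by
    intro g hg x hx l h1 h2
    have h3 := hC.ov _ (hC.conj g x hx.1) m hm (hne g hg x hx) (c l) (c (l + 1 + 1)) h1 (hax _) h2
      (hax _)
    rw [hd2] at h3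
    omega
  obtain ⟨g, hg, x, hx, e1, e2⟩ := hedge k le_rfl (by omega)
  obtain ⟨g', hg', x', hx', e3, e4⟩ := hedge (k + 1) (by omega) (by omega)
  have hyy : g * x * g⁻¹ ≠ g' * x' * g'⁻¹ := by
    intro h5
    rw [← h5] at e4
    exact hov g hg x hx k e1 e4
  have hoff : ∀ l, ∀ h ∈ G1 d R W, ∀ w ∈ W, h • w ≠ c l := by
    intro l h hh w hw he
    exact hno h hh w hw (he ▸ hax l)
  -- the inner vertex is adjacent to a translate
  obtain ⟨h, hh, w, hw, hp⟩ : ∃ h ∈ G1 d R W, ∃ w ∈ W, d (c (k + 1)) (h • w) = 1 := by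
    by_contra hcon
    have hfar : ∀ k' ∈ G1 d R W, ∀ w ∈ W, 2 ≤ d (c (k + 1)) (k' • w) := by
      intro h hh w hw
      have h3 : d (c (k + 1)) (h • w) ≠ 1 := fun h3 => hcon ⟨h, hh, w, hw, h3⟩
      have h4 : d (c (k + 1)) (h • w) ≠ 0 := by
        intro h4
        have h5 := (hC.tm.zero _ _).1 h4
        exact hoff _ h hh w hw h5.symm
      omega
    exact hyy (line_uniq hC hW hx hx' hg hg' e2 e3 hfar)
  have hp1 := line_adj hC hW hx hg e2 (hoff (k + 1)) hh hw hp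
  have hp2 := line_adj hC hW hx' hg' e3 (hoff (k + 1)) hh hw hp
  refine hnt m hm _ (hC.conj g' x' hx'.1) _ (hC.conj g x hx.1) (hne g' hg' x' hx').symm
    hyy.symm (hne g hg x hx).symm (c (k + 1)) (c k) (c (k + 1 + 1)) (h • w) ?_ (hd1 _) hp ?_ ?_ ?_
    (hax _) e3 e2 (hax _) (hax _) e4 hp2 hp1 e1
  · rw [hC.tm.symm]; exact hd1 k
  · intro he
    have := hd2 k
    rw [he, (hC.tm.zero _ _).2 rfl] at this
    omega
  · intro he
    exact hoff _ h hh w hw he.symm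
  · intro he
    exact hoff _ h hh w hw he.symm

theorem w1_p3 (hC : Ctx d R β κ) (hW : WM d R β W) {m : G} (hm : m ∈ R) :
    (m ∈ G1 d R W ∧ Ax d m ⊆ W1 d R W) ∨
      ∀ a b, a ∈ Ax d m → a ∈ W1 d R W → b ∈ Ax d m → b ∈ W1 d R W → d a b ≤ β := by
  rcases hC.alt with ⟨h1, h2⟩ | ⟨h1, h2, h3⟩
  · have := w1_p3_six hC hW h2 hm
    rw [h1]
    exact this
  · have := w1_p3_tri hC hW h3 hm
    rw [h1]
    exact this

end SXQ
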