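import Pool.Agent.SXQ.WP3
import Pool.Agent.SXQ.WP2


namespace SXQ

open SXP

variable {V G : Type*} [Group G] [MulAction G V] {d : V → V → ℕ} {R : Set G} {W : Set V} {β κ : ℕ}

theorem type1 (hC : Ctx d R β κ) (hW : WM d R β W) (hT : (TT d R W).Nonempty) :
    ∃ W', W ⊂ W' ∧ WM d R β W' := by
  have hsub : W ⊆ W1 d R W := by
    intro w hw
    exact ⟨1, Subgroup.one_mem _, Or.inl ⟨w, hw, (one_smul G w).symm⟩⟩
  have hne : Nonempty V := ⟨hW.ne.some⟩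
  have hTsub : ∀ x ∈ TT d R W, Ax d x ⊆ W1 d R W := by
    intro x hx v hv
    refine ⟨1, Subgroup.one_mem _, Or.inr ⟨x, hx, ?_⟩⟩
    simpa using hv
  have hle : GW d R (W1 d R W) ≤ G1 d R W := by
    unfold GW
    rw [Subgroup.closure_le]
    rintro x ⟨hxR, hxW⟩
    rcases w1_p3 hC hW hxR with h1 | h1
    · exact h1.1
    · exfalso
      obtain ⟨c, τ, hl, -, hr, -⟩ := ax_line hC hxR
      have h0 : c 0 ∈ Ax d x := (hr _).2 ⟨0, rfl⟩
      have h3 : c 3 ∈ Ax d x := (hr _).2 ⟨3, rfl⟩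
      have h5 := h1 (c 0) (c 3) h0 (hxW h0) h3 (hxW h3)
      have h6 := hl 0 3
      norm_num at h6
      have := hC.hβ
      omega
  refine ⟨W1 d R W, ⟨hsub, ?_⟩, ⟨hW.ne.mono hsub, (w1_conv hC hW).1, ?_, ?_, ?_⟩⟩
  · intro hcon
    obtain ⟨x, hx⟩ := hT
    exact hx.2.2 ((hTsub x hx).trans hcon)
  · intro g hg w hw
    exact w1_smul hC (hle hg) hw
  · intro g hg hg1 v
    exact w1_free hC hW (hle hg) hg1 v
  · intro x hx
    rcases w1_p3 hC hW hx with h1 | h1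
    · exact Or.inl h1.2
    · exact Or.inr h1

end SXQ
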